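import Mathlib

/-!
Maps of a block of lattice points preserving the relation of being at distance at most `k`
are isometries.
-/

namespace Pool.Agent.H68.Sq

/-- distance at most `k` -/
def Nr (k : ℤ) (a b : ℤ × ℤ) : Prop :=
  a.1 ≤ b.1 + k ∧ b.1 ≤ a.1 + k ∧ a.2 ≤ b.2 + k ∧ b.2 ≤ a.2 + k

instance (k : ℤ) (a b : ℤ × ℤ) : Decidable (Nr k a b) := by unfold Nr; infer_instance

theorem Nr.symm {k : ℤ} {a b : ℤ × ℤ} (h : Nr k a b) : Nr k b a := by
  unfold Nr at *
  omega

theorem nr_comm {k : ℤ} {a b : ℤ × ℤ} : Nr k a b ↔ Nr k b a := ⟨Nr.symm, Nr.symm⟩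

/-- the block around the origin -/
noncomputable def Bl (k : ℤ) : Finset (ℤ × ℤ) := Finset.Icc (-k) k ×ˢ Finset.Icc (-k) k

theorem mem_bl {k : ℤ} {u : ℤ × ℤ} : u ∈ Bl k ↔ -k ≤ u.1 ∧ u.1 ≤ k ∧ -k ≤ u.2 ∧ u.2 ≤ k := by
  simp only [Bl, Finset.mem_product, Finset.mem_Icc]
  tauto

theorem mem_bl_iff {k : ℤ} {u : ℤ × ℤ} : u ∈ Bl k ↔ Nr k u 0 := by
  rw [mem_bl]
  simp only [Nr, Prod.fst_zero, Prod.snd_zero]
  omega

/-- common neighbours in the block -/
noncomputable def cm (k : ℤ) (u v : ℤ × ℤ) : Finset (ℤ × ℤ) := (Bl k).filter (fun w => Nr k w u ∧ Nr k w v)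

/-- `max` minus `min` of `0`, `a`, `b` -/
def sp (a b : ℤ) : ℤ := max 0 (max a b) - min 0 (min a b)

theorem cm_card {k : ℤ} {u v : ℤ × ℤ} (hu : u ∈ Bl k) (hv : v ∈ Bl k) :
    ((cm k u v).card : ℤ) = (2 * k + 1 - sp u.1 v.1) * (2 * k + 1 - sp u.2 v.2) := by
  rw [mem_bl] at hu hv
  have h : cm k u v =
      Finset.Icc (max 0 (max u.1 v.1) - k) (min 0 (min u.1 v.1) + k) ×ˢ
      Finset.Icc (max 0 (max u.2 v.2) - k) (min 0 (min u.2 v.2) + k) := by
    ext w
    simp only [cm, Finset.mem_filter, mem_bl, Finset.mem_product, Finset.mem_Icc, Nr]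
    omega
  rw [h, Finset.card_product, Nat.cast_mul, Int.card_Icc, Int.card_Icc]
  have e1 : ((min 0 (min u.1 v.1) + k + 1 - (max 0 (max u.1 v.1) - k)).toNat : ℤ) =
      2 * k + 1 - sp u.1 v.1 := by
    unfold sp
    omega
  have e2 : ((min 0 (min u.2 v.2) + k + 1 - (max 0 (max u.2 v.2) - k)).toNat : ℤ) =
      2 * k + 1 - sp u.2 v.2 := by
    unfold sp
    omega
  rw [e1, e2]

/-- `q` fixes the origin and preserves nearness on the block -/
structure Pr (k : ℤ) (q : ℤ × ℤ → ℤ × ℤ) : Prop where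
  zero : q 0 = 0
  near : ∀ u ∈ Bl k, ∀ v ∈ Bl k, (Nr k (q u) (q v) ↔ Nr k u v)

variable {k : ℤ} {q : ℤ × ℤ → ℤ × ℤ}

theorem zero_mem (hk : 1 ≤ k) : (0 : ℤ × ℤ) ∈ Bl k := by
  rw [mem_bl]
  simp only [Prod.fst_zero, Prod.snd_zero]
  omega

theorem Pr.maps (hk : 1 ≤ k) (h : Pr k q) {u : ℤ × ℤ} (hu : u ∈ Bl k) : q u ∈ Bl k := by
  rw [mem_bl_iff, ← h.zero, h.near u hu 0 (zero_mem hk)]
  exact mem_bl_iff.1 hu

theorem Pr.inj (hk : 1 ≤ k) (h : Pr k q) {u v : ℤ × ℤ} (hu : u ∈ Bl k) (hv : v ∈ Bl k)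
    (he : q u = q v) : u = v := by
  have key : ∀ w ∈ Bl k, (Nr k u w ↔ Nr k v w) := by
    intro w hw
    rw [← h.near u hu w hw, ← h.near v hv w hw, he]
  obtain ⟨a, b⟩ := u
  obtain ⟨c, d⟩ := v
  have g : ∀ x y : ℤ, -k ≤ x → x ≤ k → -k ≤ y → y ≤ k →
      (Nr k (a, b) (x, y) ↔ Nr k (c, d) (x, y)) := fun x y h1 h2 h3 h4 =>
    key (x, y) (mem_bl.2 ⟨h1, h2, h3, h4⟩)
  rw [mem_bl] at hu hv
  simp only [Nr] at g hu hv
  have hx : a = c := by
    by_contra hne
    have h1 := g (-k) 0 (by omega) (by omega) (by omega) (by omega)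
    have h2 := g k 0 (by omega) (by omega) (by omega) (by omega)
    rcases le_or_gt 0 a with ha | ha <;> rcases le_or_gt 0 c with hc | hc
    · rcases lt_or_gt_of_ne hne with hl | hl
      · have h3 := g (a - k) 0 (by omega) (by omega) (by omega) (by omega)
        omega
      · have h3 := g (c - k) 0 (by omega) (by omega) (by omega) (by omega)
        omega
    · rcases eq_or_lt_of_le ha with h0 | h0 <;> omega
    · rcases eq_or_lt_of_le hc with h0 | h0 <;> omega
    · rcases lt_or_gt_of_ne hne with hl | hl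
      · have h3 := g (c + k) 0 (by omega) (by omega) (by omega) (by omega)
        omega
      · have h3 := g (a + k) 0 (by omega) (by omega) (by omega) (by omega)
        omega
  have hy : b = d := by
    by_contra hne
    have h1 := g 0 (-k) (by omega) (by omega) (by omega) (by omega)
    have h2 := g 0 k (by omega) (by omega) (by omega) (by omega)
    rcases le_or_gt 0 b with ha | ha <;> rcases le_or_gt 0 d with hc | hc
    · rcases lt_or_gt_of_ne hne with hl | hl
      · have h3 := g 0 (b - k) (by omega) (by omega) (by omega) (by omega)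
        omega
      · have h3 := g 0 (d - k) (by omega) (by omega) (by omega) (by omega)
        omega
    · rcases eq_or_lt_of_le ha with h0 | h0 <;> omega
    · rcases eq_or_lt_of_le hc with h0 | h0 <;> omega
    · rcases lt_or_gt_of_ne hne with hl | hl
      · have h3 := g 0 (d + k) (by omega) (by omega) (by omega) (by omega)
        omega
      · have h3 := g 0 (b + k) (by omega) (by omega) (by omega) (by omega)
        omega
  rw [hx, hy]

theorem Pr.image (hk : 1 ≤ k) (h : Pr k q) : (Bl k).image q = Bl k := by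
  refine Finset.eq_of_subset_of_card_le ?_ ?_
  · intro w hw
    obtain ⟨u, hu, rfl⟩ := Finset.mem_image.1 hw
    exact h.maps hk hu
  · rw [Finset.card_image_of_injOn]
    intro u hu v hv he
    exact h.inj hk hu hv he

theorem Pr.count (hk : 1 ≤ k) (h : Pr k q) {u v : ℤ × ℤ} (hu : u ∈ Bl k) (hv : v ∈ Bl k) :
    (2 * k + 1 - sp (q u).1 (q v).1) * (2 * k + 1 - sp (q u).2 (q v).2) =
      (2 * k + 1 - sp u.1 v.1) * (2 * k + 1 - sp u.2 v.2) := by
  rw [← cm_card hu hv, ← cm_card (h.maps hk hu) (h.maps hk hv)]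
  have e : cm k (q u) (q v) = (cm k u v).image q := by
    ext w
    simp only [Finset.mem_image, cm, Finset.mem_filter]
    constructor
    · rintro ⟨h1, h2, h3⟩
      rw [← h.image hk] at h1
      obtain ⟨z, hz, rfl⟩ := Finset.mem_image.1 h1
      exact ⟨z, ⟨hz, (h.near z hz u hu).1 h2, (h.near z hz v hv).1 h3⟩, rfl⟩
    · rintro ⟨z, ⟨hz, h2, h3⟩, rfl⟩
      exact ⟨h.maps hk hz, (h.near z hz u hu).2 h2, (h.near z hz v hv).2 h3⟩
  rw [e, Finset.card_image_of_injOn]
  intro a ha b hb he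
  exact h.inj hk (Finset.mem_filter.1 ha).1 (Finset.mem_filter.1 hb).1 he

theorem sq_factor {a b k : ℤ} (hk : 1 ≤ k) (ha : k + 1 ≤ a) (hb : k + 1 ≤ b)
    (h : a * b = (k + 1) * (k + 1)) : a = k + 1 ∧ b = k + 1 := by
  constructor
  · by_contra hne
    have : (k + 2) * (k + 1) ≤ a * b := mul_le_mul (by omega) hb (by omega) (by omega)
    nlinarith
  · by_contra hne
    have : (k + 1) * (k + 2) ≤ a * b := mul_le_mul ha (by omega) (by omega) (by omega)
    nlinarith

/-- corners go to corners -/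
theorem Pr.corner (hk : 1 ≤ k) (h : Pr k q) {u : ℤ × ℤ} (h1 : u.1 = k ∨ u.1 = -k)
    (h2 : u.2 = k ∨ u.2 = -k) : ((q u).1 = k ∨ (q u).1 = -k) ∧ ((q u).2 = k ∨ (q u).2 = -k) := by
  have hu : u ∈ Bl k := by rw [mem_bl]; omega
  have hm := mem_bl.1 (h.maps hk hu)
  have hc := h.count hk hu hu
  have e1 : 2 * k + 1 - sp u.1 u.1 = k + 1 := by unfold sp; omega
  have e2 : 2 * k + 1 - sp u.2 u.2 = k + 1 := by unfold sp; omega
  rw [e1, e2] at hc
  have := sq_factor hk (by unfold sp; omega) (by unfold sp; omega) hc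
  unfold sp at this
  omega

/-- fixing two neighbouring corners forces the identity -/
theorem Pr.id_of (hk : 1 ≤ k) (h : Pr k q) (c1 : q (k, k) = (k, k)) (c2 : q (k, -k) = (k, -k)) :
    ∀ u ∈ Bl k, q u = u := by
  have m1 : ((k, k) : ℤ × ℤ) ∈ Bl k := by rw [mem_bl]; dsimp only; omega
  have m2 : ((k, -k) : ℤ × ℤ) ∈ Bl k := by rw [mem_bl]; dsimp only; omega
  have m3 : ((-k, k) : ℤ × ℤ) ∈ Bl k := by rw [mem_bl]; dsimp only; omega
  have m4 : ((-k, -k) : ℤ × ℤ) ∈ Bl k := by rw [mem_bl]; dsimp only; omega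
  have c3 : q (-k, k) = (-k, k) := by
    have hc := h.corner hk (u := (-k, k)) (by simp) (by simp)
    have n1 := h.near _ m3 _ m1
    have n2 := h.near _ m3 _ m2
    have k1 := h.count hk m3 m1
    have k2 := h.count hk m3 m2
    rw [c1] at n1 k1
    rw [c2] at n2 k2
    have e1 : 2 * k + 1 - sp (-k) k = 1 := by unfold sp; omega
    have e2 : 2 * k + 1 - sp k k = k + 1 := by unfold sp; omega
    have e3 : 2 * k + 1 - sp k (-k) = 1 := by unfold sp; omega
    have e4 : 2 * k + 1 - sp (-k) (-k) = k + 1 := by unfold sp; omega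
    obtain ⟨hx, hy⟩ := hc
    rcases hx with hx | hx <;> rcases hy with hy | hy
    · rw [hx, hy, e2, e1] at k1
      nlinarith
    · rw [hx, hy, e2, e4] at k2
      dsimp only at k2
      rw [e1, e3] at k2
      nlinarith
    · exact Prod.ext hx hy
    · rw [hx, hy] at k1
      dsimp only at k1
      rw [e1, e2] at k1
      nlinarith
  have c4 : q (-k, -k) = (-k, -k) := by
    have hc := h.corner hk (u := (-k, -k)) (by simp) (by simp)
    have k1 := h.count hk m4 m1
    have k2 := h.count hk m4 m2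
    rw [c1] at k1
    rw [c2] at k2
    have e1 : 2 * k + 1 - sp (-k) k = 1 := by unfold sp; omega
    have e2 : 2 * k + 1 - sp k k = k + 1 := by unfold sp; omega
    have e3 : 2 * k + 1 - sp k (-k) = 1 := by unfold sp; omega
    have e4 : 2 * k + 1 - sp (-k) (-k) = k + 1 := by unfold sp; omega
    obtain ⟨hx, hy⟩ := hc
    rcases hx with hx | hx <;> rcases hy with hy | hy
    · rw [hx, hy] at k1
      dsimp only at k1
      rw [e1, e2] at k1
      nlinarith
    · rw [hx, hy] at k2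
      dsimp only at k2
      rw [e1, e2, e4] at k2
      nlinarith
    · rw [hx, hy] at k1
      dsimp only at k1
      rw [e1, e2] at k1
      nlinarith
    · exact Prod.ext hx hy
  intro u hu
  have n1 := h.near _ hu _ m1
  have n2 := h.near _ hu _ m2
  have n3 := h.near _ hu _ m3
  have n4 := h.near _ hu _ m4
  have k1 := h.count hk hu m1
  have k2 := h.count hk hu m2
  have k3 := h.count hk hu m3
  have k4 := h.count hk hu m4
  have hq := h.maps hk hu
  rw [c1] at n1 k1
  rw [c2] at n2 k2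
  rw [c3] at n3 k3
  rw [c4] at n4 k4
  rw [mem_bl] at hu hq
  generalize q u = v at *
  obtain ⟨x, y⟩ := u
  obtain ⟨x', y'⟩ := v
  simp only [Nr] at *
  have sk : ∀ z : ℤ, -k ≤ z → z ≤ k → 2 * k + 1 - sp z k = k + 1 - max 0 (-z) := by
    intro z h1 h2; unfold sp; omega
  have sm : ∀ z : ℤ, -k ≤ z → z ≤ k → 2 * k + 1 - sp z (-k) = k + 1 - max 0 z := by
    intro z h1 h2; unfold sp; omega
  rw [sk _ (by omega) (by omega), sk _ (by omega) (by omega), sk _ (by omega) (by omega),
    sk _ (by omega) (by omega)] at k1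
  rw [sk _ (by omega) (by omega), sm _ (by omega) (by omega), sk _ (by omega) (by omega),
    sm _ (by omega) (by omega)] at k2
  rw [sm _ (by omega) (by omega), sk _ (by omega) (by omega), sm _ (by omega) (by omega),
    sk _ (by omega) (by omega)] at k3
  rw [sm _ (by omega) (by omega), sm _ (by omega) (by omega), sm _ (by omega) (by omega),
    sm _ (by omega) (by omega)] at k4
  have hp : k + 1 ≠ 0 := by omega
  rcases le_or_gt 0 x with hx | hx <;> rcases le_or_gt 0 y with hy | hy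
  · have hx' : 0 ≤ x' := by omega
    have hy' : 0 ≤ y' := by omega
    rw [max_eq_right hx', max_eq_right hx, max_eq_left (by omega : -y' ≤ 0),
      max_eq_left (by omega : -y ≤ 0), sub_zero] at k3
    rw [max_eq_left (by omega : -x' ≤ 0), max_eq_left (by omega : -x ≤ 0), max_eq_right hy',
      max_eq_right hy, sub_zero] at k2
    have h3 := mul_right_cancel₀ hp k3
    have h2 := mul_left_cancel₀ hp k2
    rw [Prod.mk.injEq]
    omega
  · have hx' : 0 ≤ x' := by omega
    have hy' : y' ≤ 0 := by omega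
    rw [max_eq_left (by omega : -x' ≤ 0), max_eq_left (by omega : -x ≤ 0),
      max_eq_right (by omega : 0 ≤ -y'), max_eq_right (by omega : 0 ≤ -y), sub_zero] at k1
    rw [max_eq_right hx', max_eq_right hx, max_eq_left hy', max_eq_left (by omega : y ≤ 0),
      sub_zero] at k4
    have h3 := mul_right_cancel₀ hp k4
    have h2 := mul_left_cancel₀ hp k1
    rw [Prod.mk.injEq]
    omega
  · have hx' : x' ≤ 0 := by omega
    have hy' : 0 ≤ y' := by omega
    rw [max_eq_right (by omega : 0 ≤ -x'), max_eq_right (by omega : 0 ≤ -x),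
      max_eq_left (by omega : -y' ≤ 0), max_eq_left (by omega : -y ≤ 0), sub_zero] at k1
    rw [max_eq_left hx', max_eq_left (by omega : x ≤ 0), max_eq_right hy', max_eq_right hy,
      sub_zero] at k4
    have h3 := mul_right_cancel₀ hp k1
    have h2 := mul_left_cancel₀ hp k4
    rw [Prod.mk.injEq]
    omega
  · have hx' : x' ≤ 0 := by omega
    have hy' : y' ≤ 0 := by omega
    rw [max_eq_right (by omega : 0 ≤ -x'), max_eq_right (by omega : 0 ≤ -x),
      max_eq_left hy', max_eq_left (by omega : y ≤ 0), sub_zero] at k2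
    rw [max_eq_left hx', max_eq_left (by omega : x ≤ 0), max_eq_right (by omega : 0 ≤ -y'),
      max_eq_right (by omega : 0 ≤ -y), sub_zero] at k3
    have h3 := mul_right_cancel₀ hp k2
    have h2 := mul_left_cancel₀ hp k3
    rw [Prod.mk.injEq]
    omega

/-- a symmetry of the square: a sign for each coordinate and possibly the exchange of the
coordinates -/
def sym (w : Bool) (s t : ℤ) (z : ℤ × ℤ) : ℤ × ℤ :=
  if w then (s * z.2, t * z.1) else (s * z.1, t * z.2)

theorem nr_sym {w : Bool} {s t : ℤ} (hs : s = 1 ∨ s = -1) (ht : t = 1 ∨ t = -1) (a b : ℤ × ℤ) :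
    Nr k (sym w s t a) (sym w s t b) ↔ Nr k a b := by
  unfold sym Nr
  rcases hs with rfl | rfl <;> rcases ht with rfl | rfl <;> cases w <;> simp <;> omega

/-- the normal form: some symmetry makes the map the identity -/
theorem Pr.exists_sym (hk : 1 ≤ k) (h : Pr k q) : ∃ (w : Bool) (s t : ℤ), (s = 1 ∨ s = -1) ∧
    (t = 1 ∨ t = -1) ∧ ∀ u ∈ Bl k, sym w s t (q u) = u := by
  have m1 : ((k, k) : ℤ × ℤ) ∈ Bl k := by rw [mem_bl]; dsimp only; omega
  have m2 : ((k, -k) : ℤ × ℤ) ∈ Bl k := by rw [mem_bl]; dsimp only; omega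
  have hc1 := h.corner hk (u := (k, k)) (by simp) (by simp)
  have hc2 := h.corner hk (u := (k, -k)) (by simp) (by simp)
  have hkk := h.count hk m1 m2
  have main : ∀ (w : Bool) (s t : ℤ), (s = 1 ∨ s = -1) → (t = 1 ∨ t = -1) →
      sym w s t (q (k, k)) = (k, k) → sym w s t (q (k, -k)) = (k, -k) →
      ∃ (w : Bool) (s t : ℤ), (s = 1 ∨ s = -1) ∧
        (t = 1 ∨ t = -1) ∧ ∀ u ∈ Bl k, sym w s t (q u) = u := by
    intro w s t hs ht e1 e2
    have h' : Pr k (fun u => sym w s t (q u)) :=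
      { zero := by rw [h.zero]; unfold sym; cases w <;> simp
        near := fun u hu v hv => (nr_sym hs ht _ _).trans (h.near u hu v hv) }
    exact ⟨w, s, t, hs, ht, h'.id_of hk e1 e2⟩
  have e1 : 2 * k + 1 - sp (-k) k = 1 := by unfold sp; omega
  have e2 : 2 * k + 1 - sp k k = k + 1 := by unfold sp; omega
  have e3 : 2 * k + 1 - sp k (-k) = 1 := by unfold sp; omega
  have e4 : 2 * k + 1 - sp (-k) (-k) = k + 1 := by unfold sp; omega
  obtain ⟨p1, p2⟩ := hc1
  obtain ⟨r1, r2⟩ := hc2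
  dsimp only at hkk
  rw [e2, e3] at hkk
  have s1 : sym false 1 1 = id := by funext z; simp [sym]
  generalize q (k, k) = a at *
  generalize q (k, -k) = b at *
  obtain ⟨a1, a2⟩ := a
  obtain ⟨b1, b2⟩ := b
  dsimp only at *
  rcases p1 with rfl | rfl <;> rcases p2 with rfl | rfl
  · rcases r1 with rfl | rfl <;> rcases r2 with rfl | rfl
    · rw [e2] at hkk; nlinarith
    · exact main false 1 1 (by simp) (by simp) (by simp [sym]) (by simp [sym])
    · exact main true 1 1 (by simp) (by simp) (by simp [sym]) (by simp [sym])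
    · rw [e3] at hkk; nlinarith
  · rcases r1 with rfl | rfl <;> rcases r2 with rfl | rfl
    · exact main false 1 (-1) (by simp) (by simp) (by simp [sym]) (by simp [sym])
    · rw [e2, e4] at hkk; nlinarith
    · rw [e3, e1] at hkk; nlinarith
    · exact main true (-1) 1 (by simp) (by simp) (by simp [sym]) (by simp [sym])
  · rcases r1 with rfl | rfl <;> rcases r2 with rfl | rfl
    · exact main true 1 (-1) (by simp) (by simp) (by simp [sym]) (by simp [sym])
    · rw [e1, e3] at hkk; nlinarith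
    · rw [e2, e4] at hkk; nlinarith
    · exact main false (-1) 1 (by simp) (by simp) (by simp [sym]) (by simp [sym])
  · rcases r1 with rfl | rfl <;> rcases r2 with rfl | rfl
    · rw [e1] at hkk; nlinarith
    · exact main true (-1) (-1) (by simp) (by simp) (by simp [sym]) (by simp [sym])
    · exact main false (-1) (-1) (by simp) (by simp) (by simp [sym]) (by simp [sym])
    · rw [e4] at hkk; nlinarith

/-- isometries -/
structure Iso (T : ℤ × ℤ → ℤ × ℤ) : Prop where
  ex : ∃ (w : Bool) (s t : ℤ) (c d : ℤ × ℤ), (s = 1 ∨ s = -1) ∧ (t = 1 ∨ t = -1) ∧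
    ∀ z, T z = sym w s t (z - c) + d

theorem nr_sub (a b c : ℤ × ℤ) : Nr k (a - c) (b - c) ↔ Nr k a b := by
  simp only [Nr, Prod.fst_sub, Prod.snd_sub]
  omega

theorem nr_add (a b c : ℤ × ℤ) : Nr k (a + c) (b + c) ↔ Nr k a b := by
  simp only [Nr, Prod.fst_add, Prod.snd_add]
  omega

theorem Iso.near {T : ℤ × ℤ → ℤ × ℤ} (hT : Iso T) (a b : ℤ × ℤ) :
    Nr k (T a) (T b) ↔ Nr k a b := by
  obtain ⟨w, s, t, c, d, hs, ht, h⟩ := hT.ex
  rw [h, h, nr_add, nr_sym hs ht, nr_sub]

/-- a map preserving nearness on a block is undone by an isometry -/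
theorem block {p : ℤ × ℤ → ℤ × ℤ} {c : ℤ × ℤ} (hk : 1 ≤ k)
    (h : ∀ u v, Nr k u c → Nr k v c → (Nr k (p u) (p v) ↔ Nr k u v)) :
    ∃ T, Iso T ∧ ∀ u, Nr k u c → T (p u) = u := by
  have hp : Pr k (fun u => p (u + c) - p c) :=
    { zero := by simp
      near := by
        intro u hu v hv
        have hu' : Nr k (u + c) c := by
          rw [mem_bl] at hu
          simp only [Nr, Prod.fst_add, Prod.snd_add]
          omega
        have hv' : Nr k (v + c) c := by
          rw [mem_bl] at hv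
          simp only [Nr, Prod.fst_add, Prod.snd_add]
          omega
        rw [nr_sub, h _ _ hu' hv', nr_add] }
  obtain ⟨w, s, t, hs, ht, hq⟩ := hp.exists_sym hk
  refine ⟨fun z => sym w s t (z - p c) + c, ⟨⟨w, s, t, p c, c, hs, ht, fun z => rfl⟩⟩, ?_⟩
  intro u hu
  have hb : u - c ∈ Bl k := by
    rw [mem_bl]
    simp only [Nr] at hu
    simp only [Prod.fst_sub, Prod.snd_sub]
    omega
  have := hq _ hb
  simp only [sub_add_cancel] at this
  simp only [this, sub_add_cancel]

/-- an isometry fixing three points of a small triangle is the identity -/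
theorem Iso.id_of {T : ℤ × ℤ → ℤ × ℤ} (hT : Iso T) (a : ℤ × ℤ) {σ τ : ℤ}
    (hσ : σ = 1 ∨ σ = -1) (hτ : τ = 1 ∨ τ = -1) (h0 : T a = a) (h1 : T (a + (σ, 0)) = a + (σ, 0))
    (h2 : T (a + (0, τ)) = a + (0, τ)) (z : ℤ × ℤ) : T z = z := by
  obtain ⟨w, s, t, c, d, hs, ht, h⟩ := hT.ex
  rw [h] at *
  obtain ⟨a1, a2⟩ := a
  obtain ⟨c1, c2⟩ := c
  obtain ⟨d1, d2⟩ := d
  obtain ⟨z1, z2⟩ := z
  cases w <;> rcases hs with rfl | rfl <;> rcases ht with rfl | rfl <;>
    rcases hσ with rfl | rfl <;> rcases hτ with rfl | rfl <;>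
    simp [sym] at h0 h1 h2 ⊢ <;> omega

end Pool.Agent.H68.Sq
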