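import Pool.Agent.H68.Sq.Defs

/-!
From a representation by lattice squares to a satisfying assignment: coordinates.
-/

namespace Pool.Agent.H68.Sq.Dt

variable {D : Dt} {P : Vx → ℤ × ℤ}

theorem aj_cc {X Y X' Y' : ℕ} (h : D.cR X Y) (h' : D.cR X' Y') (hne : ¬ (X = X' ∧ Y = Y')) :
    D.Aj (.c X Y) (.c X' Y') ↔ X ≤ X' + D.k ∧ X' ≤ X + D.k ∧ Y ≤ Y' + D.k ∧ Y' ≤ Y + D.k := by
  constructor
  · rintro (h | h) <;> cases h <;> omega
  · intro hn
    rcases Nat.le_total X X' with hx | hx <;> rcases Nat.le_total Y Y' with hy | hy <;>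
      obtain ⟨x, rfl⟩ := Nat.exists_eq_add_of_le hx <;>
      obtain ⟨y, rfl⟩ := Nat.exists_eq_add_of_le hy
    · exact Or.inl (.diag X Y x y (by omega) (by omega) (by omega) h h')
    · exact Or.inr (.anti X Y' x y (by omega) (by omega) (by omega) h' h)
    · exact Or.inl (.anti X' Y x y (by omega) (by omega) (by omega) h h')
    · exact Or.inr (.diag X' Y' x y (by omega) (by omega) (by omega) h' h)

theorem H_eq (D : Dt) : (D.H : ℤ) = (4 * D.n + 1) * D.K + D.E := by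
  unfold H
  push_cast
  ring

/-- normalization -/
theorem norm (hD : D.Ok) (hP : D.Rp P) : ∃ P', D.Rp P' ∧ ∀ X Y, D.cR X Y →
    P' (.c X Y) = ((X : ℤ) - 3 * D.k, (Y : ℤ) - 2 * D.k) := by
  have hk : (1 : ℤ) ≤ D.k := by exact_mod_cast hD.k1
  obtain ⟨T, hT, hu⟩ := ring (k := D.k) (a := D.wd) (b := D.H)
    (p := fun z => P (.c (z.1 + 3 * D.k).toNat (z.2 + 2 * D.k).toNat)) hk (by positivity)
    (by positivity) (by
      rintro ⟨x, y⟩ ⟨x', y'⟩ h1 h2
      simp only [Rn] at h1 h2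
      by_cases hne : x = x' ∧ y = y'
      · obtain ⟨rfl, rfl⟩ := hne
        simp only [Nr]
        omega
      have c1 : D.rl (.c (x + 3 * D.k).toNat (y + 2 * D.k).toNat) := by
        simp only [rl, cR]; omega
      have c2 : D.rl (.c (x' + 3 * D.k).toNat (y' + 2 * D.k).toNat) := by
        simp only [rl, cR]; omega
      have hne' : ¬ ((x + 3 * D.k).toNat = (x' + 3 * D.k).toNat ∧
          (y + 2 * D.k).toNat = (y' + 2 * D.k).toNat) := by omega
      rw [← hP _ _ c1 c2 (by intro he; injection he; omega), aj_cc c1 c2 hne']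
      simp only [Nr]
      omega)
  refine ⟨fun u => T (P u), fun u v h1 h2 h3 => (hP u v h1 h2 h3).trans (hT.near _ _).symm, ?_⟩
  intro X Y h
  have := hu ((X : ℤ) - 3 * D.k, (Y : ℤ) - 2 * D.k) (by
    unfold cR at h
    simp only [Rn]
    omega)
  simp only [sub_add_cancel, Int.toNat_natCast] at this
  exact this

/-- normalized representations -/
structure Nm (D : Dt) (P : Vx → ℤ × ℤ) : Prop where
  ok : D.Ok
  rp : D.Rp P
  cell : ∀ X Y, D.cR X Y → P (.c X Y) = ((X : ℤ) - 3 * D.k, (Y : ℤ) - 2 * D.k)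

theorem y0_le {i c : ℕ} (hi : i < D.n) (hc : c < 4) (h2 : c ≠ 2) (hk : 1 ≤ D.k) :
    D.K ≤ D.y0 i c ∧ D.y0 i c + D.K + D.E ≤ D.H := by
  unfold y0 H
  have h1 : (4 * i + c + 1) * D.K + (3 - c) * D.K ≤ 4 * D.n * D.K := by
    rw [← Nat.add_mul]
    exact Nat.mul_le_mul_right _ (by omega)
  have h3 : 1 * D.K ≤ (4 * i + c + 1) * D.K := Nat.mul_le_mul_right _ (by omega)
  have h4 : (4 * D.n + 1) * D.K = 4 * D.n * D.K + D.K := by ring
  have h5 : c = 1 → (3 - c) * D.K = 2 * D.K := by rintro rfl; rfl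
  have h6 : D.K = D.k + 1 := rfl
  generalize (4 * i + c + 1) * D.K = A at *
  generalize 4 * D.n * D.K = B at *
  rw [h4]
  split_ifs with h
  · have := h5 h
    omega
  · omega

/-- track vertices next to the ring -/
theorem aj_tc {i c j z X Y : ℕ} (h : D.Aj (.t i c j z) (.c X Y)) : z = 0 ∧ c ≠ 2 ∧
    ((j = 0 ∧ X = 2 * D.k) ∨ (j = D.m ∧ X = D.wd + 4 * D.k)) := by
  rcases h with h | h
  · cases h with
    | left i c d hi hc h2 hd => exact ⟨rfl, h2, Or.inl ⟨rfl, rfl⟩⟩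
    | right i c d hi hc h2 hd => exact ⟨rfl, h2, Or.inr ⟨rfl, rfl⟩⟩
  · cases h

theorem rl_tooth {i c : ℕ} (hi : i < D.n) (hc : c < 4) (h2 : c ≠ 2) :
    D.rl (.t i c 0 0) := ⟨hi, hc, Nat.zero_le _, Or.inl ⟨rfl, fun h => absurd h h2⟩⟩

theorem rl_tooth' {i c : ℕ} (hi : i < D.n) (hc : c < 4) (h2 : c ≠ 2) :
    D.rl (.t i c D.m 0) := ⟨hi, hc, le_rfl, Or.inl ⟨rfl, fun h => absurd h h2⟩⟩

/-- the left ends of the tracks -/
theorem Nm.left (h : Nm D P) {i c : ℕ} (hi : i < D.n) (hc : c < 4) (h2 : c ≠ 2) :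
    P (.t i c 0 0) = (0, (D.y0 i c : ℤ)) := by
  have hk := h.ok.k1
  have hy := y0_le hi hc h2 hk
  have hK : D.K = D.k + 1 := rfl
  have hm := m_ge h.ok
  have c1 : D.rl (.c (2 * D.k) (D.y0 i c + D.k + 2 * D.k)) := by
    simp only [rl, cR]; omega
  have c2 : D.rl (.c (2 * D.k) (D.y0 i c + D.k + 0)) := by
    simp only [rl, cR]; omega
  have c3 : D.rl (.c (2 * D.k - 1) (D.y0 i c + 2 * D.k)) := by
    simp only [rl, cR]; omega
  have a1 := (h.rp _ _ (rl_tooth hi hc h2) c1 (by simp)).1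
    (Or.inl (.left i c (2 * D.k) hi hc h2 le_rfl))
  have a2 := (h.rp _ _ (rl_tooth hi hc h2) c2 (by simp)).1
    (Or.inl (.left i c 0 hi hc h2 (by omega)))
  have a3 := mt (h.rp _ _ (rl_tooth hi hc h2) c3 (by simp)).2 (by
    intro he
    have := aj_tc he
    omega)
  rw [h.cell _ _ c1] at a1
  rw [h.cell _ _ c2] at a2
  rw [h.cell _ _ c3] at a3
  simp only [Nr] at a1 a2 a3
  refine Prod.ext ?_ ?_
  · push_cast at a1 a2 a3 ⊢
    omega
  · push_cast at a1 a2 a3 ⊢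
    omega

/-- the right ends of the tracks -/
theorem Nm.right (h : Nm D P) {i c : ℕ} (hi : i < D.n) (hc : c < 4) (h2 : c ≠ 2) :
    P (.t i c D.m 0) = ((D.wd : ℤ), (D.y0 i c : ℤ)) := by
  have hk := h.ok.k1
  have hy := y0_le hi hc h2 hk
  have hK : D.K = D.k + 1 := rfl
  have hm := m_ge h.ok
  have c1 : D.rl (.c (D.wd + 4 * D.k) (D.y0 i c + D.k + 2 * D.k)) := by
    simp only [rl, cR]; omega
  have c2 : D.rl (.c (D.wd + 4 * D.k) (D.y0 i c + D.k + 0)) := by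
    simp only [rl, cR]; omega
  have c3 : D.rl (.c (D.wd + 4 * D.k + 1) (D.y0 i c + 2 * D.k)) := by
    simp only [rl, cR]; omega
  have a1 := (h.rp _ _ (rl_tooth' hi hc h2) c1 (by simp)).1
    (Or.inl (.right i c (2 * D.k) hi hc h2 le_rfl))
  have a2 := (h.rp _ _ (rl_tooth' hi hc h2) c2 (by simp)).1
    (Or.inl (.right i c 0 hi hc h2 (by omega)))
  have a3 := mt (h.rp _ _ (rl_tooth' hi hc h2) c3 (by simp)).2 (by
    intro he
    have := aj_tc he
    omega)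
  rw [h.cell _ _ c1] at a1
  rw [h.cell _ _ c2] at a2
  rw [h.cell _ _ c3] at a3
  simp only [Nr] at a1 a2 a3
  refine Prod.ext ?_ ?_
  · push_cast at a1 a2 a3 ⊢
    omega
  · push_cast at a1 a2 a3 ⊢
    omega

end Pool.Agent.H68.Sq.Dt
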