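import Pool.Agent.H68.Sq.Lev
import Pool.Agent.H68.Sq.Sound

/-!
From a satisfying assignment to a representation by lattice squares: positions.
-/

namespace Pool.Agent.H68.Sq.Dt

attribute [local instance] Classical.propDecidable

/-- rank of a track -/
noncomputable def rk (t : ℕ → Prop) (i c : ℕ) : ℕ :=
  4 * i + (if c = 0 then 0 else if c = 3 then 3 else if (c = 1 ↔ t i) then 1 else 2)

variable {D : Dt} {δ : ℕ → ℕ → ℕ} {t : ℕ → Prop}

theorem rk0 {i : ℕ} : rk t i 0 = 4 * i := by simp [rk]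
theorem rk3 {i : ℕ} : rk t i 3 = 4 * i + 3 := by simp [rk]
theorem rk12 {i c : ℕ} (h : c = 1 ∨ c = 2) : rk t i c = 4 * i + 1 ∨ rk t i c = 4 * i + 2 := by
  unfold rk
  rcases h with rfl | rfl
  · split_ifs <;> simp_all
  · split_ifs <;> simp_all

theorem rk_inj {i c i' c' : ℕ} (hc : c < 4) (hc' : c' < 4) (h : rk t i c = rk t i' c') :
    i = i' ∧ c = c' := by
  unfold rk at h
  have hi : i = i' := by
    split_ifs at h <;> omega
  subst hi
  refine ⟨rfl, ?_⟩
  have e : ∀ c, (c = 0 ∨ c = 1 ∨ c = 2 ∨ c = 3) ↔ c < 4 := by intro c; omega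
  rcases (e c).2 hc with rfl | rfl | rfl | rfl <;> rcases (e c').2 hc' with rfl | rfl | rfl | rfl <;>
    simp at h ⊢ <;> by_cases ht : t i <;> simp [ht] at h

theorem rk_lt {n i c : ℕ} (hi : i < n) : rk t i c < 4 * n := by
  unfold rk
  split_ifs <;> omega

/-- displacement downwards of a doubled vertex -/
noncomputable def dnf (D : Dt) (t : ℕ → Prop) (i c : ℕ) : ℕ :=
  if rk t i c = 4 * i + 1 then D.k else 1
/-- displacement upwards of a doubled vertex -/
noncomputable def upf (D : Dt) (t : ℕ → Prop) (i c : ℕ) : ℕ :=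
  if rk t i c = 4 * i + 1 then 1 else D.k

theorem gaps (hD : D.Ok) (h : Dg D t δ) {i c j j' : ℕ} (hf : D.fl i c j) (hj : nb j j') :
    (∀ s, rk t i c < s → s < 4 * D.n →
      lev D δ (rk t i c) j + D.K + upf D t i c ≤ lev D δ s j') ∧
    (∀ s, s < rk t i c → lev D δ s j' + D.K + dnf D t i c ≤ lev D δ (rk t i c) j) ∧
    D.K + dnf D t i c ≤ lev D δ (rk t i c) j ∧
    lev D δ (rk t i c) j' = lev D δ (rk t i c) j := by
  have hK : D.K = D.k + 1 := rfl
  have hk := hD.k1
  have hM : 2 ≤ D.M := by unfold M; omega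
  obtain ⟨q, b, ho, hc⟩ := hf
  obtain ⟨hq, hi, hb⟩ := hD.occ _ _ _ ho
  have hcol : q * D.W + D.M ≤ j ∧ j ≤ q * D.W + D.M + 2 := by omega
  have hcol' : q * D.W + D.M ≤ j' + 1 ∧ j' ≤ q * D.W + D.M + 3 := by
    rcases hj with rfl | rfl | rfl <;> omega
  obtain ⟨q1, t1⟩ := center (D := D) (q := q) (j := j) (by omega) (by omega)
  obtain ⟨q2, t2⟩ := center (D := D) (q := q) (j := j') hcol'.1 hcol'.2
  have L : ∀ s, s < 4 * D.n → lev D δ s j = (s + 1) * D.K + δ q s := by
    intro s hs; rw [lev_full h.toDl hs t1, q1]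
  have L' : ∀ s, s < 4 * D.n → lev D δ s j' = (s + 1) * D.K + δ q s := by
    intro s hs; rw [lev_full h.toDl hs t2, q2]
  have hr := rk_lt (t := t) (c := c) hi
  have mul : ∀ r s : ℕ, r < s → (r + 1) * D.K + D.K ≤ (s + 1) * D.K := by
    intro r s hrs
    have : (r + 1) * D.K + D.K = (r + 2) * D.K := by ring
    rw [this]
    exact Nat.mul_le_mul_right _ (by omega)
  have a0 := h.a0 q i b ho
  have a1 := h.a1 q i b ho
  have b1 := h.b1 q i b ho
  have c1 := h.c1 q i b ho
  have d1 := h.d1 q i b ho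
  have mono := h.mono q
  have kind : (rk t i c = 4 * i) ∨ (rk t i c = 4 * i + 1) ∨ (rk t i c = 4 * i + 2 ∧
      ¬ tr t i b) := by
    rcases hc with ⟨rfl, -⟩ | ⟨rfl, -⟩
    · exact Or.inl rk0
    · have : b = 0 ∨ b = 1 := by omega
      rcases this with rfl | rfl
      · by_cases ht : t i
        · right; left; simp [rk, ht]
        · right; right; simp [rk, ht, tr]
      · by_cases ht : t i
        · right; right; simp [rk, ht, tr]
        · right; left; simp [rk, ht]
  refine ⟨?_, ?_, ?_, ?_⟩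
  · intro s hs hs4
    rw [L _ hr, L' s hs4]
    have m := mul _ _ hs
    have key : δ q (rk t i c) + upf D t i c ≤ δ q s := by
      unfold upf
      rcases kind with e | e | ⟨e, hn⟩
      · rw [e] at hs ⊢
        rw [if_neg (by omega)]
        have := mono (4 * i + 1) s (by omega)
        omega
      · rw [e] at hs ⊢
        rw [if_pos rfl]
        have := mono (4 * i + 2) s (by omega)
        omega
      · rw [e] at hs ⊢
        rw [if_neg (by omega)]
        have := mono (4 * i + 3) s (by omega)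
        have := d1 hn
        omega
    omega
  · intro s hs
    rw [L _ hr, L' s (by omega)]
    have m := mul _ _ hs
    have key : δ q s + dnf D t i c ≤ δ q (rk t i c) := by
      unfold dnf
      rcases kind with e | e | ⟨e, hn⟩
      · rw [e] at hs ⊢
        rw [if_neg (by omega)]
        exact a1 s hs
      · rw [e] at hs ⊢
        rw [if_pos rfl]
        have := mono s (4 * i) (by omega)
        omega
      · rw [e] at hs ⊢
        rw [if_neg (by omega)]
        have := mono s (4 * i + 1) (by omega)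
        omega
    omega
  · rw [L _ hr]
    unfold dnf
    rcases kind with e | e | ⟨e, hn⟩
    · rw [e, if_neg (by omega)]
      have : 1 * D.K ≤ (4 * i + 1) * D.K := Nat.mul_le_mul_right _ (by omega)
      omega
    · rw [e, if_pos rfl]
      have : 2 * D.K ≤ (4 * i + 1 + 1) * D.K := Nat.mul_le_mul_right _ (by omega)
      omega
    · rw [e, if_neg (by omega)]
      have : 2 * D.K ≤ (4 * i + 2 + 1) * D.K := Nat.mul_le_mul_right _ (by omega)
      omega
  · rw [L _ hr, L' _ hr]

/-- doubled vertices of different tracks in neighbouring columns have no neighbouring ranks -/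
theorem fl_far (hD : D.Ok) {i c j i' c' j' : ℕ} (hf : D.fl i c j) (hf' : D.fl i' c' j')
    (hj : nb j j') (hr : rk t i c < rk t i' c') : rk t i c + 2 ≤ rk t i' c' := by
  have hM : 2 ≤ D.M := by unfold M; omega
  have hW : D.W = 2 * D.M + 1 := rfl
  obtain ⟨q, b, ho, h⟩ := hf
  obtain ⟨q', b', ho', h'⟩ := hf'
  have hq : q = q' := by
    rcases lt_trichotomy q q' with hl | rfl | hl
    · have := Nat.mul_le_mul_right D.W hl
      rw [Nat.succ_mul] at this
      rcases hj with rfl | rfl | rfl <;> omega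
    · rfl
    · have := Nat.mul_le_mul_right D.W hl
      rw [Nat.succ_mul] at this
      rcases hj with rfl | rfl | rfl <;> omega
  subst hq
  obtain ⟨-, -, hb⟩ := hD.occ _ _ _ ho
  obtain ⟨-, -, hb'⟩ := hD.occ _ _ _ ho'
  rcases h with ⟨rfl, hc⟩ | ⟨rfl, hc⟩ <;> rcases h' with ⟨rfl, hc'⟩ | ⟨rfl, hc'⟩
  · rw [rk0, rk0] at hr ⊢
    omega
  · rcases hj with rfl | rfl | rfl <;> omega
  · rcases hj with rfl | rfl | rfl <;> omega
  · have r1 := rk12 (t := t) (i := i) (c := 1 + b) (by omega)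
    have r2 := rk12 (t := t) (i := i') (c := 1 + b') (by omega)
    by_cases hi : i = i'
    · subst hi
      obtain ⟨s₁, s₂, s₃, b₁, b₂, b₃, n12, n13, n23, hocc⟩ := hD.three q ⟨_, _, ho⟩
      have h1 := (hocc _ _).1 ho
      have h2 := (hocc _ _).1 ho'
      have : b = b' := by omega
      subst this
      omega
    · omega

/-- height of a track vertex -/
noncomputable def yp (D : Dt) (t : ℕ → Prop) (δ : ℕ → ℕ → ℕ) (i c j z : ℕ) : ℤ :=
  if j = 0 ∨ j = D.m then (D.y0 i c : ℤ) else if D.fl i c j then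
    (if z = 0 then (lev D δ (rk t i c) j : ℤ) - dnf D t i c
      else (lev D δ (rk t i c) j : ℤ) + upf D t i c)
  else (lev D δ (rk t i c) j : ℤ)

/-- the positions -/
noncomputable def pos (D : Dt) (t : ℕ → Prop) (δ : ℕ → ℕ → ℕ) : Vx → ℤ × ℤ
  | .c X Y => ((X : ℤ) - 3 * D.k, (Y : ℤ) - 2 * D.k)
  | .t i c j z => ((D.k : ℤ) * j, yp D t δ i c j z)

theorem yp_rng {i c j z : ℕ} (h0 : 0 < j) (h1 : j < D.m) :
    ((lev D δ (rk t i c) j : ℤ) - (if D.fl i c j then (dnf D t i c : ℤ) else 0) ≤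
      yp D t δ i c j z) ∧
    yp D t δ i c j z ≤ (lev D δ (rk t i c) j : ℤ) +
      (if D.fl i c j then (upf D t i c : ℤ) else 0) := by
  have hn : ¬ (j = 0 ∨ j = D.m) := by omega
  unfold yp
  rw [if_neg hn]
  split_ifs <;> constructor <;> omega

/-- different tracks -/
theorem yp_lt (hD : D.Ok) (h : Dg D t δ) {i c j z i' c' j' z' : ℕ} (hi' : i' < D.n)
    (h0 : 0 < j) (h1 : j < D.m) (h0' : 0 < j') (h1' : j' < D.m) (hj : nb j j')
    (hr : rk t i c < rk t i' c') : yp D t δ i c j z + D.K ≤ yp D t δ i' c' j' z' := by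
  have hj' : nb j' j := by rcases hj with rfl | rfl | rfl <;> simp [nb]
  have a := (yp_rng (D := D) (t := t) (δ := δ) (i := i) (c := c) (z := z) h0 h1).2
  have b := (yp_rng (D := D) (t := t) (δ := δ) (i := i') (c := c') (z := z') h0' h1').1
  have hr' := rk_lt (t := t) (c := c') hi'
  by_cases hf : D.fl i c j <;> by_cases hf' : D.fl i' c' j'
  · rw [if_pos hf] at a
    rw [if_pos hf'] at b
    have hfar := fl_far hD hf hf' hj hr
    have g := (gaps hD h hf (Or.inl rfl)).1 (rk t i' c' - 1) (by omega) (by omega)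
    have g' := (gaps hD h hf' hj').2.1 (rk t i' c' - 1) (by omega)
    omega
  · rw [if_pos hf] at a
    rw [if_neg hf'] at b
    have g := (gaps hD h hf hj).1 (rk t i' c') hr hr'
    omega
  · rw [if_neg hf] at a
    rw [if_pos hf'] at b
    have g' := (gaps hD h hf' hj').2.1 (rk t i c) hr
    omega
  · rw [if_neg hf] at a
    rw [if_neg hf'] at b
    have g := lev_mono h.toDl hr hr' hj
    have : 1 * D.K ≤ (rk t i' c' - rk t i c) * D.K := Nat.mul_le_mul_right _ (by omega)
    omega

theorem yp_bd (hD : D.Ok) (h : Dg D t δ) {i c j z : ℕ} (hi : i < D.n) (h0 : 0 < j)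
    (h1 : j < D.m) : (D.K : ℤ) ≤ yp D t δ i c j z ∧ yp D t δ i c j z + D.K ≤ D.H := by
  have ⟨a, b⟩ := yp_rng (D := D) (t := t) (δ := δ) (i := i) (c := c) (z := z) h0 h1
  have hr := rk_lt (t := t) (c := c) hi
  by_cases hf : D.fl i c j
  · rw [if_pos hf] at a b
    obtain ⟨g1, g2, g3, g4⟩ := gaps hD h hf (Or.inl rfl)
    have hr3 : rk t i c + 1 < 4 * D.n := by
      obtain ⟨q, b', ho, hc⟩ := hf
      obtain ⟨-, -, hb⟩ := hD.occ _ _ _ ho
      rcases hc with ⟨rfl, -⟩ | ⟨rfl, -⟩
      · rw [rk0]; omega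
      · have := rk12 (t := t) (i := i) (c := 1 + b') (by omega)
        omega
    have u := g1 (rk t i c + 1) (by omega) hr3
    have v := lev_le h.toDl (j := j) hr3
    omega
  · rw [if_neg hf] at a b
    have u := lev_ge (D := D) (δ := δ) (r := rk t i c) (j := j)
    have v := lev_le h.toDl (j := j) hr
    have : 1 * D.K ≤ (rk t i c + 1) * D.K := Nat.mul_le_mul_right _ (by omega)
    omega

end Pool.Agent.H68.Sq.Dt
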