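import Pool.Agent.H68.Sq.Comp

/-!
From a satisfying assignment to a representation by lattice squares: verification.
-/

namespace Pool.Agent.H68.Sq.Dt

attribute [local instance] Classical.propDecidable

variable {D : Dt} {δ : ℕ → ℕ → ℕ} {t : ℕ → Prop}

theorem mulK {a b : ℕ} (h : a < b) : a * D.K + D.K ≤ b * D.K := by
  have : a * D.K + D.K = (a + 1) * D.K := by ring
  rw [this]
  exact Nat.mul_le_mul_right _ h

/-- no doubled vertex near the ends -/
theorem not_fl (hD : D.Ok) {i c j : ℕ} (hj : j ≤ 1 ∨ D.m ≤ j + 1) : ¬ D.fl i c j := by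
  intro h
  have := fl_col hD h
  omega

theorem yp_end {i c j z : ℕ} (hj : j = 0 ∨ j = D.m) : yp D t δ i c j z = D.y0 i c := by
  unfold yp
  rw [if_pos hj]

theorem yp_next (hD : D.Ok) {i c j z : ℕ} (hj : j = 1 ∨ j + 1 = D.m) :
    yp D t δ i c j z = ((rk t i c + 1) * D.K : ℕ) := by
  have hm := m_ge hD
  have hn : ¬ (j = 0 ∨ j = D.m) := by omega
  have ht : D.tt j = 0 := by
    rcases hj with rfl | hj
    · exact tt_zero.2
    · have := (tt_last hD).2
      rwa [← hj] at this
  unfold yp
  rw [if_neg hn, if_neg (not_fl hD (by omega)), lev_zero ht]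

/-- end and next column -/
theorem end_next {i c i' c' : ℕ} (hk : 1 ≤ D.k) (hc : c < 4) (h2 : c ≠ 2) (hc' : c' < 4) :
    (D.y0 i c ≤ (rk t i' c' + 1) * D.K + D.k ∧ (rk t i' c' + 1) * D.K ≤ D.y0 i c + D.k) ↔
      (i = i' ∧ (c = c' ∨ (c = 1 ∧ c' = 2))) := by
  have hK : D.K = D.k + 1 := rfl
  have hc4 : c = 0 ∨ c = 1 ∨ c = 3 := by omega
  have hc4' : (c' = 0) ∨ (c' = 1 ∨ c' = 2) ∨ (c' = 3) := by omega
  constructor
  · rintro ⟨h1, h2⟩
    unfold y0 at h1 h2
    rcases hc4 with rfl | rfl | rfl
    · rw [if_neg (by omega)] at h1 h2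
      have : rk t i' c' = 4 * i := by
        rcases lt_trichotomy (rk t i' c') (4 * i) with h | h | h
        · have := mulK (D := D) (a := rk t i' c' + 1) (b := 4 * i + 0 + 1) (by omega)
          omega
        · exact h
        · have := mulK (D := D) (b := rk t i' c' + 1) (a := 4 * i + 0 + 1) (by omega)
          omega
      rw [← rk0 (t := t)] at this
      have := rk_inj hc' (by omega) this
      omega
    · rw [if_pos rfl] at h1 h2
      have h3 : rk t i' c' = 4 * i + 1 ∨ rk t i' c' = 4 * i + 2 := by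
        rcases Nat.lt_or_ge (rk t i' c') (4 * i + 1) with h | h
        · have := mulK (D := D) (a := rk t i' c' + 1) (b := 4 * i + 1 + 1) (by omega)
          omega
        · rcases Nat.lt_or_ge (4 * i + 2) (rk t i' c') with h' | h'
          · have e1 := mulK (D := D) (a := 4 * i + 1 + 1) (b := 4 * i + 3) (by omega)
            have e2 := mulK (D := D) (a := 4 * i + 3) (b := rk t i' c' + 1) (by omega)
            omega
          · omega
      rcases hc4' with rfl | h | rfl
      · rw [rk0] at h3
        omega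
      · have := rk12 (t := t) (i := i') h
        omega
      · rw [rk3] at h3
        omega
    · rw [if_neg (by omega)] at h1 h2
      have : rk t i' c' = 4 * i + 3 := by
        rcases lt_trichotomy (rk t i' c') (4 * i + 3) with h | h | h
        · have := mulK (D := D) (a := rk t i' c' + 1) (b := 4 * i + 3 + 1) (by omega)
          omega
        · exact h
        · have := mulK (D := D) (b := rk t i' c' + 1) (a := 4 * i + 3 + 1) (by omega)
          omega
      rw [← rk3 (t := t)] at this
      have := rk_inj hc' (by omega) this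
      omega
  · rintro ⟨rfl, h⟩
    unfold y0
    rcases hc4 with rfl | rfl | rfl
    · obtain rfl : c' = 0 := by omega
      rw [if_neg (by omega), rk0]
      have : (4 * i + 0 + 1) * D.K = (4 * i + 1) * D.K := rfl
      omega
    · rw [if_pos rfl]
      have h3 := rk12 (t := t) (i := i) (c := c') (by omega)
      have e1 : (4 * i + 2 + 1) * D.K = (4 * i + 1 + 1) * D.K + D.K := by ring
      rcases h3 with h3 | h3 <;> rw [h3] <;> omega
    · obtain rfl : c' = 3 := by omega
      rw [if_neg (by omega), rk3]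
      omega

theorem end_end {i c i' c' : ℕ} (hc : c < 4) (h2 : c ≠ 2) (hc' : c' < 4) (h2' : c' ≠ 2)
    (hne : ¬ (i = i' ∧ c = c')) :
    D.y0 i c + D.K ≤ D.y0 i' c' ∨ D.y0 i' c' + D.K ≤ D.y0 i c := by
  have hK : D.K = D.k + 1 := rfl
  have key : ∀ i c i' c', c < 4 → c ≠ 2 → c' < 4 → c' ≠ 2 → 4 * i + c < 4 * i' + c' →
      D.y0 i c + D.K ≤ D.y0 i' c' := by
    intro i c i' c' hc h2 hc' h2' hl
    unfold y0
    by_cases h1 : c = 1
    · rw [if_pos h1]
      have e1 := mulK (D := D) (a := 4 * i + c + 1) (b := 4 * i + c + 2) (by omega)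
      have e2 := mulK (D := D) (a := 4 * i + c + 2) (b := 4 * i' + c' + 1) (by omega)
      omega
    · rw [if_neg h1]
      have e1 := mulK (D := D) (a := 4 * i + c + 1) (b := 4 * i' + c' + 1) (by omega)
      omega
  rcases lt_trichotomy (4 * i + c) (4 * i' + c') with h | h | h
  · exact Or.inl (key _ _ _ _ hc h2 hc' h2' h)
  · omega
  · exact Or.inr (key _ _ _ _ hc' h2' hc h2 h)

/-- horizontal distances -/
theorem kj {j j' : ℕ} : ((D.k : ℤ) * j ≤ D.k * j' + D.k ∧ (D.k : ℤ) * j' ≤ D.k * j + D.k) ↔
    (D.k = 0 ∨ nb j j') := by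
  constructor
  · rintro ⟨h1, h2⟩
    by_contra hn
    push Not at hn
    obtain ⟨h0, hn⟩ := hn
    have hp : (0 : ℤ) < D.k := by positivity
    unfold nb at hn
    rcases Nat.lt_or_ge j j' with h | h
    · have : (D.k : ℤ) * ((j : ℤ) + 2) ≤ D.k * j' := mul_le_mul_of_nonneg_left (by omega) hp.le
      rw [mul_add] at this
      omega
    · have : (D.k : ℤ) * ((j' : ℤ) + 2) ≤ D.k * j := mul_le_mul_of_nonneg_left (by omega) hp.le
      rw [mul_add] at this
      omega
  · rintro (h | rfl | rfl | rfl)
    · rw [h]; simp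
    · constructor <;> omega
    · push_cast
      rw [mul_add, mul_one]
      constructor <;> omega
    · push_cast
      rw [mul_add, mul_one]
      constructor <;> omega

theorem not_aj_far {i c j z i' c' j' z' : ℕ} (h : ¬ nb j j' ∨ j = j') :
    ¬ D.Aj (.t i c j z) (.t i' c' j' z') := by
  intro ha
  have := aj_tt ha
  unfold nb at h
  omega

/-- an inner vertex is not near to the ring -/
theorem inner_cell (hD : D.Ok) (h : Dg D t δ) {i c j z X Y : ℕ} (hi : i < D.n) (h0 : 0 < j)
    (h1 : j < D.m) (hc : D.cR X Y) : ¬ Nr D.k (pos D t δ (.t i c j z)) (pos D t δ (.c X Y)) := by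
  have hK : D.K = D.k + 1 := rfl
  have hk := hD.k1
  obtain ⟨b1, b2⟩ := yp_bd (z := z) (c := c) hD h hi h0 h1
  have e1 : (D.k : ℤ) * 1 ≤ D.k * j := mul_le_mul_of_nonneg_left (by omega) (by omega)
  have e2 : (D.k : ℤ) * (j + 1) ≤ D.k * D.m := mul_le_mul_of_nonneg_left (by omega) (by omega)
  have hwd : (D.wd : ℤ) = D.k * D.m := by unfold wd; push_cast; ring
  rw [mul_add] at e2
  simp only [Nr, pos, cR] at hc ⊢
  omega

/-- an end of a track and the ring -/
theorem end_cell (hD : D.Ok) {i c j X Y : ℕ} (hi : i < D.n) (hc : c < 4) (h2 : c ≠ 2)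
    (hj : j = 0 ∨ j = D.m) (hR : D.cR X Y) :
    D.Aj (.t i c j 0) (.c X Y) ↔ Nr D.k (pos D t δ (.t i c j 0)) (pos D t δ (.c X Y)) := by
  have hK : D.K = D.k + 1 := rfl
  have hk := hD.k1
  have hm := m_ge hD
  have hy := y0_le hi hc h2 hk
  have hwd : (D.wd : ℤ) = D.k * D.m := by unfold wd; push_cast; ring
  have hwd' : D.k * 6 ≤ D.wd := Nat.mul_le_mul_left _ hm
  constructor
  · rintro (ha | ha)
    · generalize hj0 : j = j' at ha
      cases ha with
      | left i c d =>
        subst hj0
        simp only [Nr, pos, yp_end hj]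
        push_cast
        omega
      | right i c d =>
        subst hj0
        simp only [Nr, pos, yp_end (Or.inr rfl)]
        push_cast
        omega
    · cases ha
  · intro hn
    simp only [Nr, pos, yp_end hj] at hn
    rcases hj with rfl | rfl
    · simp only [cR] at hR
      have hX : X = 2 * D.k := by push_cast at hn; omega
      obtain ⟨d, hd⟩ : ∃ d, Y = D.y0 i c + D.k + d := ⟨Y - (D.y0 i c + D.k), by omega⟩
      rw [hX, hd]
      exact Or.inl (.left i c d hi hc h2 (by omega))
    · simp only [cR] at hR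
      have hX : X = D.wd + 4 * D.k := by omega
      obtain ⟨d, hd⟩ : ∃ d, Y = D.y0 i c + D.k + d := ⟨Y - (D.y0 i c + D.k), by omega⟩
      rw [hX, hd]
      exact Or.inl (.right i c d hi hc h2 (by omega))

/-- track vertices in consecutive inner columns -/
theorem inner_next (hD : D.Ok) (h : Dg D t δ) {i c j z i' c' z' : ℕ} (h0 : 0 < j)
    (h1 : j + 1 < D.m) (hu : D.rl (.t i c j z)) (hv : D.rl (.t i' c' (j + 1) z')) :
    D.Aj (.t i c j z) (.t i' c' (j + 1) z') ↔
      Nr D.k (pos D t δ (.t i c j z)) (pos D t δ (.t i' c' (j + 1) z')) := by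
  have hK : D.K = D.k + 1 := rfl
  have hk := hD.k1
  obtain ⟨hi, hc, hj, hz⟩ := hu
  obtain ⟨hi', hc', hj', hz'⟩ := hv
  have hnb : nb j (j + 1) := Or.inr (Or.inl rfl)
  have hnb' : nb (j + 1) j := Or.inr (Or.inr rfl)
  have hx := (kj (D := D) (j := j) (j' := j + 1)).2 (Or.inr hnb)
  by_cases he : i = i' ∧ c = c'
  · obtain ⟨rfl, rfl⟩ := he
    have ha : D.Aj (.t i c j z) (.t i c (j + 1) z') := by
      rcases hz with ⟨rfl, hz⟩ | ⟨rfl, hf⟩
      · rcases hz' with ⟨rfl, hz'⟩ | ⟨rfl, hf'⟩
        · by_cases h2 : c = 2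
          · subst h2
            obtain ⟨j₀, rfl⟩ : ∃ j₀, j = j₀ + 1 := ⟨j - 1, by omega⟩
            exact Or.inl (.step2 i j₀ hi (by omega))
          · exact Or.inl (.step i c j hi hc h2 (by omega))
        · exact Or.inl (.cpL i c j hf')
      · rcases hz' with ⟨rfl, hz'⟩ | ⟨rfl, hf'⟩
        · exact Or.inl (.cpR i c j hf)
        · exfalso
          obtain ⟨q, b, ho, hc1⟩ := hf
          obtain ⟨q', b', ho', hc2⟩ := hf'
          have hM : 2 ≤ D.M := by unfold M; omega
          have hW : D.W = 2 * D.M + 1 := rfl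
          rcases lt_trichotomy q q' with hl | rfl | hl
          · have := Nat.mul_le_mul_right D.W hl
            rw [Nat.succ_mul] at this
            omega
          · omega
          · have := Nat.mul_le_mul_right D.W hl
            rw [Nat.succ_mul] at this
            omega
    refine iff_of_true ha ?_
    have r1 := yp_rng (D := D) (t := t) (δ := δ) (i := i) (c := c) (z := z) h0 (by omega)
    have r2 := yp_rng (D := D) (t := t) (δ := δ) (i := i) (c := c) (z := z') (j := j + 1)
      (by omega) h1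
    have d1 : dnf D t i c ≤ D.k := by unfold dnf; split_ifs <;> omega
    have d2 : upf D t i c ≤ D.k := by unfold upf; split_ifs <;> omega
    simp only [Nr, pos]
    by_cases hf : D.fl i c j
    · have g := (gaps hD h hf hnb).2.2.2
      have hf' : ¬ D.fl i c (j + 1) := by
        intro hf'
        obtain ⟨q, b, ho, hc1⟩ := hf
        obtain ⟨q', b', ho', hc2⟩ := hf'
        have hM : 2 ≤ D.M := by unfold M; omega
        have hW : D.W = 2 * D.M + 1 := rfl
        rcases lt_trichotomy q q' with hl | rfl | hl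
        · have := Nat.mul_le_mul_right D.W hl
          rw [Nat.succ_mul] at this
          omega
        · omega
        · have := Nat.mul_le_mul_right D.W hl
          rw [Nat.succ_mul] at this
          omega
      rw [if_pos hf, if_pos hf] at r1
      rw [if_neg hf', if_neg hf'] at r2
      push_cast at hx ⊢
      omega
    · rw [if_neg hf, if_neg hf] at r1
      by_cases hf' : D.fl i c (j + 1)
      · have g := (gaps hD h hf' hnb').2.2.2
        rw [if_pos hf', if_pos hf'] at r2
        push_cast at hx ⊢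
        omega
      · rw [if_neg hf', if_neg hf'] at r2
        have s1 := lev_step (D := D) (δ := δ) (r := rk t i c) hnb
        have s2 := lev_step (D := D) (δ := δ) (r := rk t i c) hnb'
        push_cast at hx ⊢
        omega
  · refine iff_of_false ?_ ?_
    · intro ha
      have := aj_tt ha
      omega
    · have hr : rk t i c ≠ rk t i' c' := by
        intro hr
        exact he (rk_inj hc hc' hr)
      simp only [Nr, pos]
      rcases lt_or_gt_of_ne hr with hl | hl
      · have := yp_lt (z := z) (z' := z') hD h hi' h0 (by omega) (by omega) h1 hnb hl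
        omega
      · have := yp_lt (z := z') (z' := z) hD h hi (by omega) h1 h0 (by omega) hnb' hl
        omega

/-- track vertices in the same inner column -/
theorem inner_same (hD : D.Ok) (h : Dg D t δ) {i c j z i' c' z' : ℕ} (h0 : 0 < j)
    (h1 : j < D.m) (hu : D.rl (.t i c j z)) (hv : D.rl (.t i' c' j z'))
    (hne : ¬ (i = i' ∧ c = c' ∧ z = z')) :
    ¬ Nr D.k (pos D t δ (.t i c j z)) (pos D t δ (.t i' c' j z')) := by
  have hK : D.K = D.k + 1 := rfl
  obtain ⟨hi, hc, hj, hz⟩ := hu
  obtain ⟨hi', hc', hj', hz'⟩ := hv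
  have hnb : nb j j := Or.inl rfl
  by_cases he : i = i' ∧ c = c'
  · obtain ⟨rfl, rfl⟩ := he
    have hne' : z ≠ z' := by tauto
    have hf : D.fl i c j := by
      rcases hz with ⟨rfl, -⟩ | ⟨-, hf⟩
      · rcases hz' with ⟨rfl, -⟩ | ⟨-, hf⟩
        · exact absurd rfl hne'
        · exact hf
      · exact hf
    have du : dnf D t i c + upf D t i c = D.k + 1 := by
      unfold dnf upf
      split_ifs <;> omega
    have hn : ¬ (j = 0 ∨ j = D.m) := by omega
    simp only [Nr, pos, yp, if_neg hn, if_pos hf]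
    have hz2 : z = 0 ∧ z' = 1 ∨ z = 1 ∧ z' = 0 := by omega
    rcases hz2 with ⟨rfl, rfl⟩ | ⟨rfl, rfl⟩
    · rw [if_pos rfl, if_neg (by omega)]
      omega
    · rw [if_pos rfl, if_neg (by omega)]
      omega
  · have hr : rk t i c ≠ rk t i' c' := fun hr => he (rk_inj hc hc' hr)
    simp only [Nr, pos]
    rcases lt_or_gt_of_ne hr with hl | hl
    · have := yp_lt (z := z) (z' := z') hD h hi' h0 h1 h0 h1 hnb hl
      omega
    · have := yp_lt (z := z') (z' := z) hD h hi h0 h1 h0 h1 hnb hl
      omega

/-- an end of a track and the next column -/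
theorem end_nextv (hD : D.Ok) {i c j i' c' j' z' : ℕ} (hj : (j = 0 ∧ j' = 1) ∨
    (j = D.m ∧ j' + 1 = D.m)) (hu : D.rl (.t i c j 0)) (hv : D.rl (.t i' c' j' z')) :
    D.Aj (.t i c j 0) (.t i' c' j' z') ↔
      Nr D.k (pos D t δ (.t i c j 0)) (pos D t δ (.t i' c' j' z')) := by
  have hk := hD.k1
  have hm := m_ge hD
  obtain ⟨hi, hc, hj1, hz⟩ := hu
  obtain ⟨hi', hc', hj2, hz'⟩ := hv
  have h2 : c ≠ 2 := by omega
  have hz0 : z' = 0 := by
    rcases hz' with ⟨h, -⟩ | ⟨-, hf⟩
    · exact h
    · exact absurd hf (not_fl hD (by omega))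
  subst hz0
  have hnb : nb j j' := by unfold nb; omega
  have hx := (kj (D := D) (j := j) (j' := j')).2 (Or.inr hnb)
  have e := end_next (D := D) (t := t) (i := i) (c := c) (i' := i') (c' := c') hk hc h2 hc'
  have step1 : D.Aj (.t i c j 0) (.t i' c' j' 0) ↔ (i = i' ∧ (c = c' ∨ (c = 1 ∧ c' = 2))) := by
    constructor
    · intro ha
      have := aj_tt ha
      omega
    · rintro ⟨rfl, h⟩
      rcases h with rfl | ⟨rfl, rfl⟩
      · rcases hj with ⟨rfl, rfl⟩ | ⟨rfl, hj⟩
        · exact Or.inl (.step i c 0 hi hc h2 (by omega))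
        · have := Ed.step (D := D) i c j' hi hc h2 (by omega)
          rw [hj] at this
          exact Or.inr this
      · rcases hj with ⟨rfl, rfl⟩ | ⟨rfl, hj⟩
        · exact Or.inl (.hubL i hi)
        · have := Ed.hubR (D := D) i hi
          have e2 : D.m - 1 = j' := by omega
          rw [e2] at this
          exact Or.inr this
  rw [step1, ← e]
  simp only [Nr, pos, yp_end (show j = 0 ∨ j = D.m by omega),
    yp_next hD (show j' = 1 ∨ j' + 1 = D.m by omega)]
  omega

/-- two ends in the same column -/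
theorem end_same (hD : D.Ok) {i c j z i' c' z' : ℕ} (hj : j = 0 ∨ j = D.m)
    (hu : D.rl (.t i c j z)) (hv : D.rl (.t i' c' j z')) (hne : ¬ (i = i' ∧ c = c' ∧ z = z')) :
    ¬ Nr D.k (pos D t δ (.t i c j z)) (pos D t δ (.t i' c' j z')) := by
  have hK : D.K = D.k + 1 := rfl
  obtain ⟨hi, hc, hj1, hz⟩ := hu
  obtain ⟨hi', hc', hj2, hz'⟩ := hv
  have hz0 : z = 0 ∧ c ≠ 2 := by
    rcases hz with ⟨h, h'⟩ | ⟨-, hf⟩
    · refine ⟨h, fun h2 => ?_⟩
      have := h' h2
      omega
    · exact absurd hf (not_fl hD (by omega))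
  have hz0' : z' = 0 ∧ c' ≠ 2 := by
    rcases hz' with ⟨h, h'⟩ | ⟨-, hf⟩
    · refine ⟨h, fun h2 => ?_⟩
      have := h' h2
      omega
    · exact absurd hf (not_fl hD (by omega))
  have := end_end (D := D) (i := i) (i' := i') hc hz0.2 hc' hz0'.2 (by omega)
  simp only [Nr, pos, yp_end hj]
  omega

theorem nr_symm' {u v : Vx} : Nr D.k (pos D t δ u) (pos D t δ v) ↔
    Nr D.k (pos D t δ v) (pos D t δ u) := nr_comm

theorem aj_comm {u v : Vx} : D.Aj u v ↔ D.Aj v u := ⟨Aj.symm, Aj.symm⟩

/-- the positions are a representation -/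
theorem comp (hD : D.Ok) (h : Dg D t δ) : D.Rp (pos D t δ) := by
  have hm := m_ge hD
  have hk := hD.k1
  -- cells and track vertices
  have hct : ∀ i c j z X Y, D.rl (.t i c j z) → D.rl (.c X Y) →
      (D.Aj (.t i c j z) (.c X Y) ↔
        Nr D.k (pos D t δ (.t i c j z)) (pos D t δ (.c X Y))) := by
    intro i c j z X Y hu hv
    by_cases hj : j = 0 ∨ j = D.m
    · obtain ⟨hi, hc, hj1, hz⟩ := hu
      have hz0 : z = 0 ∧ c ≠ 2 := by
        rcases hz with ⟨h, h'⟩ | ⟨-, hf⟩
        · refine ⟨h, fun h2 => ?_⟩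
          have := h' h2
          omega
        · exact absurd hf (not_fl hD (by omega))
      obtain ⟨rfl, h2⟩ := hz0
      exact end_cell hD hi hc h2 hj hv
    · refine iff_of_false ?_ (inner_cell hD h hu.1 (by omega) (by have := hu.2.2.1; omega) hv)
      intro ha
      have := aj_tc ha
      omega
  -- track vertices in increasing columns
  have htt : ∀ i c j z i' c' j' z', j ≤ j' → D.rl (.t i c j z) → D.rl (.t i' c' j' z') →
      (Vx.t i c j z) ≠ .t i' c' j' z' → (D.Aj (.t i c j z) (.t i' c' j' z') ↔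
        Nr D.k (pos D t δ (.t i c j z)) (pos D t δ (.t i' c' j' z'))) := by
    intro i c j z i' c' j' z' hjj hu hv hne
    rcases Nat.lt_or_ge j j' with hl | hl
    · by_cases h1 : j' = j + 1
      · subst h1
        by_cases h0 : j = 0
        · subst h0
          have hz : z = 0 := by
            rcases hu.2.2.2 with ⟨h, -⟩ | ⟨-, hf⟩
            · exact h
            · exact absurd hf (not_fl hD (by omega))
          subst hz
          exact end_nextv hD (Or.inl ⟨rfl, rfl⟩) hu hv
        · by_cases h2 : j + 1 = D.m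
          · rw [h2] at hv ⊢
            have hz : z' = 0 := by
              rcases hv.2.2.2 with ⟨h, -⟩ | ⟨-, hf⟩
              · exact h
              · exact absurd hf (not_fl hD (by omega))
            subst hz
            rw [aj_comm, nr_symm']
            exact end_nextv hD (Or.inr ⟨rfl, h2⟩) hv hu
          · exact inner_next hD h (by omega) (by have := hv.2.2.1; omega) hu hv
      · have hn : ¬ nb j j' := by unfold nb; omega
        refine iff_of_false (not_aj_far (Or.inl hn)) ?_
        intro hnr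
        have := (kj (D := D) (j := j) (j' := j')).1 (by
          simp only [Nr, pos] at hnr
          omega)
        rcases this with h | h
        · omega
        · exact hn h
    · have : j = j' := by omega
      subst this
      refine iff_of_false (not_aj_far (Or.inr rfl)) ?_
      have hne' : ¬ (i = i' ∧ c = c' ∧ z = z') := by
        rintro ⟨rfl, rfl, rfl⟩
        exact hne rfl
      by_cases h0 : j = 0 ∨ j = D.m
      · exact end_same hD h0 hu hv hne'
      · exact inner_same hD h (by omega) (by have := hv.2.2.1; omega) hu hv hne'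
  intro u v hu hv hne
  cases u with
  | c X Y =>
    cases v with
    | c X' Y' =>
      rw [aj_cc hu hv (by rintro ⟨rfl, rfl⟩; exact hne rfl)]
      simp only [Nr, pos]
      omega
    | t i c j z =>
      rw [aj_comm, nr_symm']
      exact hct _ _ _ _ _ _ hv hu
  | t i c j z =>
    cases v with
    | c X Y => exact hct _ _ _ _ _ _ hu hv
    | t i' c' j' z' =>
      rcases Nat.le_total j j' with hl | hl
      · exact htt _ _ _ _ _ _ _ _ hl hu hv hne
      · rw [aj_comm, nr_symm']
        exact htt _ _ _ _ _ _ _ _ hl hv hu hne.symm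

/-- a satisfying assignment gives a representation -/
theorem complete (hD : D.Ok) (t : ℕ → Prop)
    (ht : ∀ q, (∃ s b, D.occ q s b) → ∃ s b, D.occ q s b ∧ tr t s b) : ∃ P, D.Rp P := by
  obtain ⟨δ, h⟩ := exists_dg hD t ht
  exact ⟨_, comp hD h⟩

end Pool.Agent.H68.Sq.Dt
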