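import Mathlib

/-!
Bounded coordinates.
-/

namespace Pool.Agent.H68.Sq

/-- integer coordinates may be replaced by small natural numbers without changing which pairs are
at distance at most `k` -/
theorem compress {n : ℕ} (k : ℕ) (f : Fin n → ℤ) : ∃ g : Fin n → ℕ,
    (∀ u, g u ≤ n * (k + 1)) ∧
    ∀ u v, ((f u ≤ f v + k ∧ f v ≤ f u + k) ↔ (g u ≤ g v + k ∧ g v ≤ g u + k)) := by
  classical
  let U : Finset ℤ := Finset.univ.biUnion (fun v : Fin n => Finset.Ico (f v) (f v + (k + 1)))
  let g : Fin n → ℕ := fun u => (U.filter (fun t => t < f u)).card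
  have hU : U.card ≤ n * (k + 1) := by
    refine le_trans Finset.card_biUnion_le ?_
    have : ∀ v ∈ (Finset.univ : Finset (Fin n)), (Finset.Ico (f v) (f v + (k + 1))).card =
        k + 1 := by
      intro v _
      rw [Int.card_Ico]
      omega
    rw [Finset.sum_congr rfl this]
    simp
  have key : ∀ u v, f u ≤ f v → (f v ≤ f u + k → g v + (f u - f v) = (g u : ℤ)) ∧
      (f u + k < f v → (g u : ℤ) + k + 1 ≤ g v) := by
    intro u v huv
    have hsplit : g v = g u + (U.filter (fun t => f u ≤ t ∧ t < f v)).card := by
      change (U.filter (fun t => t < f v)).card = (U.filter (fun t => t < f u)).card + _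
      rw [← Finset.card_union_of_disjoint]
      · congr 1
        ext t
        simp only [Finset.mem_filter, Finset.mem_union]
        constructor
        · rintro ⟨h1, h2⟩
          by_cases h : t < f u
          · exact Or.inl ⟨h1, h⟩
          · exact Or.inr ⟨h1, by omega, h2⟩
        · rintro (⟨h1, h2⟩ | ⟨h1, h2, h3⟩)
          · exact ⟨h1, by omega⟩
          · exact ⟨h1, h3⟩
      · rw [Finset.disjoint_left]
        intro t h1 h2
        have := (Finset.mem_filter.1 h1).2
        have := (Finset.mem_filter.1 h2).2
        omega
    have hmem : ∀ t, f u ≤ t → t < f u + (k + 1) → t ∈ U := by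
      intro t h1 h2
      exact Finset.mem_biUnion.2 ⟨u, Finset.mem_univ _, Finset.mem_Ico.2 ⟨h1, h2⟩⟩
    constructor
    · intro hle
      have : U.filter (fun t => f u ≤ t ∧ t < f v) = Finset.Ico (f u) (f v) := by
        ext t
        rw [Finset.mem_filter, Finset.mem_Ico]
        constructor
        · exact fun h => h.2
        · exact fun h => ⟨hmem t h.1 (by omega), h⟩
      rw [this, Int.card_Ico] at hsplit
      omega
    · intro hlt
      have : Finset.Ico (f u) (f u + (k + 1)) ⊆ U.filter (fun t => f u ≤ t ∧ t < f v) := by
        intro t ht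
        rw [Finset.mem_Ico] at ht
        rw [Finset.mem_filter]
        exact ⟨hmem t ht.1 ht.2, ht.1, by omega⟩
      have := Finset.card_le_card this
      rw [Int.card_Ico] at this
      omega
  refine ⟨g, fun u => le_trans (Finset.card_le_card (Finset.filter_subset _ _)) hU, ?_⟩
  intro u v
  rcases le_total (f u) (f v) with h | h
  · have := key u v h
    omega
  · have := key v u h
    omega

end Pool.Agent.H68.Sq
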