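import Pool.Agent.H68.Sq.Order

/-!
From a representation by lattice squares to a satisfying assignment: the height budget.
-/

namespace Pool.Agent.H68.Sq.Dt

variable {D : Dt} {P : Vx → ℤ × ℤ}

/-- top of the slots below slot `i` in column `j` -/
def bs (D : Dt) (P : Vx → ℤ × ℤ) (j : ℕ) : ℕ → ℤ
  | 0 => 0
  | i + 1 => yv D P i 3 j

theorem Nm.base_S (h : Nm D P) {i j : ℕ} (hi : i < D.n) (h0 : 0 < j) (hj : j < D.m) :
    bs D P j i + D.K ≤ yv D P i 0 j := by
  cases i with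
  | zero =>
    have := (h.bound hi (by omega : 0 < 4) j hj.le).1
    simp only [bs, yv]
    omega
  | succ i => exact h.bw_D hi j h0 hj

/-- a slot needs four levels -/
theorem Nm.slot (h : Nm D P) {i j : ℕ} (hi : i < D.n) (h0 : 0 < j) (hj : j < D.m) :
    bs D P j i + 4 * D.K ≤ bs D P j (i + 1) := by
  have h1 := h.base_S hi h0 hj
  have h2 := h.bw_S hi (Or.inl rfl) j h0 hj
  have h3 := h.bw_S hi (Or.inr rfl) j h0 hj
  have h4 := h.bw_T hi (Or.inl rfl) j h0 hj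
  have h5 := h.bw_T hi (Or.inr rfl) j h0 hj
  have h6 := h.sepc hi (by omega : 1 < 4) hi (by omega : 2 < 4) h0 hj (by omega)
  simp only [bs, Sep] at *
  omega

theorem Nm.base_c (h : Nm D P) {i j z : ℕ} (hf : D.fl i 0 j) (hz : z < 2) :
    bs D P (j + 1) i + D.K ≤ yc P i 0 j z := by
  obtain ⟨h1, h2, h3, h4⟩ := fl_col h.ok hf
  cases i with
  | zero =>
    have := h.floor hf hz
    simp only [bs]
    omega
  | succ i => exact h.dn hf hz (by omega) (by omega) (Or.inl rfl) (h.bw_D h1) (by omega)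

/-- a slot whose literal is false needs six levels -/
theorem Nm.slot_fl (h : Nm D P) {i j c c' : ℕ} (hf : D.fl i 0 j) (hf' : D.fl i c (j + 2))
    (hc : c = 1 ∧ c' = 2 ∨ c = 2 ∧ c' = 1) (hb : Bw D P i c' i c) :
    bs D P (j + 1) i + 6 * D.K ≤ bs D P (j + 1) (i + 1) := by
  obtain ⟨hi, -, h3, h4⟩ := fl_col h.ok hf
  have a0 := h.base_c hf (z := 0) (by omega)
  have a1 := h.base_c hf (z := 1) (by omega)
  have s := h.sep01 hf
  have hcc : c < 4 ∧ c' < 4 := by omega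
  have b0 := h.up (i' := i) (c' := c') (j' := j + 1) hf (z := 0) (by omega) hi hcc.2 (Or.inl rfl)
    (h.bw_S hi (by omega)) (by omega)
  have b1 := h.up (i' := i) (c' := c') (j' := j + 1) hf (z := 1) (by omega) hi hcc.2 (Or.inl rfl)
    (h.bw_S hi (by omega)) (by omega)
  have d0 := h.dn (i' := i) (c' := c') (j' := j + 1) hf' (z := 0) (by omega) hi hcc.2
    (Or.inr rfl) hb (by omega)
  have d1 := h.dn (i' := i) (c' := c') (j' := j + 1) hf' (z := 1) (by omega) hi hcc.2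
    (Or.inr rfl) hb (by omega)
  have t := h.sep01 hf'
  have e0 := h.up (i' := i) (c' := 3) (j' := j + 1) hf' (z := 0) (by omega) hi (by omega)
    (Or.inr rfl) (h.bw_T hi (by omega)) (by omega)
  have e1 := h.up (i' := i) (c' := 3) (j' := j + 1) hf' (z := 1) (by omega) hi (by omega)
    (Or.inr rfl) (h.bw_T hi (by omega)) (by omega)
  simp only [bs, Sep] at *
  omega

/-- a representation gives a satisfying assignment -/
theorem sound (hD : D.Ok) (hP : D.Rp P) : ∃ t : ℕ → Prop, ∀ q, (∃ s b, D.occ q s b) →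
    ∃ s b, D.occ q s b ∧ ((b = 0 ∧ t s) ∨ (b = 1 ∧ ¬ t s)) := by
  obtain ⟨P', hP', hcell⟩ := norm hD hP
  have h : Nm D P' := ⟨hD, hP', hcell⟩

  refine ⟨fun s => yv D P' s 1 1 < yv D P' s 2 1, fun q hq => ?_⟩
  by_contra hno
  push Not at hno
  obtain ⟨s₁, s₂, s₃, b₁, b₂, b₃, n12, n13, n23, hocc⟩ := hD.three q hq
  have hK : D.K = D.k + 1 := rfl
  have hk := hD.k1
  have hm6 := m_ge hD
  -- flagged slots
  have key : ∀ s b, D.occ q s b → bs D P' (q * D.W + D.M + 1) s + 6 * D.K ≤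
      bs D P' (q * D.W + D.M + 1) (s + 1) := by
    intro s b ho
    obtain ⟨hqQ, hs, hb⟩ := hD.occ _ _ _ ho
    have f1 : D.fl s 0 (q * D.W + D.M) := ⟨q, b, ho, Or.inl ⟨rfl, rfl⟩⟩
    have f2 : D.fl s (1 + b) (q * D.W + D.M + 2) := ⟨q, b, ho, Or.inr ⟨rfl, rfl⟩⟩
    have hn := hno s b ho
    have hs12 := h.sepc hs (by omega : 1 < 4) hs (by omega : 2 < 4) (j := 1) (by omega)
      (by omega) (by omega)
    rcases Nat.lt_or_ge b 1 with hb' | hb'
    · obtain rfl : b = 0 := by omega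
      have hn1 := hn.1 rfl
      rw [Nat.add_zero] at f2
      refine h.slot_fl f1 f2 (Or.inl ⟨rfl, rfl⟩) (h.bw1 hs (by omega) hs (by omega) (by omega) ?_)
      unfold Sep at hs12
      omega
    · obtain rfl : b = 1 := by omega
      have hn1 := hn.2 rfl
      rw [show 1 + 1 = 2 from rfl] at f2
      refine h.slot_fl f1 f2 (Or.inr ⟨rfl, rfl⟩) (h.bw1 hs (by omega) hs (by omega) (by omega) ?_)
      unfold Sep at hs12
      omega
  have k1 := key s₁ b₁ ((hocc _ _).2 (Or.inl ⟨rfl, rfl⟩))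
  have k2 := key s₂ b₂ ((hocc _ _).2 (Or.inr (Or.inl ⟨rfl, rfl⟩)))
  have k3 := key s₃ b₃ ((hocc _ _).2 (Or.inr (Or.inr ⟨rfl, rfl⟩)))
  obtain ⟨-, hs1, -⟩ := hD.occ _ _ _ ((hocc _ _).2 (Or.inl ⟨rfl, rfl⟩))
  obtain ⟨-, hs2, -⟩ := hD.occ _ _ _ ((hocc _ _).2 (Or.inr (Or.inl ⟨rfl, rfl⟩)))
  obtain ⟨-, hs3, -⟩ := hD.occ _ _ _ ((hocc _ _).2 (Or.inr (Or.inr ⟨rfl, rfl⟩)))
  have f1 : D.fl s₁ 0 (q * D.W + D.M) := ⟨q, b₁, (hocc _ _).2 (Or.inl ⟨rfl, rfl⟩),
    Or.inl ⟨rfl, rfl⟩⟩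
  obtain ⟨-, -, c1, c2⟩ := fl_col hD f1
  have sum : ∀ i ≤ D.n, 4 * (D.K : ℤ) * i + (if s₁ < i then 2 * (D.K : ℤ) else 0) +
      (if s₂ < i then 2 * (D.K : ℤ) else 0) + (if s₃ < i then 2 * (D.K : ℤ) else 0) ≤
      bs D P' (q * D.W + D.M + 1) i := by
    intro i
    induction i with
    | zero => intro _; simp [bs]
    | succ i ih =>
      intro hi
      have hi' := ih (by omega)
      have hg := h.slot (i := i) (j := q * D.W + D.M + 1) (by omega) (by omega) (by omega)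
      have e : 4 * (D.K : ℤ) * ((i + 1 : ℕ) : ℤ) = 4 * D.K * i + 4 * D.K := by push_cast; ring
      rw [e]
      generalize 4 * (D.K : ℤ) * i = A at *
      by_cases g1 : i = s₁
      · subst g1
        split_ifs at hi' ⊢ <;> omega
      · by_cases g2 : i = s₂
        · subst g2
          split_ifs at hi' ⊢ <;> omega
        · by_cases g3 : i = s₃
          · subst g3
            split_ifs at hi' ⊢ <;> omega
          · split_ifs at hi' ⊢ <;> omega
  have fin := sum D.n le_rfl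
  rw [if_pos hs1, if_pos hs2, if_pos hs3] at fin
  have top : bs D P' (q * D.W + D.M + 1) D.n + D.K ≤ D.H := by
    obtain ⟨i, hi⟩ : ∃ i, D.n = i + 1 := ⟨D.n - 1, by omega⟩
    rw [hi]
    exact (h.bound (i := i) (by omega) (by omega : 3 < 4) _ (by omega)).2
  have hH := H_eq D
  have hE : (D.E : ℤ) = 5 * D.K + 1 := by unfold E; push_cast; ring
  rw [hH, hE] at top
  have : (4 * (D.n : ℤ) + 1) * D.K = 4 * D.K * D.n + D.K := by ring
  rw [this] at top
  generalize 4 * (D.K : ℤ) * D.n = A at *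
  omega

end Pool.Agent.H68.Sq.Dt
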