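import Pool.Agent.H68.Sq.Ring

/-!
The graph of the reduction: a rectangular ring of lattice points with horizontal tracks stretched
between its left and right walls.
-/

namespace Pool.Agent.H68.Sq

/-- data of the reduction: `n` slots, `Q` regions, `occ q s b`: region `q` has a literal of
slot `s` and branch `b` -/
structure Dt where
  k : ℕ
  n : ℕ
  Q : ℕ
  occ : ℕ → ℕ → ℕ → Prop

namespace Dt

variable (D : Dt)

/-- distance of separated levels -/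
def K : ℕ := D.k + 1
/-- additional height -/
def E : ℕ := 5 * D.K + 1
/-- half of the width of a region -/
def M : ℕ := 4 * D.n * D.E + 2
/-- width of a region -/
def W : ℕ := 2 * D.M + 1
/-- last column -/
def m : ℕ := D.Q * D.W + 1
/-- height of the interior -/
def H : ℕ := (4 * D.n + 1) * D.K + D.E
/-- width of the interior -/
def wd : ℕ := D.k * D.m

/-- vertices: cells of the ring, vertices of the tracks (slot, type, column, copy) -/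
inductive Vx : Type
  | c (X Y : ℕ) : Vx
  | t (i c j z : ℕ) : Vx

/-- cells of the ring -/
def cR (X Y : ℕ) : Prop :=
  X ≤ D.wd + 6 * D.k ∧ Y ≤ D.H + 4 * D.k ∧
    (X ≤ 2 * D.k ∨ D.wd + 4 * D.k ≤ X ∨ Y ≤ 2 * D.k ∨ D.H + 2 * D.k ≤ Y)

/-- doubled vertices -/
def fl (i c j : ℕ) : Prop :=
  ∃ q b, D.occ q i b ∧ ((c = 0 ∧ j = q * D.W + D.M) ∨ (c = 1 + b ∧ j = q * D.W + D.M + 2))

/-- height of the end of a track -/
def y0 (i c : ℕ) : ℕ := (4 * i + c + 1) * D.K + if c = 1 then 1 else 0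

/-- vertices of the graph -/
def rl : Vx → Prop
  | .c X Y => D.cR X Y
  | .t i c j z => i < D.n ∧ c < 4 ∧ j ≤ D.m ∧
      ((z = 0 ∧ (c = 2 → 0 < j ∧ j < D.m)) ∨ (z = 1 ∧ D.fl i c j))

/-- edges -/
inductive Ed : Vx → Vx → Prop
  | diag (X Y x y : ℕ) (hx : x ≤ D.k) (hy : y ≤ D.k) (h0 : x + y ≠ 0) (h1 : D.cR X Y)
      (h2 : D.cR (X + x) (Y + y)) : Ed (.c X Y) (.c (X + x) (Y + y))
  | anti (X Y x y : ℕ) (hx : x ≤ D.k) (hy : y ≤ D.k) (h0 : x + y ≠ 0) (h1 : D.cR (X + x) Y)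
      (h2 : D.cR X (Y + y)) : Ed (.c (X + x) Y) (.c X (Y + y))
  | left (i c d : ℕ) (hi : i < D.n) (hc : c < 4) (h2 : c ≠ 2) (hd : d ≤ 2 * D.k) :
      Ed (.t i c 0 0) (.c (2 * D.k) (D.y0 i c + D.k + d))
  | right (i c d : ℕ) (hi : i < D.n) (hc : c < 4) (h2 : c ≠ 2) (hd : d ≤ 2 * D.k) :
      Ed (.t i c D.m 0) (.c (D.wd + 4 * D.k) (D.y0 i c + D.k + d))
  | step (i c j : ℕ) (hi : i < D.n) (hc : c < 4) (h2 : c ≠ 2) (hj : j < D.m) :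
      Ed (.t i c j 0) (.t i c (j + 1) 0)
  | step2 (i j : ℕ) (hi : i < D.n) (hj : j + 2 < D.m) :
      Ed (.t i 2 (j + 1) 0) (.t i 2 (j + 2) 0)
  | hubL (i : ℕ) (hi : i < D.n) : Ed (.t i 1 0 0) (.t i 2 1 0)
  | hubR (i : ℕ) (hi : i < D.n) : Ed (.t i 2 (D.m - 1) 0) (.t i 1 D.m 0)
  | cpL (i c j : ℕ) (h : D.fl i c (j + 1)) : Ed (.t i c j 0) (.t i c (j + 1) 1)
  | cpR (i c j : ℕ) (h : D.fl i c j) : Ed (.t i c j 1) (.t i c (j + 1) 0)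

/-- adjacency -/
def Aj (u v : Vx) : Prop := D.Ed u v ∨ D.Ed v u

/-- a representation by lattice squares -/
def Rp (P : Vx → ℤ × ℤ) : Prop :=
  ∀ u v, D.rl u → D.rl v → u ≠ v → (D.Aj u v ↔ Nr D.k (P u) (P v))

/-- well-formed data -/
structure Ok : Prop where
  k1 : 1 ≤ D.k
  Q1 : 1 ≤ D.Q
  n1 : 1 ≤ D.n
  occ : ∀ q s b, D.occ q s b → q < D.Q ∧ s < D.n ∧ b < 2
  three : ∀ q, (∃ s b, D.occ q s b) → ∃ s₁ s₂ s₃ b₁ b₂ b₃, s₁ ≠ s₂ ∧ s₁ ≠ s₃ ∧ s₂ ≠ s₃ ∧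
    ∀ s b, D.occ q s b ↔ (s = s₁ ∧ b = b₁) ∨ (s = s₂ ∧ b = b₂) ∨ (s = s₃ ∧ b = b₃)

variable {D}

theorem Aj.symm {u v : Vx} (h : D.Aj u v) : D.Aj v u := Or.symm h

/-- adjacent track vertices -/
theorem aj_tt {i c j z i' c' j' z' : ℕ} (h : D.Aj (.t i c j z) (.t i' c' j' z')) :
    i = i' ∧ (j' = j + 1 ∨ j = j' + 1) ∧ (c = c' ∨ (c = 1 ∧ c' = 2 ∧ (j = 0 ∨ j = D.m)) ∨
      (c = 2 ∧ c' = 1 ∧ (j' = 0 ∨ j' = D.m))) := by
  have hm : 1 ≤ D.m := by unfold m; omega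
  rcases h with h | h <;> cases h <;> simp <;> omega

theorem fl_col (hD : D.Ok) {i c j : ℕ} (h : D.fl i c j) : i < D.n ∧ c < 3 ∧ 2 ≤ j ∧
    j + 2 ≤ D.m := by
  obtain ⟨q, b, ho, h⟩ := h
  obtain ⟨hq, hi, hb⟩ := hD.occ _ _ _ ho
  have h1 : (q + 1) * D.W ≤ D.Q * D.W := Nat.mul_le_mul_right _ hq
  rw [Nat.add_mul, Nat.one_mul] at h1
  have hm : D.m = D.Q * D.W + 1 := rfl
  have hW : D.W = 2 * D.M + 1 := rfl
  have hM : 2 ≤ D.M := by unfold M; omega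
  generalize D.Q * D.W = A at *
  generalize q * D.W = B at *
  omega

theorem m_ge (hD : D.Ok) : 6 ≤ D.m := by
  have h1 : 1 * D.W ≤ D.Q * D.W := Nat.mul_le_mul_right _ hD.Q1
  have hm : D.m = D.Q * D.W + 1 := rfl
  have hW : D.W = 2 * D.M + 1 := rfl
  have hM : 2 ≤ D.M := by unfold M; omega
  omega

end Dt

end Pool.Agent.H68.Sq
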