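import Pool.Agent.H68.Sq.Inst

/-!
The generator of the graph of the reduction.
-/

namespace Pool.Agent.H68.Sq

open Pool.Agent.H68.OQP Pool.Agent.H68.NPH Pool.Agent.H1.NP Dt

section defs

variable (k : ℕ)

def eK : Ex := .con (k + 1)
def eE : Ex := .con (5 * (k + 1) + 1)
def emc : Ex := .inp (.con 1)
def e3 : Ex := .mul (.con 3) emc
def en : Ex := .add e3 (.con 1)
def e4n : Ex := .mul (.con 4) en
def eM : Ex := .add (.mul e4n (eE k)) (.con 2)
def eW : Ex := .add (.mul (.con 2) (eM k)) (.con 1)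
def eQ : Ex := .add emc (.mul (.mul e3 e3) (.con 2))
def em : Ex := .add (.mul eQ (eW k)) (.con 1)
def eH : Ex := .add (.mul (.add e4n (.con 1)) (eK k)) (eE k)
def ewd : Ex := .mul (.con k) (em k)
def ewx : Ex := .add (.add (ewd k) (.con (6 * k))) (.con 1)
def ehy : Ex := .add (.add (eH k) (.con (4 * k))) (.con 1)
/-- number of a cell -/
def vC (X Y : Ex) : Ex := .add (.mul Y (ewx k)) X
/-- number of a track vertex -/
def vT (i c j z : Ex) : Ex :=
  .add (.mul (ehy k) (ewx k)) (.add (.mul (.add (.mul (.add (.mul (.con 4) i) c)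
    (.add (em k) (.con 1))) j) (.con 2)) z)
/-- number of vertices -/
def eT : Ex := .add (.mul (ehy k) (ewx k)) (.mul (.mul e4n (.add (em k) (.con 1))) (.con 2))
/-- cells of the ring -/
def cnR (X Y : Ex) : Cd :=
  (Cd.le X (.add (ewd k) (.con (6 * k)))).and ((Cd.le Y (.add (eH k) (.con (4 * k)))).and
    (.or (.le X (.con (2 * k))) (.or (.le (.add (ewd k) (.con (4 * k))) X)
      (.or (.le Y (.con (2 * k))) (.le (.add (eH k) (.con (2 * k))) Y)))))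
def ey0 (i : Ex) (c : ℕ) : Ex :=
  .add (.mul (.add (.add (.mul (.con 4) i) (.con c)) (.con 1)) (eK k))
    (.con (if c = 1 then 1 else 0))
def gdiag : Rg := .loop (ewx k) (.loop (ehy k) (.loop (.con (k + 1)) (.loop (.con (k + 1))
  (.cond ((Cd.le (.con 1) (.add (.var 1) (.var 0))).and ((cnR k (.var 3) (.var 2)).and
    (cnR k (.add (.var 3) (.var 1)) (.add (.var 2) (.var 0)))))
    (.pair (vC k (.var 3) (.var 2)) (vC k (.add (.var 3) (.var 1)) (.add (.var 2) (.var 0))))))))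
def ganti : Rg := .loop (ewx k) (.loop (ehy k) (.loop (.con (k + 1)) (.loop (.con (k + 1))
  (.cond ((Cd.le (.con 1) (.add (.var 1) (.var 0))).and
    ((cnR k (.add (.var 3) (.var 1)) (.var 2)).and
    (cnR k (.var 3) (.add (.var 2) (.var 0)))))
    (.pair (vC k (.add (.var 3) (.var 1)) (.var 2))
      (vC k (.var 3) (.add (.var 2) (.var 0))))))))
def gleft : Rg := .loop en (Rg.many [0, 1, 3] (fun c => .loop (.con (2 * k + 1))
  (.pair (vT k (.var 1) (.con c) (.con 0) (.con 0))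
    (vC k (.con (2 * k)) (.add (.add (ey0 k (.var 1) c) (.con k)) (.var 0))))))
def gright : Rg := .loop en (Rg.many [0, 1, 3] (fun c => .loop (.con (2 * k + 1))
  (.pair (vT k (.var 1) (.con c) (em k) (.con 0))
    (vC k (.add (ewd k) (.con (4 * k))) (.add (.add (ey0 k (.var 1) c) (.con k)) (.var 0))))))
def gstep : Rg := .loop en (Rg.many [0, 1, 3] (fun c => .loop (em k)
  (.pair (vT k (.var 1) (.con c) (.var 0) (.con 0))
    (vT k (.var 1) (.con c) (.add (.var 0) (.con 1)) (.con 0)))))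
def gstep2 : Rg := .loop en (.loop (em k) (.cond (Cd.lt (.add (.var 0) (.con 2)) (em k))
  (.pair (vT k (.var 1) (.con 2) (.add (.var 0) (.con 1)) (.con 0))
    (vT k (.var 1) (.con 2) (.add (.var 0) (.con 2)) (.con 0)))))
def ghubL : Rg := .loop en (.pair (vT k (.var 0) (.con 1) (.con 0) (.con 0))
  (vT k (.var 0) (.con 2) (.con 1) (.con 0)))
def ghubR : Rg := .loop en (.pair (vT k (.var 0) (.con 2) (.mul eQ (eW k)) (.con 0))
  (vT k (.var 0) (.con 1) (em k) (.con 0)))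
/-- edges of the doubled vertices of a literal of a region -/
def fla (q s b : Ex) : Rg :=
  .seq (.pair (vT k s (.con 0) (.add (.mul q (eW k)) (.add (.mul e4n (eE k)) (.con 1))) (.con 0))
    (vT k s (.con 0) (.add (.mul q (eW k)) (eM k)) (.con 1)))
  (.seq (.pair (vT k s (.con 0) (.add (.mul q (eW k)) (eM k)) (.con 1))
    (vT k s (.con 0) (.add (.add (.mul q (eW k)) (eM k)) (.con 1)) (.con 0)))
  (.seq (.pair (vT k s (.add (.con 1) b) (.add (.add (.mul q (eW k)) (eM k)) (.con 1)) (.con 0))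
    (vT k s (.add (.con 1) b) (.add (.add (.mul q (eW k)) (eM k)) (.con 2)) (.con 1)))
  (.pair (vT k s (.add (.con 1) b) (.add (.add (.mul q (eW k)) (eM k)) (.con 2)) (.con 1))
    (vT k s (.add (.con 1) b) (.add (.add (.mul q (eW k)) (eM k)) (.con 3)) (.con 0)))))
def gcl : Rg := .loop emc (Rg.many [0, 1, 2] (fun e =>
  fla k (.var 0) (.add (.mul (.con 3) (.var 0)) (.con e)) (.con 0)))
def cnP : Cd :=
  (Cd.eq (.inp (.add (.con 2) (.mul (.con 2) (.var 1))))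
    (.inp (.add (.con 2) (.mul (.con 2) (.var 0))))).and
  ((Cd.eq (.inp (.add (.con 3) (.mul (.con 2) (.var 1)))) (.con 1)).and
    (Cd.eq (.inp (.add (.con 3) (.mul (.con 2) (.var 0)))) (.con 0)))
def eq2 : Ex := .add emc (.add (.mul (.add (.mul (.var 2) e3) (.var 1)) (.con 2)) (.var 0))
def gcp : Rg := .loop e3 (.loop e3 (.cond cnP (.loop (.con 2)
  (.seq (fla k eq2 (.var 2) (.con 1)) (.seq (fla k eq2 (.var 1) (.con 1))
    (fla k eq2 e3 (.var 0)))))))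

/-- all edges -/
def prog : Rg := Rg.many [gdiag k, ganti k, gleft k, gright k, gstep k, gstep2 k, ghubL k, ghubR k,
  gcl k, gcp k] id

end defs

variable {k : ℕ} {l : List ℕ} {x : ℕ × ℕ}

/-- a pair printed for an edge -/
def PE (k : ℕ) (l : List ℕ) (x : ℕ × ℕ) : Prop :=
  ∃ u v, (dt k l).Ed u v ∧ x = ((dt k l).num u, (dt k l).num v)

theorem tv_cnR {env : List ℕ} {X Y : Ex} : (cnR k X Y).tv l env ↔
    (dt k l).cR (X.val l env) (Y.val l env) := by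
  simp only [cnR, tv_and, tv_le, tv_or]
  rfl

theorem gdiag_iff : x ∈ (gdiag k).out l [] ↔ ∃ X Y a b, a ≤ k ∧ b ≤ k ∧ a + b ≠ 0 ∧
    (dt k l).cR X Y ∧ (dt k l).cR (X + a) (Y + b) ∧
    x = ((dt k l).num (.c X Y), (dt k l).num (.c (X + a) (Y + b))) := by
  simp only [gdiag, Rg.mem_loop, Rg.mem_cond, Rg.mem_pair, tv_and, tv_cnR, tv_le]
  constructor
  · rintro ⟨X, hX, Y, hY, a, ha, b, hb, ⟨h0, h1, h2⟩, h⟩
    change a < k + 1 at ha
    change b < k + 1 at hb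
    change 1 ≤ a + b at h0
    exact ⟨X, Y, a, b, by omega, by omega, by omega, h1, h2, h⟩
  · rintro ⟨X, Y, a, b, ha, hb, h0, h1, h2, h⟩
    refine ⟨X, (cell_num h1).1, Y, ?_, a, Nat.lt_succ_of_le ha, b, Nat.lt_succ_of_le hb,
      ⟨Nat.one_le_iff_ne_zero.2 h0, h1, h2⟩, h⟩
    exact Nat.lt_succ_of_le h1.2.1

theorem ganti_iff : x ∈ (ganti k).out l [] ↔ ∃ X Y a b, a ≤ k ∧ b ≤ k ∧ a + b ≠ 0 ∧
    (dt k l).cR (X + a) Y ∧ (dt k l).cR X (Y + b) ∧
    x = ((dt k l).num (.c (X + a) Y), (dt k l).num (.c X (Y + b))) := by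
  simp only [ganti, Rg.mem_loop, Rg.mem_cond, Rg.mem_pair, tv_and, tv_cnR, tv_le]
  constructor
  · rintro ⟨X, hX, Y, hY, a, ha, b, hb, ⟨h0, h1, h2⟩, h⟩
    change a < k + 1 at ha
    change b < k + 1 at hb
    change 1 ≤ a + b at h0
    exact ⟨X, Y, a, b, by omega, by omega, by omega, h1, h2, h⟩
  · rintro ⟨X, Y, a, b, ha, hb, h0, h1, h2, h⟩
    refine ⟨X, (cell_num h2).1, Y, ?_, a, Nat.lt_succ_of_le ha, b, Nat.lt_succ_of_le hb,
      ⟨Nat.one_le_iff_ne_zero.2 h0, h1, h2⟩, h⟩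
    exact Nat.lt_succ_of_le h1.2.1

theorem gleft_iff : x ∈ (gleft k).out l [] ↔ ∃ i c d, i < (dt k l).n ∧
    (c = 0 ∨ c = 1 ∨ c = 3) ∧ d ≤ 2 * k ∧
    x = ((dt k l).num (.t i c 0 0), (dt k l).num (.c (2 * k) ((dt k l).y0 i c + k + d))) := by
  simp only [gleft, Rg.mem_loop, Rg.mem_many, Rg.mem_pair]
  constructor
  · rintro ⟨i, hi, c, hc, d, hd, h⟩
    exact ⟨i, c, d, hi, by simpa using hc, Nat.le_of_lt_succ hd, h⟩
  · rintro ⟨i, c, d, hi, hc, hd, h⟩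
    exact ⟨i, hi, c, by simpa using hc, d, Nat.lt_succ_of_le hd, h⟩

theorem gright_iff : x ∈ (gright k).out l [] ↔ ∃ i c d, i < (dt k l).n ∧
    (c = 0 ∨ c = 1 ∨ c = 3) ∧ d ≤ 2 * k ∧
    x = ((dt k l).num (.t i c (dt k l).m 0),
      (dt k l).num (.c ((dt k l).wd + 4 * k) ((dt k l).y0 i c + k + d))) := by
  simp only [gright, Rg.mem_loop, Rg.mem_many, Rg.mem_pair]
  constructor
  · rintro ⟨i, hi, c, hc, d, hd, h⟩
    exact ⟨i, c, d, hi, by simpa using hc, Nat.le_of_lt_succ hd, h⟩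
  · rintro ⟨i, c, d, hi, hc, hd, h⟩
    exact ⟨i, hi, c, by simpa using hc, d, Nat.lt_succ_of_le hd, h⟩

theorem gstep_iff : x ∈ (gstep k).out l [] ↔ ∃ i c j, i < (dt k l).n ∧
    (c = 0 ∨ c = 1 ∨ c = 3) ∧ j < (dt k l).m ∧
    x = ((dt k l).num (.t i c j 0), (dt k l).num (.t i c (j + 1) 0)) := by
  simp only [gstep, Rg.mem_loop, Rg.mem_many, Rg.mem_pair]
  constructor
  · rintro ⟨i, hi, c, hc, d, hd, h⟩
    exact ⟨i, c, d, hi, by simpa using hc, hd, h⟩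
  · rintro ⟨i, c, d, hi, hc, hd, h⟩
    exact ⟨i, hi, c, by simpa using hc, d, hd, h⟩

theorem gstep2_iff : x ∈ (gstep2 k).out l [] ↔ ∃ i j, i < (dt k l).n ∧
    j + 2 < (dt k l).m ∧
    x = ((dt k l).num (.t i 2 (j + 1) 0), (dt k l).num (.t i 2 (j + 2) 0)) := by
  simp only [gstep2, Rg.mem_loop, Rg.mem_cond, Rg.mem_pair, tv_lt]
  constructor
  · rintro ⟨i, hi, j, hj, hj2, h⟩
    exact ⟨i, j, hi, hj2, h⟩
  · rintro ⟨i, j, hi, hj, h⟩
    have hj' : j < (dt k l).m := by omega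
    exact ⟨i, hi, j, hj', hj, h⟩

theorem ghubL_iff : x ∈ (ghubL k).out l [] ↔ ∃ i, i < (dt k l).n ∧
    x = ((dt k l).num (.t i 1 0 0), (dt k l).num (.t i 2 1 0)) := by
  simp only [ghubL, Rg.mem_loop, Rg.mem_pair]
  rfl

theorem ghubR_iff : x ∈ (ghubR k).out l [] ↔ ∃ i, i < (dt k l).n ∧
    x = ((dt k l).num (.t i 2 ((dt k l).m - 1) 0), (dt k l).num (.t i 1 (dt k l).m 0)) := by
  simp only [ghubR, Rg.mem_loop, Rg.mem_pair]
  rfl

/-- the four pairs of a literal -/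
def FP (k : ℕ) (l : List ℕ) (q s b : ℕ) (x : ℕ × ℕ) : Prop :=
  x = ((dt k l).num (.t s 0 (q * (dt k l).W + ((dt k l).M - 1)) 0),
    (dt k l).num (.t s 0 (q * (dt k l).W + (dt k l).M) 1)) ∨
  x = ((dt k l).num (.t s 0 (q * (dt k l).W + (dt k l).M) 1),
    (dt k l).num (.t s 0 (q * (dt k l).W + (dt k l).M + 1) 0)) ∨
  x = ((dt k l).num (.t s (1 + b) (q * (dt k l).W + (dt k l).M + 1) 0),
    (dt k l).num (.t s (1 + b) (q * (dt k l).W + (dt k l).M + 2) 1)) ∨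
  x = ((dt k l).num (.t s (1 + b) (q * (dt k l).W + (dt k l).M + 2) 1),
    (dt k l).num (.t s (1 + b) (q * (dt k l).W + (dt k l).M + 3) 0))

theorem fla_iff {env : List ℕ} {q s b : Ex} : x ∈ (fla k q s b).out l env ↔
    FP k l (q.val l env) (s.val l env) (b.val l env) x := by
  simp only [fla, Rg.mem_seq, Rg.mem_pair]
  rfl

theorem flag_iff : (x ∈ (gcl k).out l [] ∨ x ∈ (gcp k).out l []) ↔
    ∃ q s b, oc l q s b ∧ FP k l q s b x := by
  simp only [gcl, gcp, Rg.mem_loop, Rg.mem_many, Rg.mem_cond, Rg.mem_seq, fla_iff]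
  constructor
  · rintro (⟨q, hq, e, he, h⟩ | ⟨s₁, h1, s₂, h2, hc, z, hz, h⟩)
    · have he' : e < 3 := by
        have : e = 0 ∨ e = 1 ∨ e = 2 := by simpa using he
        omega
      exact ⟨q, 3 * q + e, 0, Or.inl ⟨hq, rfl, e, he', rfl⟩, h⟩
    · simp only [cnP, tv_and, tv_eq] at hc
      have mk : ∀ s b, ((s = s₁ ∧ b = 1) ∨ (s = s₂ ∧ b = 1) ∨ (s = 3 * mc l ∧ b = z)) →
          oc l (mc l + ((s₁ * (3 * mc l) + s₂) * 2 + z)) s b := fun s b h =>
        Or.inr ⟨s₁, s₂, z, h1, h2, hz, hc, rfl, h⟩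
      rcases h with h | h | h
      · exact ⟨_, _, _, mk _ _ (Or.inl ⟨rfl, rfl⟩), h⟩
      · exact ⟨_, _, _, mk _ _ (Or.inr (Or.inl ⟨rfl, rfl⟩)), h⟩
      · exact ⟨_, _, _, mk _ _ (Or.inr (Or.inr ⟨rfl, rfl⟩)), h⟩
  · rintro ⟨q, s, b, ho, h⟩
    rcases ho with ⟨hq, rfl, e, he, rfl⟩ | ⟨s₁, s₂, z, h1, h2, hz, hc, rfl, h'⟩
    · exact Or.inl ⟨q, hq, e, by simp; omega, h⟩
    · refine Or.inr ⟨s₁, h1, s₂, h2, ?_, z, hz, ?_⟩
      · simp only [cnP, tv_and, tv_eq]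
        exact hc
      · rcases h' with ⟨rfl, rfl⟩ | ⟨rfl, rfl⟩ | ⟨rfl, rfl⟩
        · exact Or.inl h
        · exact Or.inr (Or.inl h)
        · exact Or.inr (Or.inr h)

theorem prog_iff : x ∈ (prog k).out l [] ↔ PE k l x := by
  have hM : (dt k l).M = 4 * (dt k l).n * (dt k l).E + 2 := rfl
  have hmem : x ∈ (prog k).out l [] ↔ x ∈ (gdiag k).out l [] ∨ x ∈ (ganti k).out l [] ∨
      x ∈ (gleft k).out l [] ∨ x ∈ (gright k).out l [] ∨ x ∈ (gstep k).out l [] ∨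
      x ∈ (gstep2 k).out l [] ∨ x ∈ (ghubL k).out l [] ∨ x ∈ (ghubR k).out l [] ∨
      (x ∈ (gcl k).out l [] ∨ x ∈ (gcp k).out l []) := by
    simp only [prog, Rg.mem_many]
    simp
  rw [hmem, gdiag_iff, ganti_iff, gleft_iff, gright_iff, gstep_iff, gstep2_iff, ghubL_iff,
    ghubR_iff, flag_iff]
  constructor
  · rintro (⟨X, Y, a, b, ha, hb, h0, h1, h2, h⟩ | ⟨X, Y, a, b, ha, hb, h0, h1, h2, h⟩ |
      ⟨i, c, d, hi, hc, hd, h⟩ | ⟨i, c, d, hi, hc, hd, h⟩ | ⟨i, c, j, hi, hc, hj, h⟩ |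
      ⟨i, j, hi, hj, h⟩ | ⟨i, hi, h⟩ | ⟨i, hi, h⟩ | ⟨q, s, b, ho, h⟩)
    · exact ⟨_, _, .diag X Y a b ha hb h0 h1 h2, h⟩
    · exact ⟨_, _, .anti X Y a b ha hb h0 h1 h2, h⟩
    · exact ⟨_, _, .left i c d hi (by omega) (by omega) hd, h⟩
    · exact ⟨_, _, .right i c d hi (by omega) (by omega) hd, h⟩
    · exact ⟨_, _, .step i c j hi (by omega) (by omega) hj, h⟩
    · exact ⟨_, _, .step2 i j hi hj, h⟩
    · exact ⟨_, _, .hubL i hi, h⟩
    · exact ⟨_, _, .hubR i hi, h⟩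
    · have f1 : (dt k l).fl s 0 (q * (dt k l).W + (dt k l).M) := ⟨q, b, ho, Or.inl ⟨rfl, rfl⟩⟩
      have f2 : (dt k l).fl s (1 + b) (q * (dt k l).W + (dt k l).M + 2) :=
        ⟨q, b, ho, Or.inr ⟨rfl, rfl⟩⟩
      rcases h with h | h | h | h
      · have e : q * (dt k l).W + ((dt k l).M - 1) + 1 = q * (dt k l).W + (dt k l).M := by omega
        have := Ed.cpL (D := dt k l) s 0 (q * (dt k l).W + ((dt k l).M - 1)) (by rw [e]; exact f1)
        rw [e] at this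
        exact ⟨_, _, this, h⟩
      · exact ⟨_, _, .cpR _ _ _ f1, h⟩
      · exact ⟨_, _, .cpL _ _ _ f2, h⟩
      · exact ⟨_, _, .cpR _ _ _ f2, h⟩
  · rintro ⟨u, v, he, rfl⟩
    cases he with
    | diag X Y a b ha hb h0 h1 h2 =>
      exact Or.inl ⟨X, Y, a, b, ha, hb, h0, h1, h2, rfl⟩
    | anti X Y a b ha hb h0 h1 h2 =>
      exact Or.inr (Or.inl ⟨X, Y, a, b, ha, hb, h0, h1, h2, rfl⟩)
    | left i c d hi hc h2 hd =>
      exact Or.inr (Or.inr (Or.inl ⟨i, c, d, hi, by omega, hd, rfl⟩))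
    | right i c d hi hc h2 hd =>
      exact Or.inr (Or.inr (Or.inr (Or.inl ⟨i, c, d, hi, by omega, hd, rfl⟩)))
    | step i c j hi hc h2 hj =>
      exact Or.inr (Or.inr (Or.inr (Or.inr (Or.inl ⟨i, c, j, hi, by omega, hj, rfl⟩))))
    | step2 i j hi hj =>
      exact Or.inr (Or.inr (Or.inr (Or.inr (Or.inr (Or.inl ⟨i, j, hi, hj, rfl⟩)))))
    | hubL i hi =>
      exact Or.inr (Or.inr (Or.inr (Or.inr (Or.inr (Or.inr (Or.inl ⟨i, hi, rfl⟩))))))
    | hubR i hi =>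
      exact Or.inr (Or.inr (Or.inr (Or.inr (Or.inr (Or.inr (Or.inr (Or.inl ⟨i, hi, rfl⟩)))))))
    | cpL i c j h =>
      refine Or.inr (Or.inr (Or.inr (Or.inr (Or.inr (Or.inr (Or.inr (Or.inr ?_)))))))
      obtain ⟨q, b, ho, hc | hc⟩ := h
      · refine ⟨q, i, b, ho, Or.inl ?_⟩
        rw [hc.1, hc.2]
        have : j = q * (dt k l).W + ((dt k l).M - 1) := by omega
        rw [this]
      · refine ⟨q, i, b, ho, Or.inr (Or.inr (Or.inl ?_))⟩
        rw [hc.1, hc.2]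
        have : j = q * (dt k l).W + (dt k l).M + 1 := by omega
        rw [this]
    | cpR i c j h =>
      refine Or.inr (Or.inr (Or.inr (Or.inr (Or.inr (Or.inr (Or.inr (Or.inr ?_)))))))
      obtain ⟨q, b, ho, hc | hc⟩ := h
      · refine ⟨q, i, b, ho, Or.inr (Or.inl ?_)⟩
        rw [hc.1, hc.2]
      · refine ⟨q, i, b, ho, Or.inr (Or.inr (Or.inr ?_))⟩
        rw [hc.1, hc.2]

/-- the graph written by the generator -/
noncomputable def red (k : ℕ) (l : List ℕ) : ℕ × List (ℕ × ℕ) := ((eT k).val l [], (prog k).out l [])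

theorem red_correct (hk : 1 ≤ k) (hl : Ok3 l) : Sat3 l ↔ SqG k (graphOf (red k l)) := by
  have e : red k l = ((dt k l).tot, (prog k).out l []) := rfl
  rw [sat_iff hl, e]
  have := Dt.main (D := dt k l) (dt_ok hk hl) (L := (prog k).out l []) (by
    intro x y
    rw [prog_iff]
    constructor
    · rintro ⟨u, v, h, h'⟩
      rw [Prod.mk.injEq] at h'
      exact ⟨u, v, h, h'.1, h'.2⟩
    · rintro ⟨u, v, h, rfl, rfl⟩
      exact ⟨u, v, h, rfl⟩)
  exact this.symm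

/-- every language in NP reduces to the recognition problem -/
theorem np_sq (hk : 1 ≤ k) {L : N68a2faeb.DecisionProblem} (hL : L ∈ N68a2faeb.NP) :
    ∃ f : List Bool → ℕ × List (ℕ × ℕ), PolyOn (fun w => w) encG f ∧
      ∀ x, L x = true ↔ SqG k (graphOf (f x)) := by
  obtain ⟨F, hF, hok, hsat⟩ := np_sat3 hL
  refine ⟨fun x => red k (F x), hF.comp (polyOn_graph (eT k) (prog k)), fun x => ?_⟩
  rw [hsat x]
  exact red_correct hk (hok x)

end Pool.Agent.H68.Sq
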