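import Pool.Agent.H68.Sq.Lift
import Pool.Agent.H68.NPH.Sat3

/-!
The instance of the reduction given by a formula with three literals per clause.
-/

namespace Pool.Agent.H68.Sq

open Pool.Agent.H68.NPH

/-- number of clauses -/
def mc (l : List ℕ) : ℕ := l.getD 1 0

/-- literal `s₁` is the positive and `s₂` the negative literal of the same variable -/
def cpl (l : List ℕ) (s₁ s₂ : ℕ) : Prop :=
  l.getD (2 + 2 * s₁) 0 = l.getD (2 + 2 * s₂) 0 ∧ l.getD (3 + 2 * s₁) 0 = 1 ∧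
    l.getD (3 + 2 * s₂) 0 = 0

/-- literals of a region: the first `mc` regions are the clauses, the others stand for
`¬ s₁ ∨ ¬ s₂ ∨ ± Z` where `s₁`, `s₂` are complementary -/
def oc (l : List ℕ) (q s b : ℕ) : Prop :=
  (q < mc l ∧ b = 0 ∧ ∃ e, e < 3 ∧ s = 3 * q + e) ∨
  ∃ s₁ s₂ z, s₁ < 3 * mc l ∧ s₂ < 3 * mc l ∧ z < 2 ∧ cpl l s₁ s₂ ∧
    q = mc l + ((s₁ * (3 * mc l) + s₂) * 2 + z) ∧
    ((s = s₁ ∧ b = 1) ∨ (s = s₂ ∧ b = 1) ∨ (s = 3 * mc l ∧ b = z))

/-- the data -/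
def dt (k : ℕ) (l : List ℕ) : Dt where
  k := k
  n := 3 * mc l + 1
  Q := mc l + 3 * mc l * (3 * mc l) * 2
  occ := oc l

variable {k : ℕ} {l : List ℕ}

theorem dt_ok (hk : 1 ≤ k) (hl : Ok3 l) : (dt k l).Ok where
  k1 := hk
  Q1 := by
    have := hl.two
    change 1 ≤ mc l + _
    unfold mc
    omega
  n1 := by change 1 ≤ 3 * mc l + 1; omega
  occ := by
    intro q s b h
    change q < mc l + 3 * mc l * (3 * mc l) * 2 ∧ s < 3 * mc l + 1 ∧ b < 2
    rcases h with ⟨hq, rfl, e, he, rfl⟩ | ⟨s₁, s₂, z, h1, h2, hz, -, rfl, h⟩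
    · omega
    · have : (s₁ + 1) * (3 * mc l) ≤ 3 * mc l * (3 * mc l) := Nat.mul_le_mul_right _ h1
      rw [Nat.add_mul, Nat.one_mul] at this
      generalize s₁ * (3 * mc l) = A at *
      generalize 3 * mc l * (3 * mc l) = B at *
      omega
  three := by
    rintro q ⟨s, b, h⟩
    rcases h with ⟨hq, rfl, e, he, rfl⟩ | ⟨s₁, s₂, z, h1, h2, hz, hc, hq, -⟩
    · refine ⟨3 * q, 3 * q + 1, 3 * q + 2, 0, 0, 0, by omega, by omega, by omega, ?_⟩
      intro s b
      constructor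
      · rintro (⟨-, rfl, e, he, rfl⟩ | ⟨s₁, s₂, z, h1, h2, hz, -, rfl, -⟩)
        · omega
        · omega
      · intro h
        exact Or.inl ⟨hq, by omega, s - 3 * q, by omega, by omega⟩
    · refine ⟨s₁, s₂, 3 * mc l, 1, 1, z, ?_, by omega, by omega, ?_⟩
      · rintro rfl
        have := hc.2.1
        have := hc.2.2
        omega
      intro s b
      constructor
      · rintro (⟨hq', -⟩ | ⟨s₁', s₂', z', h1', h2', hz', -, hq', h⟩)
        · omega
        · have r1 := Dt.radix (a := s₁ * (3 * mc l) + s₂) (b := 2) (c := z)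
            (a' := s₁' * (3 * mc l) + s₂') (c' := z') (by omega) (by omega) (by omega)
          have r2 := Dt.radix r1.1 h2 h2'
          obtain ⟨-, rfl⟩ := r1
          obtain ⟨rfl, rfl⟩ := r2
          exact h
      · intro h
        exact Or.inr ⟨s₁, s₂, z, h1, h2, hz, hc, hq, h⟩

theorem sat_iff (hl : Ok3 l) : Sat3 l ↔ ∃ t : ℕ → Prop, ∀ q, (∃ s b, oc l q s b) →
    ∃ s b, oc l q s b ∧ Dt.tr t s b := by
  classical
  have ev : ∀ j i, vr l j i = l.getD (2 + 2 * (3 * j + i)) 0 := by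
    intro j i; unfold vr; congr 1; ring
  have es : ∀ j i, sg l j i = l.getD (3 + 2 * (3 * j + i)) 0 := by
    intro j i; unfold sg; congr 1; ring
  constructor
  · rintro ⟨τ, hτ⟩
    refine ⟨fun s => τ (l.getD (2 + 2 * s) 0) = decide (l.getD (3 + 2 * s) 0 = 1), ?_⟩
    rintro q ⟨s, b, h⟩
    rcases h with ⟨hq, rfl, e, he, rfl⟩ | ⟨s₁, s₂, z, h1, h2, hz, hc, hq, -⟩
    · obtain ⟨i, hi, h⟩ := hτ q hq
      rw [ev, es] at h
      exact ⟨3 * q + i, 0, Or.inl ⟨hq, rfl, i, hi, rfl⟩, Or.inl ⟨rfl, h⟩⟩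
    · by_cases ht : τ (l.getD (2 + 2 * s₁) 0) = decide (l.getD (3 + 2 * s₁) 0 = 1)
      · refine ⟨s₂, 1, Or.inr ⟨s₁, s₂, z, h1, h2, hz, hc, hq, Or.inr (Or.inl ⟨rfl, rfl⟩)⟩,
          Or.inr ⟨rfl, ?_⟩⟩
        obtain ⟨c1, c2, c3⟩ := hc
        rw [c1, c2] at ht
        dsimp only
        rw [ht, c3]
        simp
      · exact ⟨s₁, 1, Or.inr ⟨s₁, s₂, z, h1, h2, hz, hc, hq, Or.inl ⟨rfl, rfl⟩⟩,
          Or.inr ⟨rfl, ht⟩⟩
  · rintro ⟨t, ht⟩
    refine ⟨fun v => decide (∃ s < 3 * mc l, t s ∧ l.getD (2 + 2 * s) 0 = v ∧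
      l.getD (3 + 2 * s) 0 = 1), ?_⟩
    intro j hj
    obtain ⟨s, b, ho, htr⟩ := ht j ⟨3 * j, 0, Or.inl ⟨hj, rfl, 0, by omega, rfl⟩⟩
    rcases ho with ⟨-, rfl, e, he, rfl⟩ | ⟨s₁, s₂, z, h1, h2, hz, -, hq, -⟩
    · refine ⟨e, he, ?_⟩
      have hts : t (3 * j + e) := by
        rcases htr with ⟨-, h⟩ | ⟨h, -⟩
        · exact h
        · omega
      have hs3 : 3 * j + e < 3 * mc l := by unfold mc; omega
      have hs := hl.slt j hj e he
      rw [ev, es] at *
      by_cases hsg : l.getD (3 + 2 * (3 * j + e)) 0 = 1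
      · dsimp only
        rw [decide_eq_true hsg, decide_eq_true]
        exact ⟨3 * j + e, hs3, hts, rfl, hsg⟩
      · dsimp only
        rw [decide_eq_false hsg, decide_eq_false]
        rintro ⟨s', hs', ht', hv', hg'⟩
        have hc : cpl l s' (3 * j + e) := ⟨hv', hg', by omega⟩
        have key : ∀ z < 2, Dt.tr t (3 * mc l) z := by
          intro z hz
          obtain ⟨s, b, ho, htr⟩ := ht (mc l + ((s' * (3 * mc l) + (3 * j + e)) * 2 + z))
            ⟨s', 1, Or.inr ⟨s', 3 * j + e, z, hs', hs3, hz, hc, rfl, Or.inl ⟨rfl, rfl⟩⟩⟩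
          rcases ho with ⟨hq, -⟩ | ⟨s₁', s₂', z', h1', h2', hz', -, hq', h⟩
          · omega
          · have r1 := Dt.radix (a := s' * (3 * mc l) + (3 * j + e)) (b := 2) (c := z)
              (a' := s₁' * (3 * mc l) + s₂') (c' := z') (by omega) (by omega) (by omega)
            have r2 := Dt.radix r1.1 hs3 h2'
            obtain ⟨-, rfl⟩ := r1
            obtain ⟨rfl, rfl⟩ := r2
            rcases h with ⟨rfl, rfl⟩ | ⟨rfl, rfl⟩ | ⟨rfl, rfl⟩
            · rcases htr with ⟨h, -⟩ | ⟨-, h⟩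
              · omega
              · exact absurd ht' h
            · rcases htr with ⟨h, -⟩ | ⟨-, h⟩
              · omega
              · exact absurd hts h
            · exact htr
        have k0 := key 0 (by omega)
        have k1 := key 1 (by omega)
        rcases k0 with ⟨-, h0⟩ | ⟨h, -⟩
        · rcases k1 with ⟨h, -⟩ | ⟨-, h1⟩
          · omega
          · exact h1 h0
        · omega
    · have : j < mc l := hj
      omega

end Pool.Agent.H68.Sq
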