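import Pool.Agent.H68.Sq.Defs

/-!
From a satisfying assignment to a representation by lattice squares: levels.
-/

namespace Pool.Agent.H68.Sq.Dt

variable (D : Dt) (δ : ℕ → ℕ → ℕ)

/-- region of a column -/
def qq (j : ℕ) : ℕ := (j - 1) / D.W
/-- time of a column: distance to the boundary of its region -/
def tt (j : ℕ) : ℕ := min ((j - 1) % D.W) (2 * D.M - (j - 1) % D.W)
/-- height of the track of rank `r` in column `j` -/
def lev (r j : ℕ) : ℕ :=
  (r + 1) * D.K + min (δ (D.qq j) r) (D.tt j - (4 * D.n - 1 - r) * D.E)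

variable {D δ}

theorem phase (j : ℕ) : (D.tt j = 0 ∧ D.tt (j + 1) = 0) ∨
    (D.qq (j + 1) = D.qq j ∧ D.tt (j + 1) ≤ D.tt j + 1 ∧ D.tt j ≤ D.tt (j + 1) + 1) := by
  have hW : D.W = 2 * D.M + 1 := rfl
  cases j with
  | zero => left; simp [tt]
  | succ x =>
    have e1 : x + 1 - 1 = x := rfl
    have e2 : x + 1 + 1 - 1 = x + 1 := rfl
    simp only [tt, qq, e1, e2]
    have hx := Nat.div_add_mod x D.W
    have hb := Nat.mod_lt x (show 0 < D.W by omega)
    generalize hA : x / D.W = a at *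
    generalize hB : x % D.W = b at *
    have hx1 : x + 1 = D.W * a + (b + 1) := by omega
    rw [hx1, Nat.mul_add_mod, Nat.mul_add_div (by omega)]
    by_cases h : b + 1 < D.W
    · right
      rw [Nat.mod_eq_of_lt h, Nat.div_eq_of_lt h]
      omega
    · left
      have : b + 1 = D.W := by omega
      rw [this, Nat.mod_self]
      omega

/-- neighbouring columns -/
def nb (j j' : ℕ) : Prop := j' = j ∨ j' = j + 1 ∨ j = j' + 1

theorem phase' {j j' : ℕ} (h : nb j j') : (D.tt j = 0 ∧ D.tt j' = 0) ∨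
    (D.qq j' = D.qq j ∧ D.tt j' ≤ D.tt j + 1 ∧ D.tt j ≤ D.tt j' + 1) := by
  rcases h with rfl | rfl | rfl
  · right; omega
  · exact phase j
  · have := phase (D := D) j'
    omega

/-- displacements -/
structure Dl (D : Dt) (δ : ℕ → ℕ → ℕ) : Prop where
  mono : ∀ q r s, r ≤ s → δ q r ≤ δ q s
  bd : ∀ q r, δ q r ≤ D.E

theorem lev_mono (h : Dl D δ) {r s j j' : ℕ} (hrs : r < s) (hs : s < 4 * D.n) (hj : nb j j') :
    lev D δ r j + (s - r) * D.K ≤ lev D δ s j' := by
  obtain ⟨d, rfl⟩ := Nat.exists_eq_add_of_lt hrs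
  have e : (r + d + 1 + 1) * D.K = (r + 1) * D.K + (r + d + 1 - r) * D.K := by
    rw [← Nat.add_mul]
    congr 1
    omega
  unfold lev
  rw [e]
  have key : min (δ (D.qq j) r) (D.tt j - (4 * D.n - 1 - r) * D.E) ≤
      min (δ (D.qq j') (r + d + 1)) (D.tt j' - (4 * D.n - 1 - (r + d + 1)) * D.E) := by
    have h1 : (4 * D.n - 1 - (r + d + 1)) * D.E + D.E ≤ (4 * D.n - 1 - r) * D.E := by
      have : (4 * D.n - 1 - (r + d + 1)) * D.E + D.E = (4 * D.n - 1 - (r + d + 1) + 1) * D.E := by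
        ring
      rw [this]
      exact Nat.mul_le_mul_right _ (by omega)
    have h2 := phase' (D := D) hj
    have h3 := h.mono (D.qq j') r (r + d + 1) (by omega)
    have h4 := h.bd (D.qq j') (r + d + 1)
    by_cases h0 : D.tt j ≤ (4 * D.n - 1 - r) * D.E
    · omega
    · rcases h2 with h2 | ⟨hq, h2⟩
      · omega
      · rw [hq] at h3 h4 ⊢
        omega
  omega

theorem lev_step {r j j' : ℕ} (hj : nb j j') :
    lev D δ r j ≤ lev D δ r j' + 1 := by
  have h2 := phase' (D := D) hj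
  unfold lev
  rcases h2 with h2 | ⟨hq, h2⟩
  · omega
  · rw [hq]
    omega

theorem lev_ge {r j : ℕ} : (r + 1) * D.K ≤ lev D δ r j := Nat.le_add_right _ _

theorem lev_le (h : Dl D δ) {r j : ℕ} (hr : r < 4 * D.n) : lev D δ r j + D.K ≤ D.H := by
  unfold lev H
  have h1 : (r + 1) * D.K + D.K ≤ (4 * D.n + 1) * D.K := by
    have : (r + 1) * D.K + D.K = (r + 2) * D.K := by ring
    rw [this]
    exact Nat.mul_le_mul_right _ (by omega)
  have h4 := h.bd (D.qq j) r
  omega

theorem lev_zero {r j : ℕ} (h : D.tt j = 0) : lev D δ r j = (r + 1) * D.K := by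
  unfold lev
  omega

theorem lev_full (h : Dl D δ) {r j : ℕ} (hr : r < 4 * D.n) (ht : 4 * D.n * D.E ≤ D.tt j) :
    lev D δ r j = (r + 1) * D.K + δ (D.qq j) r := by
  unfold lev
  have h1 : (4 * D.n - 1 - r) * D.E + D.E ≤ 4 * D.n * D.E := by
    have : (4 * D.n - 1 - r) * D.E + D.E = (4 * D.n - 1 - r + 1) * D.E := by ring
    rw [this]
    exact Nat.mul_le_mul_right _ (by omega)
  have h4 := h.bd (D.qq j) r
  omega

theorem col {q τ : ℕ} (hτ : τ < D.W) : D.qq (q * D.W + 1 + τ) = q ∧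
    D.tt (q * D.W + 1 + τ) = min τ (2 * D.M - τ) := by
  unfold qq tt
  have e : q * D.W + 1 + τ - 1 = D.W * q + τ := by
    rw [Nat.mul_comm]; omega
  rw [e, Nat.mul_add_mod, Nat.mul_add_div (by omega), Nat.mod_eq_of_lt hτ, Nat.div_eq_of_lt hτ]
  omega

theorem center {q j : ℕ} (h1 : q * D.W + D.M ≤ j + 1) (h2 : j ≤ q * D.W + D.M + 3) :
    D.qq j = q ∧ 4 * D.n * D.E ≤ D.tt j := by
  have hW : D.W = 2 * D.M + 1 := rfl
  have hM : D.M = 4 * D.n * D.E + 2 := rfl
  obtain ⟨τ, rfl⟩ : ∃ τ, j = q * D.W + 1 + τ := ⟨j - (q * D.W + 1), by omega⟩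
  have := col (D := D) (q := q) (τ := τ) (by omega)
  omega

theorem tt_zero : D.tt 0 = 0 ∧ D.tt 1 = 0 := by simp [tt]

theorem tt_last (hD : D.Ok) : D.tt D.m = 0 ∧ D.tt (D.m - 1) = 0 := by
  have hW : D.W = 2 * D.M + 1 := rfl
  have hm : D.m = D.Q * D.W + 1 := rfl
  constructor
  · have := (col (D := D) (q := D.Q) (τ := 0) (by omega)).2
    rw [Nat.add_zero, ← hm] at this
    omega
  · obtain ⟨q, hq⟩ : ∃ q, D.Q = q + 1 := ⟨D.Q - 1, by have := hD.Q1; omega⟩
    have := (col (D := D) (q := q) (τ := 2 * D.M) (by omega)).2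
    have e : D.m - 1 = q * D.W + 1 + 2 * D.M := by
      rw [hm, hq, Nat.add_mul]
      omega
    rw [e]
    omega

/-- the displacement caused by one literal -/
def G (D : Dt) (s e r : ℕ) : ℕ :=
  if r < 4 * s then 0 else if r = 4 * s then 1 else if r = 4 * s + 1 then D.K
  else if r = 4 * s + 2 then D.K + 1 else D.K + 1 + e

theorem G_mono {s e : ℕ} {r r' : ℕ} (h : r ≤ r') : G D s e r ≤ G D s e r' := by
  have : D.K = D.k + 1 := rfl
  unfold G
  split_ifs <;> omega

theorem G_le {s e r : ℕ} : G D s e r ≤ D.K + 1 + e := by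
  have : D.K = D.k + 1 := rfl
  unfold G
  split_ifs <;> omega

/-- truth of a literal -/
def tr (t : ℕ → Prop) (s b : ℕ) : Prop := (b = 0 ∧ t s) ∨ (b = 1 ∧ ¬ t s)

/-- displacements suited to an assignment -/
structure Dg (D : Dt) (t : ℕ → Prop) (δ : ℕ → ℕ → ℕ) : Prop extends Dl D δ where
  a0 : ∀ q s b, D.occ q s b → 1 ≤ δ q (4 * s)
  a1 : ∀ q s b, D.occ q s b → ∀ r < 4 * s, δ q r + 1 ≤ δ q (4 * s)
  b1 : ∀ q s b, D.occ q s b → δ q (4 * s) + D.k ≤ δ q (4 * s + 1)
  c1 : ∀ q s b, D.occ q s b → δ q (4 * s + 1) + 1 ≤ δ q (4 * s + 2)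
  d1 : ∀ q s b, D.occ q s b → ¬ tr t s b → δ q (4 * s + 2) + D.k ≤ δ q (4 * s + 3)

theorem exists_dg (hD : D.Ok) (t : ℕ → Prop)
    (ht : ∀ q, (∃ s b, D.occ q s b) → ∃ s b, D.occ q s b ∧ tr t s b) : ∃ δ, Dg D t δ := by
  classical
  have hK : D.K = D.k + 1 := rfl
  have hE : D.E = 5 * D.K + 1 := rfl
  have one : ∀ q, ∃ d : ℕ → ℕ, (∀ r s, r ≤ s → d r ≤ d s) ∧ (∀ r, d r ≤ D.E) ∧
      ∀ s b, D.occ q s b → (1 ≤ d (4 * s) ∧ (∀ r < 4 * s, d r + 1 ≤ d (4 * s)) ∧
        d (4 * s) + D.k ≤ d (4 * s + 1) ∧ d (4 * s + 1) + 1 ≤ d (4 * s + 2) ∧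
        (¬ tr t s b → d (4 * s + 2) + D.k ≤ d (4 * s + 3))) := by
    intro q
    by_cases hq : ∃ s b, D.occ q s b
    · obtain ⟨s₁, s₂, s₃, b₁, b₂, b₃, -, -, -, ho⟩ := hD.three q hq
      obtain ⟨s₀, b₀, h0, h1⟩ := ht q hq
      let e : ℕ → ℕ → ℕ := fun s b => if tr t s b then 0 else D.k
      have he : ∀ s b, e s b ≤ D.k := by
        intro s b; simp only [e]; split_ifs <;> omega
      refine ⟨fun r => G D s₁ (e s₁ b₁) r + G D s₂ (e s₂ b₂) r + G D s₃ (e s₃ b₃) r, ?_, ?_, ?_⟩
      · intro r s hrs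
        exact Nat.add_le_add (Nat.add_le_add (G_mono hrs) (G_mono hrs)) (G_mono hrs)
      · intro r
        have g1 := G_le (D := D) (s := s₁) (e := e s₁ b₁) (r := r)
        have g2 := G_le (D := D) (s := s₂) (e := e s₂ b₂) (r := r)
        have g3 := G_le (D := D) (s := s₃) (e := e s₃ b₃) (r := r)
        have e1 := he s₁ b₁
        have e2 := he s₂ b₂
        have e3 := he s₃ b₃
        have e0 : e s₀ b₀ = 0 := if_pos h1
        dsimp only
        rcases (ho _ _).1 h0 with ⟨rfl, rfl⟩ | ⟨rfl, rfl⟩ | ⟨rfl, rfl⟩ <;> omega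
      · have own : ∀ s b, (1 ≤ G D s (e s b) (4 * s) ∧
            (∀ r < 4 * s, G D s (e s b) r + 1 ≤ G D s (e s b) (4 * s)) ∧
            G D s (e s b) (4 * s) + D.k ≤ G D s (e s b) (4 * s + 1) ∧
            G D s (e s b) (4 * s + 1) + 1 ≤ G D s (e s b) (4 * s + 2) ∧
            (¬ tr t s b → G D s (e s b) (4 * s + 2) + D.k ≤ G D s (e s b) (4 * s + 3))) := by
          intro s b
          refine ⟨?_, ?_, ?_, ?_, ?_⟩
          · unfold G; split_ifs <;> omega
          · intro r hr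
            unfold G; split_ifs <;> omega
          · unfold G; split_ifs <;> omega
          · unfold G; split_ifs <;> omega
          · intro hn
            have : e s b = D.k := if_neg hn
            unfold G; split_ifs <;> omega
        have mn : ∀ s b r r', r ≤ r' → G D s (e s b) r ≤ G D s (e s b) r' :=
          fun s b r r' h => G_mono h
        intro s b hs
        dsimp only
        rcases (ho _ _).1 hs with ⟨rfl, rfl⟩ | ⟨rfl, rfl⟩ | ⟨rfl, rfl⟩
        · obtain ⟨o1, o2, o3, o4, o5⟩ := own s b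
          refine ⟨by omega, fun r hr => ?_, ?_, ?_, fun hn => ?_⟩
          · have := o2 r hr
            have := mn s₂ b₂ r (4 * s) hr.le
            have := mn s₃ b₃ r (4 * s) hr.le
            omega
          · have := mn s₂ b₂ (4 * s) (4 * s + 1) (by omega)
            have := mn s₃ b₃ (4 * s) (4 * s + 1) (by omega)
            omega
          · have := mn s₂ b₂ (4 * s + 1) (4 * s + 2) (by omega)
            have := mn s₃ b₃ (4 * s + 1) (4 * s + 2) (by omega)
            omega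
          · have := o5 hn
            have := mn s₂ b₂ (4 * s + 2) (4 * s + 3) (by omega)
            have := mn s₃ b₃ (4 * s + 2) (4 * s + 3) (by omega)
            omega
        · obtain ⟨o1, o2, o3, o4, o5⟩ := own s b
          refine ⟨by omega, fun r hr => ?_, ?_, ?_, fun hn => ?_⟩
          · have := o2 r hr
            have := mn s₁ b₁ r (4 * s) hr.le
            have := mn s₃ b₃ r (4 * s) hr.le
            omega
          · have := mn s₁ b₁ (4 * s) (4 * s + 1) (by omega)
            have := mn s₃ b₃ (4 * s) (4 * s + 1) (by omega)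
            omega
          · have := mn s₁ b₁ (4 * s + 1) (4 * s + 2) (by omega)
            have := mn s₃ b₃ (4 * s + 1) (4 * s + 2) (by omega)
            omega
          · have := o5 hn
            have := mn s₁ b₁ (4 * s + 2) (4 * s + 3) (by omega)
            have := mn s₃ b₃ (4 * s + 2) (4 * s + 3) (by omega)
            omega
        · obtain ⟨o1, o2, o3, o4, o5⟩ := own s b
          refine ⟨by omega, fun r hr => ?_, ?_, ?_, fun hn => ?_⟩
          · have := o2 r hr
            have := mn s₁ b₁ r (4 * s) hr.le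
            have := mn s₂ b₂ r (4 * s) hr.le
            omega
          · have := mn s₁ b₁ (4 * s) (4 * s + 1) (by omega)
            have := mn s₂ b₂ (4 * s) (4 * s + 1) (by omega)
            omega
          · have := mn s₁ b₁ (4 * s + 1) (4 * s + 2) (by omega)
            have := mn s₂ b₂ (4 * s + 1) (4 * s + 2) (by omega)
            omega
          · have := o5 hn
            have := mn s₁ b₁ (4 * s + 2) (4 * s + 3) (by omega)
            have := mn s₂ b₂ (4 * s + 2) (4 * s + 3) (by omega)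
            omega
    · refine ⟨fun _ => 0, fun _ _ _ => le_rfl, fun _ => Nat.zero_le _, fun s b h => ?_⟩
      exact absurd ⟨s, b, h⟩ hq
  choose δ h using one
  exact ⟨δ,
    { mono := fun q => (h q).1
      bd := fun q => (h q).2.1
      a0 := fun q s b ho => ((h q).2.2 s b ho).1
      a1 := fun q s b ho => ((h q).2.2 s b ho).2.1
      b1 := fun q s b ho => ((h q).2.2 s b ho).2.2.1
      c1 := fun q s b ho => ((h q).2.2 s b ho).2.2.2.1
      d1 := fun q s b ho => ((h q).2.2 s b ho).2.2.2.2 }⟩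

end Pool.Agent.H68.Sq.Dt
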