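import Pool.Agent.H68.Sq.Comp2
import Pool.Agent.H68.Sq.Count
import Pool.Agent.H68.NPH.Prog

/-!
The graph of the reduction on numbers.
-/

namespace Pool.Agent.H68.Sq

open Pool.Agent.H68.OQP (graphOf)

/-- representability by lattice squares of side `k` -/
def SqG {V : Type*} (k : ℕ) (G : SimpleGraph V) : Prop :=
  ∃ p : V → ℤ × ℤ, ∀ u v, u ≠ v → (G.Adj u v ↔ Nr k (p u) (p v))

namespace Dt

variable {D : Dt}

/-- endpoints of edges are vertices -/
theorem ed_rl (hD : D.Ok) {u v : Vx} (h : D.Ed u v) : D.rl u ∧ D.rl v := by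
  have hm := m_ge hD
  have hk := hD.k1
  cases h with
  | diag X Y x y hx hy h0 h1 h2 => exact ⟨h1, h2⟩
  | anti X Y x y hx hy h0 h1 h2 => exact ⟨h1, h2⟩
  | left i c d hi hc h2 hd =>
    refine ⟨rl_tooth hi hc h2, ?_⟩
    have := y0_le hi hc h2 hk
    simp only [rl, cR]
    omega
  | right i c d hi hc h2 hd =>
    refine ⟨rl_tooth' hi hc h2, ?_⟩
    have := y0_le hi hc h2 hk
    simp only [rl, cR]
    omega
  | step i c j hi hc h2 hj =>
    exact ⟨⟨hi, hc, by omega, Or.inl ⟨rfl, fun h => absurd h h2⟩⟩,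
      ⟨hi, hc, by omega, Or.inl ⟨rfl, fun h => absurd h h2⟩⟩⟩
  | step2 i j hi hj =>
    exact ⟨rl_t hi (by omega) (by omega) (by omega), rl_t hi (by omega) (by omega) (by omega)⟩
  | hubL i hi =>
    exact ⟨rl_tooth hi (by omega) (by omega), rl_t hi (by omega) (by omega) (by omega)⟩
  | hubR i hi =>
    exact ⟨rl_t hi (by omega) (by omega) (by omega), rl_tooth' hi (by omega) (by omega)⟩
  | cpL i c j h =>
    obtain ⟨h1, h2, h3, h4⟩ := fl_col hD h
    exact ⟨rl_t h1 (by omega) (by omega) (by omega), rl_fl hD h⟩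
  | cpR i c j h =>
    obtain ⟨h1, h2, h3, h4⟩ := fl_col hD h
    exact ⟨rl_fl hD h, rl_t h1 (by omega) (by omega) (by omega)⟩

/-- the number of columns of cells -/
def wx (D : Dt) : ℕ := D.wd + 6 * D.k + 1
/-- the number of rows of cells -/
def hy (D : Dt) : ℕ := D.H + 4 * D.k + 1
/-- the number of a vertex -/
def num (D : Dt) : Vx → ℕ
  | .c X Y => Y * D.wx + X
  | .t i c j z => D.hy * D.wx + (((4 * i + c) * (D.m + 1) + j) * 2 + z)
/-- the number of vertices -/
def tot (D : Dt) : ℕ := D.hy * D.wx + 4 * D.n * (D.m + 1) * 2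

theorem radix {a b c a' c' : ℕ} (h : a * b + c = a' * b + c') (hc : c < b) (hc' : c' < b) :
    a = a' ∧ c = c' := by
  have h1 : (a * b + c) / b = a := by
    rw [Nat.mul_comm, Nat.mul_add_div (by omega), Nat.div_eq_of_lt hc, Nat.add_zero]
  have h2 : (a' * b + c') / b = a' := by
    rw [Nat.mul_comm, Nat.mul_add_div (by omega), Nat.div_eq_of_lt hc', Nat.add_zero]
  rw [h, h2] at h1
  subst h1
  omega

theorem cell_num {X Y : ℕ} (h : D.cR X Y) : X < D.wx ∧ Y * D.wx + X < D.hy * D.wx := by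
  unfold cR at h
  have h1 : (Y + 1) * D.wx ≤ D.hy * D.wx := Nat.mul_le_mul_right _ (by unfold hy; omega)
  rw [Nat.add_mul, Nat.one_mul] at h1
  have h2 : X < D.wx := by unfold wx; omega
  omega

theorem num_lt {u : Vx} (h : D.rl u) : D.num u < D.tot := by
  cases u with
  | c X Y =>
    have := cell_num h
    simp only [num, tot]
    omega
  | t i c j z =>
    obtain ⟨hi, hc, hj, hz⟩ := h
    simp only [num, tot]
    have h1 : (4 * i + c + 1) * (D.m + 1) ≤ 4 * D.n * (D.m + 1) :=
      Nat.mul_le_mul_right _ (by omega)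
    rw [Nat.add_mul (4 * i + c) 1, Nat.one_mul] at h1
    omega

theorem num_inj {u v : Vx} (hu : D.rl u) (hv : D.rl v) (h : D.num u = D.num v) :
    u = v := by
  cases u with
  | c X Y =>
    have h1 := cell_num hu
    cases v with
    | c X' Y' =>
      have h2 := cell_num hv
      obtain ⟨rfl, rfl⟩ := radix h h1.1 h2.1
      rfl
    | t i c j z =>
      simp only [num] at h
      omega
  | t i c j z =>
    obtain ⟨hi, hc, hj, hz⟩ := hu
    cases v with
    | c X' Y' =>
      have h2 := cell_num hv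
      simp only [num] at h
      omega
    | t i' c' j' z' =>
      obtain ⟨hi', hc', hj', hz'⟩ := hv
      simp only [num] at h
      have h1 := radix (a := (4 * i + c) * (D.m + 1) + j) (b := 2) (c := z)
        (a' := (4 * i' + c') * (D.m + 1) + j') (c' := z') (by omega) (by omega) (by omega)
      have h2 := radix h1.1 (by omega) (by omega)
      obtain ⟨h3, rfl⟩ := h2
      obtain ⟨-, rfl⟩ := h1
      have h4 : i = i' := by omega
      have h5 : c = c' := by omega
      subst h4 h5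
      rfl

/-- the numbered graph is representable iff the abstract graph is -/
theorem lift (hD : D.Ok) {L : List (ℕ × ℕ)}
    (hL : ∀ x y, (x, y) ∈ L ↔ ∃ u v, D.Ed u v ∧ x = D.num u ∧ y = D.num v) :
    SqG D.k (graphOf (D.tot, L)) ↔ ∃ P, D.Rp P := by
  classical
  have hmem : ∀ u v, D.rl u → D.rl v → ((D.num u, D.num v) ∈ L ↔ D.Ed u v) := by
    intro u v hu hv
    rw [hL]
    constructor
    · rintro ⟨u', v', he, e1, e2⟩
      obtain ⟨r1, r2⟩ := ed_rl hD he
      rw [num_inj hu r1 e1, num_inj hv r2 e2]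
      exact he
    · intro he
      exact ⟨u, v, he, rfl, rfl⟩
  constructor
  · rintro ⟨p, hp⟩
    refine ⟨fun u => if h : D.num u < D.tot then p ⟨D.num u, h⟩ else 0, ?_⟩
    intro u v hu hv hne
    have lu := num_lt hu
    have lv := num_lt hv
    have hnn : D.num u ≠ D.num v := fun h => hne (num_inj hu hv h)
    have := hp ⟨D.num u, lu⟩ ⟨D.num v, lv⟩ (by
      intro he
      injection he with he
      exact hnn he)
    dsimp only
    rw [dif_pos lu, dif_pos lv, ← this]
    simp only [graphOf, SimpleGraph.fromRel_adj]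
    rw [hmem u v hu hv, hmem v u hv hu]
    constructor
    · intro h
      refine ⟨?_, h⟩
      intro he
      injection he with he
      exact hnn he
    · exact fun h => h.2
  · rintro ⟨P, hP⟩
    let f : Fin D.tot → ℤ × ℤ := fun i =>
      if h : ∃ u, D.rl u ∧ D.num u = i then P h.choose else 0
    let S : ℤ := ∑ i, |(f i).1|
    have hf : ∀ u, D.rl u → ∀ h : D.num u < D.tot, f ⟨D.num u, h⟩ = P u := by
      intro u hu h
      have hex : ∃ v, D.rl v ∧ D.num v = ((⟨D.num u, h⟩ : Fin D.tot) : ℕ) := ⟨u, hu, rfl⟩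
      have : f ⟨D.num u, h⟩ = P hex.choose := dif_pos hex
      rw [this, num_inj hex.choose_spec.1 hu hex.choose_spec.2]
    have hS : ∀ i, -S ≤ (f i).1 := by
      intro i
      have h1 : |(f i).1| ≤ S := Finset.single_le_sum (f := fun i => |(f i).1|)
        (fun _ _ => abs_nonneg _) (Finset.mem_univ i)
      have h2 := neg_abs_le (f i).1
      omega
    refine ⟨fun i => if ∃ u, D.rl u ∧ D.num u = i then f i
      else (-S - (D.k + 1) * ((i : ℕ) + 1 : ℤ), 0), ?_⟩
    have iso : ∀ i j : Fin D.tot, (¬ ∃ u, D.rl u ∧ D.num u = i) →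
        ¬ (graphOf (D.tot, L)).Adj i j ∧ ¬ (graphOf (D.tot, L)).Adj j i := by
      intro i j hi
      simp only [graphOf, SimpleGraph.fromRel_adj]
      constructor
      · rintro ⟨-, h | h⟩
        · obtain ⟨u, v, he, e1, e2⟩ := (hL _ _).1 h
          exact hi ⟨u, (ed_rl hD he).1, e1.symm⟩
        · obtain ⟨u, v, he, e1, e2⟩ := (hL _ _).1 h
          exact hi ⟨v, (ed_rl hD he).2, e2.symm⟩
      · rintro ⟨-, h | h⟩
        · obtain ⟨u, v, he, e1, e2⟩ := (hL _ _).1 h
          exact hi ⟨v, (ed_rl hD he).2, e2.symm⟩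
        · obtain ⟨u, v, he, e1, e2⟩ := (hL _ _).1 h
          exact hi ⟨u, (ed_rl hD he).1, e1.symm⟩
    intro i j hne
    have hne' : (i : ℕ) ≠ j := fun h => hne (Fin.ext h)
    by_cases hi : ∃ u, D.rl u ∧ D.num u = i <;> by_cases hj : ∃ u, D.rl u ∧ D.num u = j
    · dsimp only
      rw [if_pos hi, if_pos hj]
      obtain ⟨u, hu, eu⟩ := hi
      obtain ⟨v, hv, ev⟩ := hj
      obtain ⟨i, li⟩ := i
      obtain ⟨j, lj⟩ := j
      dsimp only at eu ev hne'
      subst eu ev
      rw [hf u hu, hf v hv, ← hP u v hu hv (by rintro rfl; exact hne rfl)]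
      simp only [graphOf, SimpleGraph.fromRel_adj]
      rw [hmem u v hu hv, hmem v u hv hu]
      exact ⟨fun h => h.2, fun h => ⟨hne, h⟩⟩
    · dsimp only
      rw [if_pos hi, if_neg hj]
      refine iff_of_false (iso j i hj).2 ?_
      have h1 := hS i
      have h2 : ((D.k : ℤ) + 1) * 1 ≤ (D.k + 1) * ((j : ℕ) + 1 : ℤ) :=
        mul_le_mul_of_nonneg_left (by omega) (by omega)
      simp only [Nr]
      omega
    · dsimp only
      rw [if_neg hi, if_pos hj]
      refine iff_of_false (iso i j hi).1 ?_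
      have h1 := hS j
      have h2 : ((D.k : ℤ) + 1) * 1 ≤ (D.k + 1) * ((i : ℕ) + 1 : ℤ) :=
        mul_le_mul_of_nonneg_left (by omega) (by omega)
      simp only [Nr]
      omega
    · dsimp only
      rw [if_neg hi, if_neg hj]
      refine iff_of_false (iso i j hi).1 ?_
      simp only [Nr]
      rcases Nat.lt_or_ge (i : ℕ) (j : ℕ) with h | h
      · have h2 : ((D.k : ℤ) + 1) * (((i : ℕ) + 1 : ℤ) + 1) ≤ (D.k + 1) * ((j : ℕ) + 1 : ℤ) :=
          mul_le_mul_of_nonneg_left (by omega) (by omega)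
        rw [mul_add _ _ 1, mul_one] at h2
        omega
      · have h2 : ((D.k : ℤ) + 1) * (((j : ℕ) + 1 : ℤ) + 1) ≤ (D.k + 1) * ((i : ℕ) + 1 : ℤ) :=
          mul_le_mul_of_nonneg_left (by omega) (by omega)
        rw [mul_add _ _ 1, mul_one] at h2
        omega

/-- the numbered graph is representable iff there is a satisfying assignment -/
theorem main (hD : D.Ok) {L : List (ℕ × ℕ)}
    (hL : ∀ x y, (x, y) ∈ L ↔ ∃ u v, D.Ed u v ∧ x = D.num u ∧ y = D.num v) :
    SqG D.k (graphOf (D.tot, L)) ↔ ∃ t : ℕ → Prop, ∀ q, (∃ s b, D.occ q s b) →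
      ∃ s b, D.occ q s b ∧ tr t s b := by
  rw [lift hD hL]
  constructor
  · rintro ⟨P, hP⟩
    exact sound hD hP
  · rintro ⟨t, ht⟩
    exact complete hD t ht

end Dt

end Pool.Agent.H68.Sq
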