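import Pool.Agent.H68.Sq.Gen
import Pool.Agent.H68.Sq.Coord
import Pool.Agent.H68.NPH.Mem

/-!
Recognition of intersection graphs of lattice squares is in NP.
-/

namespace Pool.Agent.H68.Sq

open Pool.Agent.H68.OQP Pool.Agent.H68.NPH Pool.Agent.H1.NP Pool.Agent.H1.PNP

section defs

variable (k : ℕ)

/-- number of vertices -/
def xn' : Ex := .inp (.con 2)
/-- number of edges, from the certificate -/
def xe : Ex := .inp (.add (.con 2) (.inp (.con 1)))
def xa : Ex := .inp (.add (.con 3) (.mul (.con 2) (.var 0)))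
def xb : Ex := .inp (.add (.con 4) (.mul (.con 2) (.var 0)))
/-- the edge with index `var 0` joins `var 2` and `var 1` -/
def cE : Cd := .or ((Cd.eq xa (.var 2)).and (Cd.eq xb (.var 1)))
  ((Cd.eq xa (.var 1)).and (Cd.eq xb (.var 2)))
def xX (u : Ex) : Ex := .inp (.add (.add (.con 3) (.inp (.con 1))) (.mul (.con 2) u))
def xY (u : Ex) : Ex := .inp (.add (.add (.con 4) (.inp (.con 1))) (.mul (.con 2) u))
/-- nearness of the positions of `var 2` and `var 1` -/
def cN : Cd := (Cd.le (xX (.var 2)) (.add (xX (.var 1)) (.con k))).and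
  ((Cd.le (xX (.var 1)) (.add (xX (.var 2)) (.con k))).and
  ((Cd.le (xY (.var 2)) (.add (xY (.var 1)) (.con k))).and
    (Cd.le (xY (.var 1)) (.add (xY (.var 2)) (.con k)))))
/-- first stage -/
def gE : Ng := .seq (.el (.inp (.con 0)))
  (.seq (.cnt (.con 1) (.not (Cd.eq (.add (.con 1) (.mul (.con 2) xe)) (.inp (.con 1)))))
  (.seq (.el xn') (.loop xn' (.loop xn' (.seq (.cnt xe cE) (.cnt (.con 1) (cN k)))))))
def yi : Ex := .mul (.con 2) (.add (.mul (.var 1) xn') (.var 0))
def ya : Ex := .inp (.add (.con 3) yi)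
def yb : Ex := .inp (.add (.con 4) yi)
/-- second stage: violations -/
def gF : Ng := .seq (.cond (.not (.le (.inp (.con 0)) (.con 0))) (.el (.con 1)))
  (.seq (.cond (.not (.le (.inp (.con 1)) (.con 0))) (.el (.con 1)))
  (.loop xn' (.loop xn' (.cond ((Cd.not (Cd.eq (.var 1) (.var 0))).and
    (.or ((Cd.le ya (.con 0)).and (Cd.le (.con 1) yb))
      ((Cd.le (.con 1) ya).and (Cd.le yb (.con 0)))))
    (.el (.con 1))))))

/-- the verification -/
noncomputable def vf (l : List ℕ) : Bool :=
  decide (((gF.out ((gE k).out l []) []).getD 0 0) = 0)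

end defs

variable {k : ℕ}

theorem polyOn_vf : PolyOn unary (fun b : Bool => [b]) (vf k) :=
  (((polyOn_ng (gE k)).comp (polyOn_ng gF)).comp polyOn_check)

/-- an edge joins `u` and `v` -/
def Mt (l : List ℕ) (u v i : ℕ) : Prop :=
  (l.getD (3 + 2 * i) 0 = u ∧ l.getD (4 + 2 * i) 0 = v) ∨
    (l.getD (3 + 2 * i) 0 = v ∧ l.getD (4 + 2 * i) 0 = u)

/-- coordinates -/
def cX (l : List ℕ) (u : ℕ) : ℕ := l.getD (3 + l.getD 1 0 + 2 * u) 0
def cY (l : List ℕ) (u : ℕ) : ℕ := l.getD (4 + l.getD 1 0 + 2 * u) 0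

/-- near positions -/
def Nc (k : ℕ) (l : List ℕ) (u v : ℕ) : Prop :=
  cX l u ≤ cX l v + k ∧ cX l v ≤ cX l u + k ∧ cY l u ≤ cY l v + k ∧ cY l v ≤ cY l u + k

open Classical in
/-- the two numbers of a pair -/
noncomputable def en2 (k : ℕ) (l : List ℕ) (u v : ℕ) : List ℕ :=
  [((List.range (l.getD (2 + l.getD 1 0) 0)).filter (fun i => Mt l u v i)).length,
    ((List.range 1).filter (fun _ => Nc k l u v)).length]

open Classical in
theorem gE_out (l : List ℕ) : (gE k).out l [] = l.getD 0 0 ::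
    ((List.range 1).filter (fun _ => ¬ (1 + 2 * l.getD (2 + l.getD 1 0) 0 = l.getD 1 0))).length ::
    l.getD 2 0 :: (List.range (l.getD 2 0)).flatMap (fun u =>
      (List.range (l.getD 2 0)).flatMap (fun v => en2 k l u v)) := by
  have h1 : ∀ u v i, cE.tv l [i, v, u] ↔ Mt l u v i := by
    intro u v i
    simp only [cE, tv_or, tv_and, tv_eq]
    rfl
  have h2 : ∀ u v i, (cN k).tv l [i, v, u] ↔ Nc k l u v := by
    intro u v i
    simp only [cN, tv_and, tv_le]
    rfl
  have h3 : ∀ i, (Cd.not (Cd.eq (.add (.con 1) (.mul (.con 2) xe)) (.inp (.con 1)))).tv l [i] ↔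
      ¬ (1 + 2 * l.getD (2 + l.getD 1 0) 0 = l.getD 1 0) := by
    intro i
    simp only [tv_not, tv_eq]
    rfl
  change l.getD 0 0 :: ((List.range 1).filter (fun i => decide ((Cd.not (Cd.eq (.add (.con 1)
    (.mul (.con 2) xe)) (.inp (.con 1)))).tv l [i]))).length :: l.getD 2 0 ::
    (List.range (l.getD 2 0)).flatMap (fun u => (List.range (l.getD 2 0)).flatMap (fun v =>
      [((List.range (l.getD (2 + l.getD 1 0) 0)).filter (fun i => decide (cE.tv l
        [i, v, u]))).length, ((List.range 1).filter (fun i => decide ((cN k).tv l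
        [i, v, u]))).length])) = _
  simp only [h1, h2, h3]
  rfl

theorem pair_idx {n : ℕ} {f : ℕ → ℕ → List ℕ} (hf : ∀ u v, (f u v).length = 2) {u v j : ℕ}
    (hu : u < n) (hv : v < n) (hj : j < 2) :
    ((List.range n).flatMap (fun u => (List.range n).flatMap (fun v => f u v))).getD
      (2 * (u * n + v) + j) 0 = (f u v).getD j 0 := by
  have hl : ∀ u, ((List.range n).flatMap (fun v => f u v)).length = 2 * n := by
    intro u
    rw [List.length_flatMap]
    have : (List.range n).map (fun v => (f u v).length) = List.replicate n 2 := by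
      rw [List.map_congr_left (fun v _ => hf u v)]
      simp
    rw [this]
    simp [Nat.mul_comm]
  have h1 := getD_flatMap (w := 2 * n) hl (List.range n) u (by simpa using hu) (2 * v + j)
    (by omega)
  have h2 := getD_flatMap (w := 2) (hf u) (List.range n) v (by simpa using hv) j hj
  rw [List.getElem_range] at h1 h2
  rw [← h2, ← h1]
  congr 1
  ring

theorem count_pos {n : ℕ} (p : ℕ → Prop) [DecidablePred p] :
    0 < ((List.range n).filter (fun i => p i)).length ↔ ∃ i < n, p i := by
  rw [List.length_pos_iff_exists_mem]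
  simp

theorem vf_iff (l : List ℕ) : vf k l = true ↔ l.getD 0 0 = 0 ∧
    1 + 2 * l.getD (2 + l.getD 1 0) 0 = l.getD 1 0 ∧
    ∀ u < l.getD 2 0, ∀ v < l.getD 2 0, u ≠ v →
      ((∃ i < l.getD (2 + l.getD 1 0) 0, Mt l u v i) ↔ Nc k l u v) := by
  classical
  unfold vf
  rw [decide_eq_true_iff, getD_zero_iff (by
    intro a ha
    simp only [gF, Ng.mem_seq, Ng.mem_cond, Ng.mem_loop, Ng.mem_el, Ex.val] at ha
    rcases ha with ⟨-, h⟩ | ⟨-, h⟩ | ⟨_, _, _, _, -, h⟩ <;> exact h)]
  set A := (gE k).out l [] with hA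
  rw [gE_out] at hA
  have a0 : A.getD 0 0 = l.getD 0 0 := by rw [hA]; rfl
  have a1 : A.getD 1 0 = 0 ↔ 1 + 2 * l.getD (2 + l.getD 1 0) 0 = l.getD 1 0 := by
    rw [hA, List.getD_cons_succ, List.getD_cons_zero]
    by_cases h : 1 + 2 * l.getD (2 + l.getD 1 0) 0 = l.getD 1 0
    · simp [h]
    · simp [h]
  have a2 : A.getD 2 0 = l.getD 2 0 := by rw [hA]; rfl
  have a3 : ∀ u < l.getD 2 0, ∀ v < l.getD 2 0, ∀ j < 2,
      A.getD (3 + j + 2 * (u * l.getD 2 0 + v)) 0 = (en2 k l u v).getD j 0 := by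
    intro u hu v hv j hj
    rw [show 3 + j + 2 * (u * l.getD 2 0 + v) = (2 * (u * l.getD 2 0 + v) + j) + 1 + 1 + 1 by ring,
      hA, List.getD_cons_succ, List.getD_cons_succ, List.getD_cons_succ]
    exact pair_idx (fun _ _ => rfl) hu hv hj
  clear_value A
  clear hA
  rw [List.eq_nil_iff_forall_not_mem]
  constructor
  · intro h
    have h1 := h 1
    simp only [gF, Ng.mem_seq, Ng.mem_cond, Ng.mem_loop, Ng.mem_el, Ex.val, tv_not, tv_le, tv_and,
      tv_or, tv_eq, xn', ya, yb, yi, a0, a2] at h1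
    push Not at h1
    obtain ⟨h2, h3, h4⟩ := h1
    refine ⟨?_, ?_, ?_⟩
    · by_contra hc
      exact h2 (by omega)
    · rw [← a1]
      by_contra hc
      exact h3 (by omega)
    · intro u hu v hv huv
      have e0 := a3 u hu v hv 0 (by omega)
      have e1 := a3 u hu v hv 1 (by omega)
      have hp := count_pos (n := l.getD (2 + l.getD 1 0) 0) (fun i => Mt l u v i)
      have hq := count_pos (n := 1) (fun _ => Nc k l u v)
      have h5 := h4 u hu v hv
      simp only [List.getD_cons_zero, List.getD_cons_succ] at h5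
      simp only [Nat.add_zero, en2, List.getD_cons_zero, List.getD_cons_succ] at e0 e1
      rw [show (3 + 1 : ℕ) = 4 from rfl] at e1
      rw [e0, e1] at h5
      rw [← hp]
      have hq' : 0 < ((List.range 1).filter (fun _ => decide (Nc k l u v))).length ↔
          Nc k l u v := by
        rw [hq]
        constructor
        · rintro ⟨_, _, h⟩
          exact h
        · intro h
          exact ⟨0, by omega, h⟩
      rw [← hq']
      by_contra hc
      exact h5 ⟨huv, by omega⟩
  · rintro ⟨h0, h1, h2⟩ a ha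
    simp only [gF, Ng.mem_seq, Ng.mem_cond, Ng.mem_loop, Ng.mem_el, Ex.val, tv_not, tv_le, tv_and,
      tv_or, tv_eq, xn', ya, yb, yi, a0, a2] at ha
    rcases ha with ⟨h, -⟩ | ⟨h, -⟩ | ⟨u, hu, v, hv, ⟨huv, h⟩, -⟩
    · omega
    · have := a1.2 h1
      omega
    · simp only [List.getD_cons_zero, List.getD_cons_succ] at huv h
      have e0 := a3 u hu v hv 0 (by omega)
      have e1 := a3 u hu v hv 1 (by omega)
      have hp := count_pos (n := l.getD (2 + l.getD 1 0) 0) (fun i => Mt l u v i)
      have hq := count_pos (n := 1) (fun _ => Nc k l u v)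
      simp only [Nat.add_zero, en2, List.getD_cons_zero, List.getD_cons_succ] at e0 e1
      rw [show (3 + 1 : ℕ) = 4 from rfl] at e1
      rw [e0, e1] at h
      have hq' : 0 < ((List.range 1).filter (fun _ => decide (Nc k l u v))).length ↔
          Nc k l u v := by
        rw [hq]
        constructor
        · rintro ⟨_, _, h⟩
          exact h
        · intro h
          exact ⟨0, by omega, h⟩
      have h5 := h2 u hu v hv huv
      rw [← hp, ← hq'] at h5
      omega

end Pool.Agent.H68.Sq
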