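import Pool.Agent.H68.Sq.Np

/-!
Recognition of intersection graphs of lattice squares is in NP.
-/

namespace Pool.Agent.H68.Sq

open Pool.Agent.H68.OQP Pool.Agent.H68.NPH Pool.Agent.H1.NP Pool.Agent.H1.PNP

variable {k : ℕ}

/-- the numbers of a graph -/
def sg (g : ℕ × List (ℕ × ℕ)) : List ℕ := g.1 :: g.2.flatMap (fun e => [e.1, e.2])

theorem encG_eq (g : ℕ × List (ℕ × ℕ)) : encG g = unary (sg g) := rfl

theorem sg_len (g : ℕ × List (ℕ × ℕ)) : (sg g).length = 1 + 2 * g.2.length := by
  unfold sg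
  rw [List.length_cons, List.length_flatMap]
  have : (g.2.map (fun e => ([e.1, e.2] : List ℕ).length)).sum = 2 * g.2.length := by
    induction g.2 with
    | nil => rfl
    | cons b x ih => simp only [List.map_cons, List.sum_cons, ih, List.length_cons]; simp; ring
  rw [this]
  ring

theorem sg_get (g : ℕ × List (ℕ × ℕ)) {i : ℕ} (hi : i < g.2.length) :
    (sg g).getD (1 + 2 * i) 0 = (g.2[i]).1 ∧ (sg g).getD (2 + 2 * i) 0 = (g.2[i]).2 := by
  have h : ∀ j < 2, (sg g).getD (2 * i + j + 1) 0 = ([(g.2[i]).1, (g.2[i]).2] : List ℕ).getD j 0 := by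
    intro j hj
    unfold sg
    rw [List.getD_cons_succ]
    exact getD_flatMap (w := 2) (f := fun e : ℕ × ℕ => [e.1, e.2]) (fun a => rfl) g.2 i hi j hj
  constructor
  · have := h 0 (by omega)
    rw [show 1 + 2 * i = 2 * i + 0 + 1 by ring, this]
    rfl
  · have := h 1 (by omega)
    rw [show 2 + 2 * i = 2 * i + 1 + 1 by ring, this]
    rfl

/-- the check on a graph followed by further numbers -/
theorem vf_graph (g : ℕ × List (ℕ × ℕ)) (d : List ℕ) :
    vf k (0 :: (sg g).length :: (sg g ++ d)) = true ↔ d.getD 0 0 = g.2.length ∧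
      ∀ u v : Fin g.1, u ≠ v → ((graphOf g).Adj u v ↔
        ((d.getD (1 + 2 * u) 0 ≤ d.getD (1 + 2 * v) 0 + k ∧
          d.getD (1 + 2 * v) 0 ≤ d.getD (1 + 2 * u) 0 + k) ∧
         (d.getD (2 + 2 * u) 0 ≤ d.getD (2 + 2 * v) 0 + k ∧
          d.getD (2 + 2 * v) 0 ≤ d.getD (2 + 2 * u) 0 + k))) := by
  set N := 0 :: (sg g).length :: (sg g ++ d) with hN
  have n0 : N.getD 0 0 = 0 := rfl
  have n1 : N.getD 1 0 = (sg g).length := rfl
  have n2 : ∀ i, N.getD (i + 2) 0 = (sg g ++ d).getD i 0 := fun i => rfl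
  have n3 : ∀ i < (sg g).length, N.getD (i + 2) 0 = (sg g).getD i 0 := by
    intro i hi
    rw [n2, List.getD_append _ _ _ _ hi]
  have n4 : ∀ i, N.getD (2 + (sg g).length + i) 0 = d.getD i 0 := by
    intro i
    rw [show 2 + (sg g).length + i = ((sg g).length + i) + 2 by ring, n2,
      List.getD_append_right _ _ _ _ (by omega)]
    congr 1
    omega
  have hl := sg_len g
  have n5 : N.getD 2 0 = g.1 := rfl
  rw [vf_iff, n0, n1, n5]
  have e0 : N.getD (2 + (sg g).length) 0 = d.getD 0 0 := n4 0
  rw [e0]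
  have hx : ∀ u, cX N u = d.getD (1 + 2 * u) 0 := by
    intro u
    unfold cX
    rw [n1, ← n4]
    congr 1
    ring
  have hy : ∀ u, cY N u = d.getD (2 + 2 * u) 0 := by
    intro u
    unfold cY
    rw [n1, ← n4]
    congr 1
    ring
  have hnc : ∀ u v, Nc k N u v ↔ ((d.getD (1 + 2 * u) 0 ≤ d.getD (1 + 2 * v) 0 + k ∧
          d.getD (1 + 2 * v) 0 ≤ d.getD (1 + 2 * u) 0 + k) ∧
         (d.getD (2 + 2 * u) 0 ≤ d.getD (2 + 2 * v) 0 + k ∧
          d.getD (2 + 2 * v) 0 ≤ d.getD (2 + 2 * u) 0 + k)) := by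
    intro u v
    unfold Nc
    rw [hx, hx, hy, hy]
    tauto
  have hadj : ∀ u v : Fin g.1, u ≠ v → ((graphOf g).Adj u v ↔
      ∃ i < g.2.length, Mt N u v i) := by
    intro u v huv
    unfold graphOf
    rw [SimpleGraph.fromRel_adj]
    have hm : ∀ i (hi : i < g.2.length), Mt N u v i ↔ (((u : ℕ), (v : ℕ)) = g.2[i] ∨
        ((v : ℕ), (u : ℕ)) = g.2[i]) := by
      intro i hi
      unfold Mt
      have h1 := (sg_get g hi).1
      have h2 := (sg_get g hi).2
      have f1 : N.getD (3 + 2 * i) 0 = (g.2[i]).1 := by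
        rw [show 3 + 2 * i = (1 + 2 * i) + 2 by ring, n3 _ (by omega), h1]
      have f2 : N.getD (4 + 2 * i) 0 = (g.2[i]).2 := by
        rw [show 4 + 2 * i = (2 + 2 * i) + 2 by ring, n3 _ (by omega), h2]
      rw [f1, f2, Prod.ext_iff, Prod.ext_iff]
      constructor
      · rintro (⟨h1, h2⟩ | ⟨h1, h2⟩)
        · exact Or.inl ⟨h1.symm, h2.symm⟩
        · exact Or.inr ⟨h1.symm, h2.symm⟩
      · rintro (⟨h1, h2⟩ | ⟨h1, h2⟩)
        · exact Or.inl ⟨h1.symm, h2.symm⟩
        · exact Or.inr ⟨h1.symm, h2.symm⟩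
    constructor
    · rintro ⟨-, h | h⟩
      · obtain ⟨i, hi, h'⟩ := List.getElem_of_mem h
        exact ⟨i, hi, (hm i hi).2 (Or.inl h'.symm)⟩
      · obtain ⟨i, hi, h'⟩ := List.getElem_of_mem h
        exact ⟨i, hi, (hm i hi).2 (Or.inr h'.symm)⟩
    · rintro ⟨i, hi, h⟩
      refine ⟨huv, ?_⟩
      rcases (hm i hi).1 h with h | h
      · exact Or.inl (h ▸ List.getElem_mem hi)
      · exact Or.inr (h ▸ List.getElem_mem hi)
  constructor
  · rintro ⟨-, h1, h2⟩
    have hd : d.getD 0 0 = g.2.length := by omega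
    refine ⟨hd, fun u v huv => ?_⟩
    rw [hadj u v huv, ← hnc, ← hd]
    exact h2 u u.2 v v.2 (fun h => huv (Fin.ext h))
  · rintro ⟨hd, h2⟩
    refine ⟨rfl, by omega, fun u hu v hv huv => ?_⟩
    have huv' : (⟨u, hu⟩ : Fin g.1) ≠ ⟨v, hv⟩ := fun h => huv (congrArg Fin.val h)
    have := h2 ⟨u, hu⟩ ⟨v, hv⟩ huv'
    rw [hadj _ _ huv', ← hnc] at this
    rw [hd]
    exact this

theorem pairs_of_len : ∀ (e : ℕ) (l : List ℕ), l.length = 2 * e →
    ∃ L : List (ℕ × ℕ), L.flatMap (fun e => [e.1, e.2]) = l := by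
  intro e
  induction e with
  | zero =>
    intro l hl
    exact ⟨[], by rw [List.length_eq_zero_iff.1 hl]; rfl⟩
  | succ e ih =>
    intro l hl
    match l, hl with
    | [], hl => simp at hl
    | [a], hl => simp at hl; omega
    | a :: b :: l, hl =>
      obtain ⟨L, hL⟩ := ih l (by simp at hl; omega)
      exact ⟨(a, b) :: L, by rw [List.flatMap_cons, hL]; rfl⟩

theorem unary_length (l : List ℕ) : (unary l).length = l.sum + l.length := by
  induction l with
  | nil => rfl
  | cons a l ih =>
    rw [unary_cons', List.length_append, List.length_cons, ih, List.sum_cons, List.length_cons]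
    simp
    ring

theorem sum_le_of {B : ℕ} : ∀ (l : List ℕ), (∀ a ∈ l, a ≤ B) → l.sum ≤ l.length * B := by
  intro l
  induction l with
  | nil => intro _; simp
  | cons a l ih =>
    intro h
    rw [List.sum_cons, List.length_cons, Nat.add_mul, one_mul]
    have := h a (by simp)
    have := ih (fun b hb => h b (by simp [hb]))
    omega

/-- the polynomial bounding certificates -/
noncomputable def pl (k : ℕ) : Polynomial ℕ :=
  1 + Polynomial.C 3 * Polynomial.X + Polynomial.C (2 * (k + 1)) * Polynomial.X ^ 2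

theorem pl_eval (X : ℕ) : (pl k).eval X = 1 + 3 * X + 2 * (k + 1) * X ^ 2 := by
  simp [pl]

/-- the recognition problem is in NP -/
theorem mem_np_sq {L : N68a2faeb.DecisionProblem}
    (hL : ∀ x, L x = true ↔ ∃ g, encG g = x ∧ SqG k (graphOf g)) : L ∈ N68a2faeb.NP := by
  refine mem_NP_num (pl k) (polyOn_vf (k := k)) (fun x => ?_)
  rw [hL]
  constructor
  · rintro ⟨g, rfl, q, hq⟩
    obtain ⟨X, hX1, hX2⟩ := compress k (fun u => (q u).1)
    obtain ⟨Y, hY1, hY2⟩ := compress k (fun u => (q u).2)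
    let c : List ℕ := g.2.length :: (List.finRange g.1).flatMap (fun u => [X u, Y u])
    have hc1 : c.length = 1 + 2 * g.1 := by
      change ((List.finRange g.1).flatMap (fun u => [X u, Y u])).length + 1 = _
      rw [List.length_flatMap]
      have : ((List.finRange g.1).map (fun u => ([X u, Y u] : List ℕ).length)) =
          List.replicate g.1 2 := by
        refine List.ext_getElem (by simp) (fun i h1 h2 => ?_)
        simp
      rw [this]
      simp
      ring
    have hc2 : ∀ j < 2, ∀ u : Fin g.1, (c ++ dec []).getD (2 * u + j + 1) 0 =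
        ([X u, Y u] : List ℕ).getD j 0 := by
      intro j hj u
      rw [List.getD_append _ _ _ _ (by rw [hc1]; omega)]
      change (g.2.length :: (List.finRange g.1).flatMap (fun u => [X u, Y u])).getD
        (2 * u + j + 1) 0 = _
      rw [List.getD_cons_succ]
      have := getD_flatMap (w := 2) (f := fun u => [X u, Y u]) (fun a => rfl)
        (List.finRange g.1) u (by simp) j hj
      rw [this]
      simp
    have hx : ∀ u : Fin g.1, (c ++ dec []).getD (1 + 2 * u) 0 = X u := by
      intro u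
      rw [show 1 + 2 * (u : ℕ) = 2 * u + 0 + 1 by ring, hc2 0 (by omega)]
      rfl
    have hy : ∀ u : Fin g.1, (c ++ dec []).getD (2 + 2 * u) 0 = Y u := by
      intro u
      rw [show 2 + 2 * (u : ℕ) = 2 * u + 1 + 1 by ring, hc2 1 (by omega)]
      rfl
    refine ⟨unary c, ?_, ?_⟩
    · rw [pl_eval, unary_length, hc1, encG_eq, unary_length, sg_len]
      have hs : c.sum ≤ g.2.length + 2 * g.1 * (g.1 * (k + 1)) := by
        change (g.2.length :: (List.finRange g.1).flatMap (fun u => [X u, Y u])).sum ≤ _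
        rw [List.sum_cons]
        have := sum_le_of (B := g.1 * (k + 1)) ((List.finRange g.1).flatMap (fun u => [X u, Y u]))
          (by
            intro a ha
            rw [List.mem_flatMap] at ha
            obtain ⟨u, -, h⟩ := ha
            simp at h
            rcases h with rfl | rfl
            · exact hX1 u
            · exact hY1 u)
        have hl : ((List.finRange g.1).flatMap (fun u => [X u, Y u])).length = 2 * g.1 := by
          have : c.length = ((List.finRange g.1).flatMap (fun u => [X u, Y u])).length + 1 := rfl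
          omega
        rw [hl] at this
        omega
      have hsg : g.1 ≤ (sg g).sum := by
        unfold sg
        rw [List.sum_cons]
        omega
      generalize (sg g).sum = S at hsg
      generalize g.2.length = e at hs ⊢
      generalize g.1 = n at hs hsg ⊢
      have h1 : n ≤ S + (1 + 2 * e) := by omega
      have h2 : n ^ 2 ≤ (S + (1 + 2 * e)) ^ 2 := Nat.pow_le_pow_left h1 2
      have h3 : 2 * n * (n * (k + 1)) = 2 * (k + 1) * n ^ 2 := by ring
      have h4 : 2 * (k + 1) * n ^ 2 ≤ 2 * (k + 1) * (S + (1 + 2 * e)) ^ 2 :=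
        Nat.mul_le_mul_left _ h2
      omega
    · rw [encG_eq]
      unfold nums
      rw [bad_unary (by simp [sg]), zc_unary, dec_unary, show unary c = unary c ++ [] by simp,
        dec_unary, vf_graph]
      refine ⟨rfl, fun u v huv => ?_⟩
      rw [hx, hx, hy, hy, ← hX2 u v, ← hY2 u v, hq u v huv]
      unfold Nr
      constructor
      · intro h
        omega
      · intro h
        omega
  · rintro ⟨w, -, h⟩
    have h0 := (vf_iff _).1 h
    have hb : bad x = 0 := h0.1
    obtain ⟨l, hl, rfl⟩ := eq_unary_of_bad hb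
    have h1 := h0.2.1
    unfold nums at h h1
    rw [zc_unary, dec_unary] at h h1
    rw [hb] at h
    simp only [List.getD_cons_zero, List.getD_cons_succ] at h1
    obtain ⟨n, l', rfl⟩ := List.exists_cons_of_ne_nil hl
    obtain ⟨L, hL⟩ := pairs_of_len (((bad (unary (n :: l')) :: (n :: l').length :: ((n :: l') ++
      dec w)).getD (2 + (n :: l').length) 0)) l' (by
        rw [List.length_cons] at h1 ⊢
        omega)
    subst hL
    have h' : vf k (0 :: (sg (n, L)).length :: (sg (n, L) ++ dec w)) = true := h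
    rw [vf_graph] at h'
    refine ⟨(n, L), rfl, fun u => (((dec w).getD (1 + 2 * u) 0 : ℕ), ((dec w).getD (2 + 2 * u) 0 : ℕ)),
      fun u v huv => ?_⟩
    rw [h'.2 u v huv]
    unfold Nr
    constructor
    · intro h
      simp only
      omega
    · intro h
      simp only at h
      omega

end Pool.Agent.H68.Sq
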