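import Pool.Agent.H68.Sq.Track

/-!
From a representation by lattice squares to a satisfying assignment: orders and heights.
-/

namespace Pool.Agent.H68.Sq.Dt

variable {D : Dt} {P : Vx → ℤ × ℤ}

/-- the height of a track in a column -/
def yv (D : Dt) (P : Vx → ℤ × ℤ) (i c j : ℕ) : ℤ := (P (D.ch i c j)).2

/-- one track is below another one -/
def Bw (D : Dt) (P : Vx → ℤ × ℤ) (i c i' c' : ℕ) : Prop :=
  ∀ j, 0 < j → j < D.m → yv D P i c j + D.K ≤ yv D P i' c' j

theorem Nm.sepc (h : Nm D P) {i c i' c' j : ℕ} (hi : i < D.n) (hc : c < 4) (hi' : i' < D.n)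
    (hc' : c' < 4) (h0 : 0 < j) (h1 : j < D.m) (hne : ¬ (i = i' ∧ c = c')) :
    D.Sep (yv D P i c j) (yv D P i' c' j) := by
  unfold yv
  rw [ch_mid h0 h1, ch_mid h0 h1]
  refine h.sep (rl_t hi hc h0 h1) (rl_t hi' hc' h0 h1) (Or.inl rfl) ?_ ?_
  · intro he
    injection he with e1 e2
    exact hne ⟨e1, e2⟩
  · intro ha
    have := aj_tt ha
    omega

theorem Nm.ynear (h : Nm D P) {i c j : ℕ} (hi : i < D.n) (hc : c < 4) (hj : j < D.m) :
    yv D P i c j ≤ yv D P i c (j + 1) + D.k ∧ yv D P i c (j + 1) ≤ yv D P i c j + D.k := by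
  have := h.step hi hc hj
  unfold yv
  simp only [Nr] at this
  omega

/-- the order of tracks is given by their ends -/
theorem Nm.bw (h : Nm D P) {i c i' c' : ℕ} (hi : i < D.n) (hc : c < 4) (hi' : i' < D.n)
    (hc' : c' < 4) (hne : ¬ (i = i' ∧ c = c')) (hy : yv D P i c 0 + D.K ≤ yv D P i' c' 0) :
    Bw D P i c i' c' := by
  have key : ∀ j, j < D.m → yv D P i c j + D.K ≤ yv D P i' c' j := by
    intro j
    induction j with
    | zero => intro _; exact hy
    | succ j ih =>
      intro hj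
      exact ord_step (ih (by omega)) (h.ynear hi hc (by omega)).2 (h.ynear hi' hc' (by omega)).1
        (h.sepc hi hc hi' hc' (by omega) hj hne)
  exact fun j _ hj => key j hj

/-- the order of the branches is given by the first column -/
theorem Nm.bw1 (h : Nm D P) {i c i' c' : ℕ} (hi : i < D.n) (hc : c < 4) (hi' : i' < D.n)
    (hc' : c' < 4) (hne : ¬ (i = i' ∧ c = c')) (hy : yv D P i c 1 + D.K ≤ yv D P i' c' 1) :
    Bw D P i c i' c' := by
  have key : ∀ j, j + 1 < D.m → yv D P i c (j + 1) + D.K ≤ yv D P i' c' (j + 1) := by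
    intro j
    induction j with
    | zero => intro _; exact hy
    | succ j ih =>
      intro hj
      exact ord_step (ih (by omega)) (h.ynear hi hc (by omega)).2 (h.ynear hi' hc' (by omega)).1
        (h.sepc hi hc hi' hc' (by omega) hj hne)
  intro j h0 hj
  obtain ⟨j', rfl⟩ : ∃ j', j = j' + 1 := ⟨j - 1, by omega⟩
  exact key j' hj

theorem Nm.y00 (h : Nm D P) {i c : ℕ} (hi : i < D.n) (hc : c < 4) :
    yv D P i c 0 = (D.y0 i (if c = 2 then 1 else c) : ℕ) := by
  unfold yv
  rw [h.ch0 hi hc]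

theorem Nm.bw_D (h : Nm D P) {i : ℕ} (hi : i + 1 < D.n) : Bw D P i 3 (i + 1) 0 := by
  refine h.bw (by omega) (by omega) hi (by omega) (by omega) ?_
  rw [h.y00 (by omega) (by omega), h.y00 (by omega) (by omega)]
  have : D.y0 i (if 3 = 2 then 1 else 3) + D.K ≤ D.y0 (i + 1) (if 0 = 2 then 1 else 0) := by
    simp only [y0]
    norm_num
    apply le_of_eq
    ring
  exact_mod_cast this

theorem Nm.bw_S (h : Nm D P) {i c : ℕ} (hi : i < D.n) (hc : c = 1 ∨ c = 2) : Bw D P i 0 i c := by
  refine h.bw hi (by omega) hi (by omega) (by omega) ?_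
  rw [h.y00 hi (by omega), h.y00 hi (by omega)]
  have : D.y0 i (if 0 = 2 then 1 else 0) + D.K ≤ D.y0 i (if c = 2 then 1 else c) := by
    have : (if c = 2 then 1 else c) = 1 := by split_ifs <;> omega
    rw [this]
    simp only [y0]
    norm_num
    have : (4 * i + 1 + 1) * D.K = (4 * i + 1) * D.K + D.K := by ring
    omega
  exact_mod_cast this

theorem Nm.bw_T (h : Nm D P) {i c : ℕ} (hi : i < D.n) (hc : c = 1 ∨ c = 2) : Bw D P i c i 3 := by
  refine h.bw hi (by omega) hi (by omega) (by omega) ?_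
  rw [h.y00 hi (by omega), h.y00 hi (by omega)]
  have : D.y0 i (if c = 2 then 1 else c) + D.K ≤ D.y0 i (if 3 = 2 then 1 else 3) := by
    have : (if c = 2 then 1 else c) = 1 := by split_ifs <;> omega
    rw [this]
    simp only [y0]
    norm_num
    have e1 : (4 * i + 1 + 1) * D.K = (4 * i + 2) * D.K := by ring
    have e2 : (4 * i + 3 + 1) * D.K = (4 * i + 2) * D.K + D.K + D.K := by ring
    have : D.K = D.k + 1 := rfl
    omega
  exact_mod_cast this

/-- the height of a copy -/
def yc (P : Vx → ℤ × ℤ) (i c j z : ℕ) : ℤ := (P (.t i c j z)).2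

theorem Nm.sepz (h : Nm D P) {i c i' c' j j' z : ℕ} (hf : D.fl i c j) (hz : z < 2)
    (hi' : i' < D.n) (hc' : c' < 4) (hj : j' = j ∨ j' = j + 1 ∨ j = j' + 1)
    (hne : ¬ (i = i' ∧ c = c')) : D.Sep (yc P i c j z) (yv D P i' c' j') := by
  obtain ⟨h1, h2, h3, h4⟩ := fl_col h.ok hf
  unfold yv yc
  rw [ch_mid (by omega) (by omega)]
  refine h.sep ?_ (rl_t hi' hc' (by omega) (by omega)) hj ?_ ?_
  · rcases Nat.lt_or_ge z 1 with h | h'
    · obtain rfl : z = 0 := by omega
      exact rl_t h1 (by omega) (by omega) (by omega)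
    · obtain rfl : z = 1 := by omega
      exact rl_fl h.ok hf
  · intro he
    injection he with e1 e2
    exact hne ⟨e1, e2⟩
  · intro ha
    have := aj_tt ha
    omega

/-- a copy is below the tracks above -/
theorem Nm.up (h : Nm D P) {i c i' c' j j' z : ℕ} (hf : D.fl i c j) (hz : z < 2)
    (hi' : i' < D.n) (hc' : c' < 4) (hj : j' = j + 1 ∨ j = j' + 1) (hb : Bw D P i c i' c')
    (hne : ¬ (i = i' ∧ c = c')) : yc P i c j z + D.K ≤ yv D P i' c' j' := by
  obtain ⟨h1, h2, h3, h4⟩ := fl_col h.ok hf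
  have e : ∀ l, 0 < l → l < D.m → yv D P i c l = yc P i c l 0 := by
    intro l h0 hl; unfold yv yc; rw [ch_mid h0 hl]
  have same : yc P i c j z + D.K ≤ yv D P i' c' j := by
    rcases Nat.lt_or_ge z 1 with hz' | hz'
    · obtain rfl : z = 0 := by omega
      rw [← e j (by omega) (by omega)]
      exact hb j (by omega) (by omega)
    · obtain rfl : z = 1 := by omega
      obtain ⟨l, rfl⟩ : ∃ l, j = l + 1 := ⟨j - 1, by omega⟩
      have hl := hb l (by omega) (by omega)
      have hn := h.cpl hf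
      have hm := (h.ynear hi' hc' (j := l) (by omega)).1
      rw [e l (by omega) (by omega)] at hl
      refine ord_step hl ?_ hm (h.sepz hf hz hi' hc' (Or.inl rfl) hne)
      simp only [Nr] at hn
      unfold yc
      omega
  have hs := h.sepz hf hz hi' hc' (Or.inr hj) hne
  rcases hj with rfl | rfl
  · exact ord_step same (by omega) (h.ynear hi' hc' (by omega)).1 hs
  · exact ord_step same (by omega) (h.ynear hi' hc' (by omega)).2 hs

/-- a copy is above the tracks below -/
theorem Nm.dn (h : Nm D P) {i c i' c' j j' z : ℕ} (hf : D.fl i c j) (hz : z < 2)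
    (hi' : i' < D.n) (hc' : c' < 4) (hj : j' = j + 1 ∨ j = j' + 1) (hb : Bw D P i' c' i c)
    (hne : ¬ (i = i' ∧ c = c')) : yv D P i' c' j' + D.K ≤ yc P i c j z := by
  obtain ⟨h1, h2, h3, h4⟩ := fl_col h.ok hf
  have e : ∀ l, 0 < l → l < D.m → yv D P i c l = yc P i c l 0 := by
    intro l h0 hl; unfold yv yc; rw [ch_mid h0 hl]
  have same : yv D P i' c' j + D.K ≤ yc P i c j z := by
    rcases Nat.lt_or_ge z 1 with hz' | hz'
    · obtain rfl : z = 0 := by omega
      rw [← e j (by omega) (by omega)]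
      exact hb j (by omega) (by omega)
    · obtain rfl : z = 1 := by omega
      obtain ⟨l, rfl⟩ : ∃ l, j = l + 1 := ⟨j - 1, by omega⟩
      have hl := hb l (by omega) (by omega)
      have hn := h.cpl hf
      have hm := (h.ynear hi' hc' (j := l) (by omega)).2
      rw [e l (by omega) (by omega)] at hl
      refine ord_step hl hm ?_ (h.sepz hf hz hi' hc' (Or.inl rfl) hne).symm
      simp only [Nr] at hn
      unfold yc
      omega
  have hs := (h.sepz hf hz hi' hc' (Or.inr hj) hne).symm
  rcases hj with rfl | rfl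
  · exact ord_step same (h.ynear hi' hc' (by omega)).2 (by omega) hs
  · exact ord_step same (h.ynear hi' hc' (by omega)).1 (by omega) hs

/-- the two copies are separated -/
theorem Nm.sep01 (h : Nm D P) {i c j : ℕ} (hf : D.fl i c j) :
    D.Sep (yc P i c j 0) (yc P i c j 1) := by
  obtain ⟨h1, h2, h3, h4⟩ := fl_col h.ok hf
  unfold yc
  refine h.sep (rl_t h1 (by omega) (by omega) (by omega)) (rl_fl h.ok hf) (Or.inl rfl)
    (by simp) ?_
  intro ha
  have := aj_tt ha
  omega

/-- a doubled vertex is above the floor -/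
theorem Nm.floor (h : Nm D P) {i c j z : ℕ} (hf : D.fl i c j) (hz : z < 2) :
    (D.K : ℤ) ≤ yc P i c j z := by
  obtain ⟨h1, h2, h3, h4⟩ := fl_col h.ok hf
  have hK : D.K = D.k + 1 := rfl
  rcases Nat.lt_or_ge z 1 with hz' | hz'
  · obtain rfl : z = 0 := by omega
    have := (h.bound h1 (by omega : c < 4) j (by omega)).1
    rwa [ch_mid (by omega) (by omega)] at this
  · obtain rfl : z = 1 := by omega
    obtain ⟨l, rfl⟩ : ∃ l, j = l + 1 := ⟨j - 1, by omega⟩
    have hb := (h.bound h1 (by omega : c < 4) l (by omega)).1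
    rw [ch_mid (by omega) (by omega)] at hb
    have hn := h.cpl hf
    have hs := h.mid (rl_fl h.ok hf) (by omega) (by omega) (Or.inl rfl)
    simp only [Nr, Sep] at hn hs
    unfold yc
    push_cast at hs
    omega

end Pool.Agent.H68.Sq.Dt
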