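import Pool.Agent.H68.Sq.Block

/-!
Rigidity of a rectangular ring of lattice points.
-/

namespace Pool.Agent.H68.Sq

/-- the ring: a wall of thickness `2 k + 1` around the open rectangle `(-k, a + k) × (0, b)` -/
def Rn (k a b : ℤ) (z : ℤ × ℤ) : Prop :=
  -(3 * k) ≤ z.1 ∧ z.1 ≤ a + 3 * k ∧ -(2 * k) ≤ z.2 ∧ z.2 ≤ b + 2 * k ∧
    (z.1 ≤ -k ∨ a + k ≤ z.1 ∨ z.2 ≤ 0 ∨ b ≤ z.2)

variable {k a b : ℤ} {p : ℤ × ℤ → ℤ × ℤ}

/-- the map is the identity on the block around `c` -/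
def Gd (k : ℤ) (p : ℤ × ℤ → ℤ × ℤ) (c : ℤ × ℤ) : Prop := ∀ u, Nr k u c → p u = u

theorem gd_step (hk : 1 ≤ k) (h : ∀ u v, Rn k a b u → Rn k a b v → (Nr k (p u) (p v) ↔ Nr k u v))
    {c d : ℤ × ℤ} (hd : ∀ u, Nr k u d → Rn k a b u)
    (hc : Gd k p c) (hcd : d = c + (1, 0) ∨ d = c + (0, 1)) : Gd k p d := by
  obtain ⟨T, hT, hTu⟩ := block hk (p := p) (c := d)
    (fun u v hu hv => h u v (hd u hu) (hd v hv))
  have fx : ∀ u, Nr k u c → Nr k u d → T u = u := by
    intro u h1 h2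
    have := hTu u h2
    rwa [hc u h1] at this
  have hid : ∀ z, T z = z := by
    obtain ⟨c1, c2⟩ := c
    rcases hcd with rfl | rfl
    · refine hT.id_of (c1 + 1, c2) (σ := -1) (τ := 1) (by simp) (by simp) ?_ ?_ ?_ <;>
        refine fx _ ?_ ?_ <;> simp [Nr] <;> omega
    · refine hT.id_of (c1, c2 + 1) (σ := 1) (τ := -1) (by simp) (by simp) ?_ ?_ ?_ <;>
        refine fx _ ?_ ?_ <;> simp [Nr] <;> omega
  intro u hu
  have := hTu u hu
  rwa [hid] at this

theorem gd_right (hk : 1 ≤ k)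
    (h : ∀ u v, Rn k a b u → Rn k a b v → (Nr k (p u) (p v) ↔ Nr k u v))
    {x y x' : ℤ} (hc : Gd k p (x, y)) (hd : ∀ z u, x ≤ z → z ≤ x' → Nr k u (z, y) → Rn k a b u) :
    ∀ z, x ≤ z → z ≤ x' → Gd k p (z, y) := by
  intro z hz hz'
  obtain ⟨i, rfl⟩ : ∃ i : ℕ, z = x + i := ⟨(z - x).toNat, by omega⟩
  clear hz
  induction i with
  | zero => simpa using hc
  | succ i ih =>
    refine gd_step hk h (c := (x + i, y)) ?_ (ih (by push_cast at hz'; omega)) (Or.inl ?_)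
    · intro u hu
      exact hd _ u (by omega) hz' hu
    · simp only [Prod.mk_add_mk, Nat.cast_succ]
      rw [Prod.mk.injEq]
      omega

theorem gd_up (hk : 1 ≤ k)
    (h : ∀ u v, Rn k a b u → Rn k a b v → (Nr k (p u) (p v) ↔ Nr k u v))
    {x y y' : ℤ} (hc : Gd k p (x, y)) (hd : ∀ z u, y ≤ z → z ≤ y' → Nr k u (x, z) → Rn k a b u) :
    ∀ z, y ≤ z → z ≤ y' → Gd k p (x, z) := by
  intro z hz hz'
  obtain ⟨i, rfl⟩ : ∃ i : ℕ, z = y + i := ⟨(z - y).toNat, by omega⟩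
  clear hz
  induction i with
  | zero => simpa using hc
  | succ i ih =>
    refine gd_step hk h (c := (x, y + i)) ?_ (ih (by push_cast at hz'; omega)) (Or.inr ?_)
    · intro u hu
      exact hd _ u (by omega) hz' hu
    · simp only [Prod.mk_add_mk, Nat.cast_succ]
      rw [Prod.mk.injEq]
      omega

/-- a map preserving nearness on a ring is undone by an isometry -/
theorem ring (hk : 1 ≤ k) (ha : 0 ≤ a) (hb : 0 ≤ b)
    (h : ∀ u v, Rn k a b u → Rn k a b v → (Nr k (p u) (p v) ↔ Nr k u v)) :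
    ∃ T, Iso T ∧ ∀ u, Rn k a b u → T (p u) = u := by
  obtain ⟨T, hT, hTu⟩ := block hk (p := p) (c := (-(2 * k), -k)) (by
    intro u v hu hv
    refine h u v ?_ ?_ <;> simp only [Nr, Rn] at hu hv ⊢ <;> omega)
  refine ⟨T, hT, ?_⟩
  have h' : ∀ u v, Rn k a b u → Rn k a b v → (Nr k (T (p u)) (T (p v)) ↔ Nr k u v) :=
    fun u v hu hv => (hT.near _ _).trans (h u v hu hv)
  have g0 : Gd k (fun u => T (p u)) (-(2 * k), -k) := fun u hu => hTu u hu
  have bot := gd_right hk h' g0 (x' := a + 2 * k) (by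
    intro z u h1 h2 h3
    simp only [Nr, Rn] at h3 ⊢
    omega)
  have left := gd_up hk h' g0 (y' := b + k) (by
    intro z u h1 h2 h3
    simp only [Nr, Rn] at h3 ⊢
    omega)
  have top := gd_right hk h' (left (b + k) (by omega) (by omega)) (x' := a + 2 * k) (by
    intro z u h1 h2 h3
    simp only [Nr, Rn] at h3 ⊢
    omega)
  have right := gd_up hk h' (bot (a + 2 * k) (by omega) (by omega)) (y' := b + k) (by
    intro z u h1 h2 h3
    simp only [Nr, Rn] at h3 ⊢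
    omega)
  intro u hu
  obtain ⟨x, y⟩ := u
  have hu' := hu
  simp only [Rn] at hu'
  obtain ⟨h1, h2, h3, h4, h5⟩ := hu'
  rcases h5 with h5 | h5 | h5 | h5
  · refine left (max (-k) (min y (b + k))) (by omega) (by omega) (x, y) ?_
    simp only [Nr]; omega
  · refine right (max (-k) (min y (b + k))) (by omega) (by omega) (x, y) ?_
    simp only [Nr]; omega
  · refine bot (max (-(2 * k)) (min x (a + 2 * k))) (by omega) (by omega) (x, y) ?_
    simp only [Nr]; omega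
  · refine top (max (-(2 * k)) (min x (a + 2 * k))) (by omega) (by omega) (x, y) ?_
    simp only [Nr]; omega

end Pool.Agent.H68.Sq
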