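import Pool.Agent.H68.Sq.Sound

/-!
From a representation by lattice squares to a satisfying assignment: tracks.
-/

namespace Pool.Agent.H68.Sq.Dt

variable {D : Dt} {P : Vx → ℤ × ℤ}

/-- the type of the vertex of a track in a column -/
def ty (D : Dt) (c j : ℕ) : ℕ := if c = 2 ∧ (j = 0 ∨ j = D.m) then 1 else c

/-- the vertices of a track -/
def ch (D : Dt) (i c j : ℕ) : Vx := .t i (D.ty c j) j 0

theorem ty_lt {c j : ℕ} (hc : c < 4) : D.ty c j < 4 := by
  unfold ty; split_ifs <;> omega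

theorem rl_ch {i c j : ℕ} (hi : i < D.n) (hc : c < 4) (hj : j ≤ D.m) : D.rl (D.ch i c j) := by
  refine ⟨hi, ty_lt hc, hj, Or.inl ⟨rfl, ?_⟩⟩
  unfold ty
  intro h
  split_ifs at h with h' <;> omega

theorem aj_ch (hD : D.Ok) {i c j : ℕ} (hi : i < D.n) (hc : c < 4) (hj : j < D.m) :
    D.Aj (D.ch i c j) (D.ch i c (j + 1)) := by
  have hm := m_ge hD
  by_cases h2 : c = 2
  · subst h2
    unfold ch ty
    rcases Nat.eq_zero_or_pos j with rfl | hj0
    · rw [if_pos (by omega), if_neg (by omega)]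
      exact Or.inl (.hubL i hi)
    · by_cases hj1 : j + 1 = D.m
      · rw [if_neg (by omega), if_pos (by omega)]
        have : j = D.m - 1 := by omega
        rw [hj1, this]
        exact Or.inl (.hubR i hi)
      · rw [if_neg (by omega), if_neg (by omega)]
        obtain ⟨j', rfl⟩ : ∃ j', j = j' + 1 := ⟨j - 1, by omega⟩
        exact Or.inl (.step2 i j' hi (by omega))
  · have e : ∀ j, D.ty c j = c := by intro j; unfold ty; rw [if_neg (by tauto)]
    unfold ch
    rw [e, e]
    exact Or.inl (.step i c j hi hc h2 hj)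

theorem ch_ne {i c j i' c' j' : ℕ} (h : j ≠ j') : D.ch i c j ≠ D.ch i' c' j' := by
  unfold ch
  intro he
  injection he with h1 h2 h3 h4
  exact h h3

/-- consecutive vertices are near -/
theorem Nm.step (h : Nm D P) {i c j : ℕ} (hi : i < D.n) (hc : c < 4) (hj : j < D.m) :
    Nr D.k (P (D.ch i c j)) (P (D.ch i c (j + 1))) :=
  (h.rp _ _ (rl_ch hi hc hj.le) (rl_ch hi hc hj) (ch_ne (by omega))).1 (aj_ch h.ok hi hc hj)

theorem ch_zero {i c : ℕ} : D.ch i c 0 = .t i (if c = 2 then 1 else c) 0 0 := by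
  unfold ch ty
  by_cases h : c = 2 <;> simp [h]

theorem ch_m {i c : ℕ} : D.ch i c D.m = .t i (if c = 2 then 1 else c) D.m 0 := by
  unfold ch ty
  by_cases h : c = 2 <;> simp [h]

theorem Nm.ch0 (h : Nm D P) {i c : ℕ} (hi : i < D.n) (hc : c < 4) :
    P (D.ch i c 0) = (0, (D.y0 i (if c = 2 then 1 else c) : ℤ)) := by
  rw [ch_zero]
  exact h.left hi (by split_ifs <;> omega) (by split_ifs <;> omega)

theorem Nm.chm (h : Nm D P) {i c : ℕ} (hi : i < D.n) (hc : c < 4) :
    P (D.ch i c D.m) = ((D.wd : ℤ), (D.y0 i (if c = 2 then 1 else c) : ℤ)) := by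
  rw [ch_m]
  exact h.right hi (by split_ifs <;> omega) (by split_ifs <;> omega)

/-- the horizontal coordinate of the vertices of a track -/
theorem Nm.xch (h : Nm D P) {i c : ℕ} (hi : i < D.n) (hc : c < 4) : ∀ j ≤ D.m,
    (P (D.ch i c j)).1 = D.k * j := by
  have up : ∀ j ≤ D.m, (P (D.ch i c j)).1 ≤ D.k * j := by
    intro j
    induction j with
    | zero =>
      intro _
      rw [h.ch0 hi hc]
      simp
    | succ j ih =>
      intro hj
      have h1 := ih (by omega)
      have h2 := (h.step hi hc (j := j) (by omega)).2.1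
      push_cast
      rw [mul_add, mul_one]
      omega
  have dn : ∀ d ≤ D.m, ∀ j, j + d = D.m → (D.wd : ℤ) - D.k * d ≤ (P (D.ch i c j)).1 := by
    intro d
    induction d with
    | zero =>
      intro _ j hj
      rw [Nat.add_zero] at hj
      subst hj
      rw [h.chm hi hc]
      simp
    | succ d ih =>
      intro hd j hj
      have h1 := ih (by omega) (j + 1) (by omega)
      have h2 := (h.step hi hc (j := j) (by omega)).2.1
      push_cast
      rw [mul_add, mul_one]
      omega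
  intro j hj
  refine le_antisymm (up j hj) ?_
  have := dn (D.m - j) (by omega) j (by omega)
  refine le_trans (le_of_eq ?_) this
  unfold wd
  rw [Nat.cast_sub hj]
  push_cast
  ring

theorem ch_mid {i c j : ℕ} (h0 : 0 < j) (h1 : j < D.m) : D.ch i c j = .t i c j 0 := by
  unfold ch ty
  rw [if_neg (by omega)]

theorem rl_t {i c j : ℕ} (hi : i < D.n) (hc : c < 4) (h0 : 0 < j) (h1 : j < D.m) :
    D.rl (.t i c j 0) := ⟨hi, hc, h1.le, Or.inl ⟨rfl, fun _ => ⟨h0, h1⟩⟩⟩

theorem rl_fl (hD : D.Ok) {i c j : ℕ} (h : D.fl i c j) : D.rl (.t i c j 1) := by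
  obtain ⟨h1, h2, h3, h4⟩ := fl_col hD h
  exact ⟨h1, by omega, by omega, Or.inr ⟨rfl, h⟩⟩

/-- copies are near to their neighbours -/
theorem Nm.cpl (h : Nm D P) {i c j : ℕ} (hf : D.fl i c (j + 1)) :
    Nr D.k (P (.t i c j 0)) (P (.t i c (j + 1) 1)) := by
  obtain ⟨h1, h2, h3, h4⟩ := fl_col h.ok hf
  exact (h.rp _ _ (rl_t h1 (by omega) (by omega) (by omega)) (rl_fl h.ok hf)
    (by simp)).1 (Or.inl (.cpL i c j hf))

theorem Nm.cpr (h : Nm D P) {i c j : ℕ} (hf : D.fl i c j) :
    Nr D.k (P (.t i c j 1)) (P (.t i c (j + 1) 0)) := by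
  obtain ⟨h1, h2, h3, h4⟩ := fl_col h.ok hf
  exact (h.rp _ _ (rl_fl h.ok hf) (rl_t h1 (by omega) (by omega) (by omega))
    (by simp)).1 (Or.inl (.cpR i c j hf))

/-- the horizontal coordinate of the track vertices -/
theorem Nm.xt (h : Nm D P) {i c j z : ℕ} (hr : D.rl (.t i c j z)) :
    (P (.t i c j z)).1 = D.k * j := by
  obtain ⟨hi, hc, hj, hz⟩ := hr
  rcases hz with ⟨rfl, hz⟩ | ⟨rfl, hf⟩
  · have : D.ch i c j = .t i c j 0 := by
      unfold ch ty
      rw [if_neg (by omega)]
    rw [← this]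
    exact h.xch hi hc j hj
  · obtain ⟨h1, h2, h3, h4⟩ := fl_col h.ok hf
    obtain ⟨j', rfl⟩ : ∃ j', j = j' + 1 := ⟨j - 1, by omega⟩
    have a := (h.cpl hf)
    have b := (h.cpr hf)
    have xa := h.xch hi hc j' (by omega)
    have xb := h.xch hi hc (j' + 1 + 1) (by omega)
    rw [ch_mid (by omega) (by omega)] at xa xb
    simp only [Nr] at a b
    push_cast at xa xb ⊢
    rw [mul_add, mul_add] at xb
    rw [mul_add]
    omega

/-- separated levels -/
def Sep (D : Dt) (a b : ℤ) : Prop := a + D.K ≤ b ∨ b + D.K ≤ a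

theorem Sep.symm {a b : ℤ} (h : D.Sep a b) : D.Sep b a := Or.symm h

/-- nonadjacent vertices in the same or neighbouring columns are separated -/
theorem Nm.sep (h : Nm D P) {i c j z i' c' j' z' : ℕ} (hu : D.rl (.t i c j z))
    (hv : D.rl (.t i' c' j' z')) (hj : j' = j ∨ j' = j + 1 ∨ j = j' + 1)
    (hne : (Vx.t i c j z) ≠ .t i' c' j' z') (ha : ¬ D.Aj (.t i c j z) (.t i' c' j' z')) :
    D.Sep (P (.t i c j z)).2 (P (.t i' c' j' z')).2 := by
  have hn := mt (h.rp _ _ hu hv hne).2 ha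
  have x1 := h.xt hu
  have x2 := h.xt hv
  have hK : D.K = D.k + 1 := rfl
  unfold Sep
  simp only [Nr] at hn
  rw [x1, x2] at hn
  have hx : (D.k : ℤ) * j ≤ D.k * j' + D.k ∧ (D.k : ℤ) * j' ≤ D.k * j + D.k := by
    rcases hj with rfl | rfl | rfl
    · constructor <;> omega
    · push_cast
      rw [mul_add, mul_one]
      constructor <;> omega
    · push_cast
      rw [mul_add, mul_one]
      constructor <;> omega
  push_cast [hK]
  omega

/-- vertices of the tracks are above the floor and below the ceiling -/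
theorem Nm.mid (h : Nm D P) {i c j z : ℕ} (hr : D.rl (.t i c j z)) (h0 : 0 < j) (h1 : j < D.m)
    {Y : ℕ} (hY : Y = 2 * D.k ∨ Y = D.H + 2 * D.k) :
    D.Sep (P (.t i c j z)).2 ((Y : ℤ) - 2 * D.k) := by
  have hkj : D.k * j ≤ D.k * D.m := Nat.mul_le_mul_left _ h1.le
  have hwd : D.wd = D.k * D.m := rfl
  have hK : D.K = D.k + 1 := rfl
  have c1 : D.rl (.c (D.k * j + 3 * D.k) Y) := by simp only [rl, cR]; omega
  have hn := mt (h.rp _ _ hr c1 (by simp)).2 (by
    intro he
    have := aj_tc he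
    omega)
  rw [h.cell _ _ c1] at hn
  have x1 := h.xt hr
  simp only [Nr] at hn
  rw [x1] at hn
  unfold Sep
  push_cast [hK] at hn ⊢
  omega

theorem Nm.bound (h : Nm D P) {i c : ℕ} (hi : i < D.n) (hc : c < 4) : ∀ j ≤ D.m,
    (D.K : ℤ) ≤ (P (D.ch i c j)).2 ∧ (P (D.ch i c j)).2 + D.K ≤ D.H := by
  have hK : D.K = D.k + 1 := rfl
  intro j
  induction j with
  | zero =>
    intro _
    rw [h.ch0 hi hc]
    have := y0_le (D := D) (c := if c = 2 then 1 else c) hi (by split_ifs <;> omega)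
      (by split_ifs <;> omega) h.ok.k1
    dsimp only
    omega
  | succ j ih =>
    intro hj
    have h1 := ih (by omega)
    have h2 := h.step hi hc (j := j) (by omega)
    by_cases hm : j + 1 = D.m
    · rw [hm, h.chm hi hc]
      have := y0_le (D := D) (c := if c = 2 then 1 else c) hi (by split_ifs <;> omega)
        (by split_ifs <;> omega) h.ok.k1
      dsimp only
      omega
    · have e := ch_mid (D := D) (i := i) (c := c) (j := j + 1) (by omega) (by omega)
      have r := rl_t (D := D) hi hc (j := j + 1) (by omega) (by omega)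
      have s1 := h.mid r (by omega) (by omega) (Or.inl rfl)
      have s2 := h.mid r (by omega) (by omega) (Or.inr rfl)
      rw [← e] at s1 s2
      simp only [Sep, Nr] at s1 s2 h2
      push_cast at s1 s2
      omega

theorem ord_step {a b a' b' : ℤ} (h : a + D.K ≤ b) (h1 : a' ≤ a + D.k)
    (h2 : b ≤ b' + D.k) (s2 : D.Sep a' b') : a' + D.K ≤ b' := by
  have hK : D.K = D.k + 1 := rfl
  unfold Sep at *
  omega

end Pool.Agent.H68.Sq.Dt
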